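import Pool.Agent.ZUni.Defs

/-!
# MODULE AREA. The area mean value inequality
-/

set_option autoImplicit false

open MeasureTheory

namespace Pool.Agent.ZUni

/-- the mean over a circle -/
private theorem AreaM_circle {f : ℂ → ℂ} {z : ℂ} {r ρ : ℝ} (hρ0 : 0 < ρ) (hρ : ρ < r)
    (hf : ∀ w : ℂ, |w.re - z.re| ≤ r → |w.im - z.im| ≤ r → DifferentiableAt ℂ f w) :
    2 * Real.pi * ‖f z‖ ^ 2 ≤ ∫ θ in (-Real.pi)..Real.pi, ‖f (circleMap z ρ θ)‖ ^ 2 := by
  have hball : ∀ w ∈ Metric.closedBall z ρ, DifferentiableAt ℂ f w := by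
    intro w hw
    rw [Metric.mem_closedBall, dist_eq_norm] at hw
    have h1 : |w.re - z.re| ≤ ‖w - z‖ := by
      have := Complex.abs_re_le_norm (w - z)
      rwa [Complex.sub_re] at this
    have h2 : |w.im - z.im| ≤ ‖w - z‖ := by
      have := Complex.abs_im_le_norm (w - z)
      rwa [Complex.sub_im] at this
    exact hf w (by linarith) (by linarith)
  have hd : DiffContOnCl ℂ (fun w => f w ^ 2) (Metric.ball z |ρ|) := by
    refine DifferentiableOn.diffContOnCl fun w hw => ?_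
    rw [abs_of_pos hρ0, closure_ball z hρ0.ne'] at hw
    exact ((hball w hw).pow 2).differentiableWithinAt
  have h1 := DiffContOnCl.circleAverage hd
  have h2 : (fun θ => (fun w => f w ^ 2) (circleMap z ρ θ)) =
      fun θ => f (circleMap z ρ θ) ^ 2 := rfl
  rw [Real.circleAverage_eq_integral_add (-Real.pi)] at h1
  rw [intervalIntegral.integral_comp_add_right
    (fun θ => (fun w => f w ^ 2) (circleMap z ρ θ)) (-Real.pi), h2] at h1
  have h3 : (0 : ℝ) + -Real.pi = -Real.pi := by ring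
  have h4 : 2 * Real.pi + -Real.pi = Real.pi := by ring
  rw [h3, h4] at h1
  have hpi := Real.pi_pos
  have h5 : ‖f z ^ 2‖ ≤ (2 * Real.pi)⁻¹ *
      ∫ θ in (-Real.pi)..Real.pi, ‖f (circleMap z ρ θ)‖ ^ 2 := by
    rw [← h1, norm_smul, Real.norm_of_nonneg (by positivity)]
    refine mul_le_mul_of_nonneg_left ?_ (by positivity)
    refine (intervalIntegral.norm_integral_le_integral_norm (by linarith)).trans (le_of_eq ?_)
    refine intervalIntegral.integral_congr fun θ _ => ?_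
    exact norm_pow _ 2
  rw [norm_pow] at h5
  calc 2 * Real.pi * ‖f z‖ ^ 2 ≤ 2 * Real.pi * ((2 * Real.pi)⁻¹ *
      ∫ θ in (-Real.pi)..Real.pi, ‖f (circleMap z ρ θ)‖ ^ 2) :=
        mul_le_mul_of_nonneg_left h5 (by positivity)
    _ = _ := by rw [← mul_assoc, mul_inv_cancel₀ (by positivity), one_mul]

/-- PROOF. For `0 < ρ ≤ r`, `f z` is the mean of `f` over the circle of radius `ρ`; multiply by `ρ` and integrate over
`ρ ∈ (0, r)`: `f z` is the mean of `f` over the disc of radius `r` (polar coordinates), so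
`‖f z‖² ≤ (π r²)⁻¹ ∫_disc ‖f‖²` (Cauchy-Schwarz), the disc is contained in the square and `1/π ≤ 4`. Any other proof
of this inequality with the constant `4/r²` is fine. -/
theorem area_mean {f : ℂ → ℂ} {z : ℂ} {r : ℝ} (hr : 0 < r)
    (hf : ∀ w : ℂ, |w.re - z.re| ≤ r → |w.im - z.im| ≤ r → DifferentiableAt ℂ f w) :
    ‖f z‖ ^ 2 ≤ (4 / r ^ 2) * ∫ x in (z.re - r)..(z.re + r), ∫ y in (z.im - r)..(z.im + r),
      ‖f ((x : ℂ) + (y : ℂ) * Complex.I)‖ ^ 2 := by
  have hpi := Real.pi_pos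
  let Φ : ℝ × ℝ → ℝ := fun p => ‖f ((p.1 : ℂ) + (p.2 : ℂ) * Complex.I)‖ ^ 2
  let Q : Set (ℝ × ℝ) := Set.Icc (z.re - r) (z.re + r) ×ˢ Set.Icc (z.im - r) (z.im + r)
  let D : Set (ℝ × ℝ) := {p | (p.1 - z.re) ^ 2 + (p.2 - z.im) ^ 2 < r ^ 2}
  have hΦ0 : ∀ p, 0 ≤ Φ p := fun p => sq_nonneg _
  have hcf : ∀ w : ℂ, |w.re - z.re| ≤ r → |w.im - z.im| ≤ r → ContinuousAt f w :=
    fun w h1 h2 => (hf w h1 h2).continuousAt
  have hΦc : ContinuousOn Φ Q := by
    intro p hp
    have h1 : |((p.1 : ℂ) + (p.2 : ℂ) * Complex.I).re - z.re| ≤ r := by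
      have := hp.1
      rw [Set.mem_Icc] at this
      rw [abs_le]
      simp only [Complex.add_re, Complex.ofReal_re, Complex.mul_re, Complex.I_re, mul_zero,
        Complex.ofReal_im, Complex.I_im, mul_one, sub_self, add_zero]
      constructor <;> linarith
    have h2 : |((p.1 : ℂ) + (p.2 : ℂ) * Complex.I).im - z.im| ≤ r := by
      have := hp.2
      rw [Set.mem_Icc] at this
      rw [abs_le]
      simp only [Complex.add_im, Complex.ofReal_im, Complex.mul_im, Complex.ofReal_re,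
        Complex.I_im, mul_one, Complex.I_re, mul_zero, add_zero, zero_add]
      constructor <;> linarith
    have h3 : ContinuousAt (fun p : ℝ × ℝ => ((p.1 : ℂ) + (p.2 : ℂ) * Complex.I)) p := by
      fun_prop
    have h4 : ContinuousAt (fun p : ℝ × ℝ => f ((p.1 : ℂ) + (p.2 : ℂ) * Complex.I)) p :=
      ContinuousAt.comp (f := fun p : ℝ × ℝ => ((p.1 : ℂ) + (p.2 : ℂ) * Complex.I)) (g := f)
        (hcf _ h1 h2) h3
    exact (h4.norm.pow 2).continuousWithinAt
  have hQi : IntegrableOn Φ Q := hΦc.integrableOn_compact (isCompact_Icc.prod isCompact_Icc)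
  -- the iterated integral
  have hI : ∫ x in (z.re - r)..(z.re + r), ∫ y in (z.im - r)..(z.im + r),
      ‖f ((x : ℂ) + (y : ℂ) * Complex.I)‖ ^ 2 = ∫ p in Q, Φ p := by
    have h1 : ∫ p in Q, Φ p = ∫ x in Set.Icc (z.re - r) (z.re + r),
        ∫ y in Set.Icc (z.im - r) (z.im + r), Φ (x, y) := setIntegral_prod Φ hQi
    rw [h1, integral_Icc_eq_integral_Ioc,
      intervalIntegral.integral_of_le (by linarith : z.re - r ≤ z.re + r)]
    refine setIntegral_congr_fun measurableSet_Ioc fun x _ => ?_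
    show _ = ∫ y in Set.Icc (z.im - r) (z.im + r), Φ (x, y)
    rw [integral_Icc_eq_integral_Ioc]
    exact intervalIntegral.integral_of_le (by linarith : z.im - r ≤ z.im + r)
  have hDQ : D ⊆ Q := by
    intro p hp
    have hp' : (p.1 - z.re) ^ 2 + (p.2 - z.im) ^ 2 < r ^ 2 := hp
    have h1 := abs_le_of_sq_le_sq' (a := p.1 - z.re) (b := r) (by nlinarith [sq_nonneg (p.2 - z.im)])
      hr.le
    have h2 := abs_le_of_sq_le_sq' (a := p.2 - z.im) (b := r) (by nlinarith [sq_nonneg (p.1 - z.re)])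
      hr.le
    exact ⟨⟨by linarith [h1.1], by linarith [h1.2]⟩, ⟨by linarith [h2.1], by linarith [h2.2]⟩⟩
  have hDm : MeasurableSet D := by
    refine measurableSet_lt ?_ measurable_const
    fun_prop
  have h1 : ∫ p in D, Φ p ≤ ∫ p in Q, Φ p :=
    setIntegral_mono_set hQi (Filter.Eventually.of_forall fun p => hΦ0 p)
      (Filter.Eventually.of_forall hDQ)
  -- polar coordinates
  let R : Set (ℝ × ℝ) := Set.Ioo 0 r ×ˢ Set.Ioo (-Real.pi) Real.pi
  let Ψ : ℝ × ℝ → ℝ := fun p => p.1 * ‖f (circleMap z p.1 p.2)‖ ^ 2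
  have h2 : ∫ p in D, Φ p = ∫ p in R, Ψ p := by
    rw [← integral_indicator hDm, ← integral_add_left_eq_self _ ((z.re, z.im) : ℝ × ℝ),
      ← integral_comp_polarCoord_symm]
    have e : ∀ p ∈ polarCoord.target,
        p.1 • (D.indicator Φ ((z.re, z.im) + polarCoord.symm p)) =
        (Set.Iio r ×ˢ (Set.univ : Set ℝ)).indicator Ψ p := by
      intro p hp
      rw [polarCoord_target] at hp
      have hp1 : 0 < p.1 := hp.1
      have hs : polarCoord.symm p = (p.1 * Real.cos p.2, p.1 * Real.sin p.2) := rfl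
      rw [hs]
      have hmem : ((z.re, z.im) : ℝ × ℝ) + (p.1 * Real.cos p.2, p.1 * Real.sin p.2) ∈ D ↔
          p ∈ Set.Iio r ×ˢ (Set.univ : Set ℝ) := by
        show (z.re + p.1 * Real.cos p.2 - z.re) ^ 2 + (z.im + p.1 * Real.sin p.2 - z.im) ^ 2 <
          r ^ 2 ↔ _
        have h3 : (z.re + p.1 * Real.cos p.2 - z.re) ^ 2 + (z.im + p.1 * Real.sin p.2 - z.im) ^ 2 =
            p.1 ^ 2 := by
          have := Real.cos_sq_add_sin_sq p.2
          calc _ = p.1 ^ 2 * (Real.cos p.2 ^ 2 + Real.sin p.2 ^ 2) := by ring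
            _ = _ := by rw [this, mul_one]
        rw [h3]
        constructor
        · intro h4
          exact ⟨lt_of_pow_lt_pow_left₀ 2 hr.le h4, trivial⟩
        · intro h4
          exact pow_lt_pow_left₀ h4.1 hp1.le two_ne_zero
      by_cases hd : p ∈ Set.Iio r ×ˢ (Set.univ : Set ℝ)
      · rw [Set.indicator_of_mem (hmem.2 hd), Set.indicator_of_mem hd]
        have hk : ((z.re + p.1 * Real.cos p.2 : ℝ) : ℂ) +
            ((z.im + p.1 * Real.sin p.2 : ℝ) : ℂ) * Complex.I = circleMap z p.1 p.2 := by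
          unfold circleMap
          rw [Complex.exp_mul_I]
          apply Complex.ext <;> simp
        show p.1 * ‖f (((z.re + p.1 * Real.cos p.2 : ℝ) : ℂ) +
            ((z.im + p.1 * Real.sin p.2 : ℝ) : ℂ) * Complex.I)‖ ^ 2 = _
        rw [hk]
      · rw [Set.indicator_of_notMem (fun h => hd (hmem.1 h)), Set.indicator_of_notMem hd,
          smul_zero]
    rw [setIntegral_congr_fun polarCoord.open_target.measurableSet e,
      setIntegral_indicator (measurableSet_Iio.prod MeasurableSet.univ)]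
    have hset : polarCoord.target ∩ Set.Iio r ×ˢ (Set.univ : Set ℝ) = R := by
      ext p
      rw [polarCoord_target]
      constructor
      · rintro ⟨⟨h3, h4⟩, ⟨h5, -⟩⟩
        exact ⟨⟨h3, h5⟩, h4⟩
      · rintro ⟨⟨h3, h5⟩, h4⟩
        exact ⟨⟨h3, h4⟩, ⟨h5, trivial⟩⟩
    rw [hset]
  have hΨc : ContinuousOn Ψ (Set.Icc 0 r ×ˢ Set.Icc (-Real.pi) Real.pi) := by
    intro p hp
    have hp1 := hp.1
    rw [Set.mem_Icc] at hp1
    have hn : ‖circleMap z p.1 p.2 - z‖ = p.1 := by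
      rw [circleMap_sub_center, norm_circleMap_zero, abs_of_nonneg hp1.1]
    have h3 : |(circleMap z p.1 p.2).re - z.re| ≤ r := by
      have := Complex.abs_re_le_norm (circleMap z p.1 p.2 - z)
      rw [Complex.sub_re, hn] at this
      linarith
    have h4 : |(circleMap z p.1 p.2).im - z.im| ≤ r := by
      have := Complex.abs_im_le_norm (circleMap z p.1 p.2 - z)
      rw [Complex.sub_im, hn] at this
      linarith
    have h5 : ContinuousAt (fun p : ℝ × ℝ => circleMap z p.1 p.2) p := by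
      unfold circleMap
      fun_prop
    have h6 : ContinuousAt (fun p : ℝ × ℝ => f (circleMap z p.1 p.2)) p :=
      ContinuousAt.comp (f := fun p : ℝ × ℝ => circleMap z p.1 p.2) (g := f) (hcf _ h3 h4) h5
    exact (continuousAt_fst.mul (h6.norm.pow 2)).continuousWithinAt
  have hRi : IntegrableOn Ψ R :=
    (hΨc.integrableOn_compact (isCompact_Icc.prod isCompact_Icc)).mono_set
      (Set.prod_mono Set.Ioo_subset_Icc_self Set.Ioo_subset_Icc_self)
  have h3 : ∫ p in R, Ψ p = ∫ x in Set.Ioo 0 r, ∫ y in Set.Ioo (-Real.pi) Real.pi, Ψ (x, y) :=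
    setIntegral_prod Ψ hRi
  have h4 : ∫ x in Set.Ioo 0 r, x * (2 * Real.pi * ‖f z‖ ^ 2) ≤
      ∫ x in Set.Ioo 0 r, ∫ y in Set.Ioo (-Real.pi) Real.pi, Ψ (x, y) := by
    refine setIntegral_mono_on ?_ ?_ measurableSet_Ioo fun x hx => ?_
    · have h5 : Continuous fun x : ℝ => x * (2 * Real.pi * ‖f z‖ ^ 2) := by fun_prop
      exact (h5.integrableOn_Icc (a := 0) (b := r)).mono_set Set.Ioo_subset_Icc_self
    · have h5 : Integrable Ψ ((volume.restrict (Set.Ioo 0 r)).prod
          (volume.restrict (Set.Ioo (-Real.pi) Real.pi))) := by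
        rw [Measure.prod_restrict]
        exact hRi
      exact h5.integral_prod_left
    · have h5 := AreaM_circle hx.1 hx.2 hf
      rw [intervalIntegral.integral_of_le (by linarith), integral_Ioc_eq_integral_Ioo] at h5
      show _ ≤ ∫ y in Set.Ioo (-Real.pi) Real.pi, x * ‖f (circleMap z x y)‖ ^ 2
      rw [integral_const_mul]
      exact mul_le_mul_of_nonneg_left h5 hx.1.le
  have h5 : ∫ x in Set.Ioo 0 r, x * (2 * Real.pi * ‖f z‖ ^ 2) = Real.pi * r ^ 2 * ‖f z‖ ^ 2 := by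
    rw [integral_mul_const, ← integral_Ioc_eq_integral_Ioo,
      ← intervalIntegral.integral_of_le hr.le, integral_id]
    ring
  rw [hI]
  rw [h5, ← h3, ← h2] at h4
  have h6 : Real.pi * r ^ 2 * ‖f z‖ ^ 2 ≤ ∫ p in Q, Φ p := h4.trans h1
  have h7 : 0 ≤ r ^ 2 * ‖f z‖ ^ 2 := by positivity
  have h8 : r ^ 2 * ‖f z‖ ^ 2 ≤ 4 * ∫ p in Q, Φ p := by
    have h9 : r ^ 2 * ‖f z‖ ^ 2 ≤ Real.pi * r ^ 2 * ‖f z‖ ^ 2 := by
      have := Real.pi_gt_three
      nlinarith
    have h10 : 0 ≤ ∫ p in Q, Φ p := by linarith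
    linarith
  rw [div_mul_eq_mul_div, le_div_iff₀ (by positivity)]
  linarith

end Pool.Agent.ZUni
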