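import Pool.Agent.ZUni.Defs

/-!
# MODULE BCAR. Logarithmic derivative of a nonvanishing function in a disc
-/

set_option autoImplicit false

namespace Pool.Agent.ZUni

/-- PROOF. A primitive `g` of `f'/f` on the ball with `g z₀ = 0` (`DifferentiableOn.isExactOn_ball`);
`f = f z₀ exp g`, so `Re g ≤ A`. `Complex.borelCaratheodory_zero` gives `‖g‖ ≤ 4 A R' / (R - r)` on the closed
ball of radius `R' = (R + r)/2`, and Cauchy's estimate with radius `(R - r)/2`. -/
theorem logDeriv_bound {f : ℂ → ℂ} {z₀ : ℂ} {R r A : ℝ} (hr : 0 < r) (hrR : r < R) (hA : 0 < A)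
    (hf : DifferentiableOn ℂ f (Metric.ball z₀ R)) (h0 : ∀ z ∈ Metric.ball z₀ R, f z ≠ 0)
    (hb : ∀ z ∈ Metric.ball z₀ R, ‖f z‖ ≤ Real.exp A * ‖f z₀‖) :
    ∀ z ∈ Metric.closedBall z₀ r, ‖deriv f z / f z‖ ≤ 8 * A * R / (R - r) ^ 2 := by
  intro z hz
  have hR : 0 < R := hr.trans hrR
  have hz0 : z₀ ∈ Metric.ball z₀ R := Metric.mem_ball_self hR
  have hfd : ∀ w ∈ Metric.ball z₀ R, DifferentiableAt ℂ f w := fun w hw =>
    hf.differentiableAt (Metric.isOpen_ball.mem_nhds hw)
  have hdf : DifferentiableOn ℂ (deriv f) (Metric.ball z₀ R) := hf.deriv Metric.isOpen_ball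
  have hq : DifferentiableOn ℂ (fun w => deriv f w / f w) (Metric.ball z₀ R) := hdf.div hf h0
  obtain ⟨g, hg0, hg⟩ := hq.isExactOn_ball.with_val_at z₀ 0
  -- `f = f z₀ exp g`
  have hder : ∀ w ∈ Metric.ball z₀ R, HasDerivAt (fun w => f w * Complex.exp (-g w)) 0 w := by
    intro w hw
    have h1 := (hfd w hw).hasDerivAt
    have h2 := ((hg w hw).neg).cexp
    have h3 := h1.mul h2
    have h4 := h0 w hw
    refine h3.congr_deriv ?_
    simp only [Pi.neg_apply]
    field_simp
    ring
  have hconst : ∀ w ∈ Metric.ball z₀ R, f w * Complex.exp (-g w) = f z₀ := by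
    intro w hw
    have h1 := IsOpen.is_const_of_deriv_eq_zero (f := fun w => f w * Complex.exp (-g w))
      Metric.isOpen_ball (convex_ball z₀ R).isPreconnected
      (fun w hw => (hder w hw).differentiableAt.differentiableWithinAt)
      (fun w hw => (hder w hw).deriv) hw hz0
    simpa [hg0] using h1
  have hre : ∀ w ∈ Metric.ball z₀ R, (g w).re ≤ A := by
    intro w hw
    have h1 : f w = f z₀ * Complex.exp (g w) := by
      rw [← hconst w hw, mul_assoc, ← Complex.exp_add]
      simp
    have h2 := hb w hw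
    rw [h1, norm_mul, Complex.norm_exp, mul_comm] at h2
    have h3 : 0 < ‖f z₀‖ := norm_pos_iff.2 (h0 z₀ hz0)
    exact Real.exp_le_exp.1 (le_of_mul_le_mul_right h2 h3)
  -- the bound of `g`
  have hgb : ∀ w : ℂ, ‖w‖ ≤ (R + r) / 2 → ‖g (z₀ + w)‖ ≤ 4 * A * R / (R - r) := by
    intro w hw
    have hwR : ‖w‖ < R := by linarith
    have h1 := Complex.borelCaratheodory_zero (f := fun w => g (z₀ + w)) (R := R) (z := w) hA ?_ ?_
      hR (mem_ball_zero_iff.2 hwR) (by simpa using hg0)
    · refine h1.trans ?_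
      have h2 : (R - r) / 2 ≤ R - ‖w‖ := by linarith
      have h3 : 0 < (R - r) / 2 := by linarith
      calc 2 * A * ‖w‖ / (R - ‖w‖) ≤ 2 * A * R / ((R - r) / 2) := by gcongr
        _ = 4 * A * R / (R - r) := by
          have : R - r ≠ 0 := by linarith
          field_simp
          ring
    · intro v hv
      have hv' : z₀ + v ∈ Metric.ball z₀ R := by
        rw [mem_ball_zero_iff] at hv
        rw [Metric.mem_ball, dist_eq_norm]
        simpa using hv
      have h2 : DifferentiableAt ℂ g (z₀ + v) := (hg _ hv').differentiableAt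
      exact (h2.comp v (by fun_prop)).differentiableWithinAt
    · intro v hv
      have hv' : z₀ + v ∈ Metric.ball z₀ R := by
        rw [mem_ball_zero_iff] at hv
        rw [Metric.mem_ball, dist_eq_norm]
        simpa using hv
      exact hre _ hv'
  -- Cauchy's estimate
  have hρ : 0 < (R - r) / 2 := by linarith
  have hsub : ∀ w, ‖w - z‖ ≤ (R - r) / 2 → ‖w - z₀‖ ≤ (R + r) / 2 := by
    intro w hw
    rw [Metric.mem_closedBall, dist_eq_norm] at hz
    calc ‖w - z₀‖ = ‖(w - z) + (z - z₀)‖ := by congr 1; ring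
      _ ≤ ‖w - z‖ + ‖z - z₀‖ := norm_add_le _ _
      _ ≤ (R + r) / 2 := by linarith
  have hin : ∀ w, ‖w - z‖ ≤ (R - r) / 2 → w ∈ Metric.ball z₀ R := by
    intro w hw
    rw [Metric.mem_ball, dist_eq_norm]
    have := hsub w hw
    linarith
  have hzin : z ∈ Metric.ball z₀ R := hin z (by simpa using hρ.le)
  have h1 : ‖deriv g z‖ ≤ (4 * A * R / (R - r)) / ((R - r) / 2) := by
    refine Complex.norm_deriv_le_of_forall_mem_sphere_norm_le hρ ?_ ?_
    · apply DifferentiableOn.diffContOnCl
      intro w hw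
      have hw' : ‖w - z‖ ≤ (R - r) / 2 := by
        have := Metric.closure_ball_subset_closedBall hw
        rwa [Metric.mem_closedBall, dist_eq_norm] at this
      exact (hg w (hin w hw')).differentiableAt.differentiableWithinAt
    · intro w hw
      have hw' : ‖w - z‖ ≤ (R - r) / 2 := by
        rw [mem_sphere_iff_norm] at hw
        exact hw.le
      have h2 := hgb (w - z₀) (hsub w hw')
      simpa using h2
  rw [(hg z hzin).deriv] at h1
  refine h1.trans (le_of_eq ?_)
  have : R - r ≠ 0 := by linarith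
  field_simp
  ring

end Pool.Agent.ZUni
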