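import Pool.Agent.ZUni.Defs

/-!
# MODULE COEF. Coefficients of the mollified zeta function
-/

set_option autoImplicit false

namespace Pool.Agent.ZUni

/-- the pairs `(n, m)` with product `k` -/
private def cPairs (M N k : ℕ) : Finset (ℕ × ℕ) :=
  (Finset.Icc 1 N ×ˢ Finset.Icc 1 M).filter fun p => p.1 * p.2 = k

private theorem mem_cPairs {M N k : ℕ} {p : ℕ × ℕ} :
    p ∈ cPairs M N k ↔ ((1 ≤ p.1 ∧ p.1 ≤ N) ∧ 1 ≤ p.2 ∧ p.2 ≤ M) ∧ p.1 * p.2 = k := by
  unfold cPairs
  rw [Finset.mem_filter, Finset.mem_product, Finset.mem_Icc, Finset.mem_Icc]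

private theorem cPairs_card (M N k : ℕ) : (cPairs M N k).card ≤ k.divisors.card := by
  refine Finset.card_le_card_of_injOn (fun p => p.2) ?_ ?_
  · intro p hp
    have h := mem_cPairs.1 hp
    refine Finset.mem_coe.2 (Nat.mem_divisors.2 ⟨⟨p.1, by rw [← h.2, mul_comm]⟩, ?_⟩)
    rw [← h.2]
    exact Nat.mul_ne_zero (by omega) (by omega)
  · intro p hp p' hp' he
    have h := mem_cPairs.1 hp
    have h' := mem_cPairs.1 hp'
    have he' : p.2 = p'.2 := he
    have h1 : p.1 * p.2 = p'.1 * p.2 := by rw [h.2, he', h'.2]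
    exact Prod.ext (Nat.eq_of_mul_eq_mul_right (by omega) h1) he'

private theorem cPairs_sum {M N k : ℕ} (hk : 1 ≤ k) (hM : k ≤ M) (hMN : M ≤ N) :
    ∑ p ∈ cPairs M N k, ArithmeticFunction.moebius p.2 = if k = 1 then 1 else 0 := by
  have h1 : ∑ i ∈ k.divisors, ArithmeticFunction.moebius i = if k = 1 then 1 else 0 := by
    have h2 := congrArg (fun f : ArithmeticFunction ℤ => f k)
      ArithmeticFunction.moebius_mul_coe_zeta
    simp only [ArithmeticFunction.coe_mul_zeta_apply, ArithmeticFunction.one_apply] at h2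
    exact h2
  rw [← h1]
  refine Finset.sum_bij (fun p _ => p.2) ?_ ?_ ?_ ?_
  · intro p hp
    have h := mem_cPairs.1 hp
    exact Nat.mem_divisors.2 ⟨⟨p.1, by rw [← h.2, mul_comm]⟩, by omega⟩
  · intro p hp p' hp' he
    have h := mem_cPairs.1 hp
    have h' := mem_cPairs.1 hp'
    have h1 : p.1 * p.2 = p'.1 * p.2 := by rw [h.2, he, h'.2]
    exact Prod.ext (Nat.eq_of_mul_eq_mul_right (by omega) h1) he
  · intro m hm
    obtain ⟨⟨c, hc⟩, -⟩ := Nat.mem_divisors.1 hm
    have hm0 : 1 ≤ m := Nat.pos_of_mem_divisors hm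
    have hc0 : 1 ≤ c := by
      rcases Nat.eq_zero_or_pos c with h | h
      · rw [h, mul_zero] at hc; omega
      · exact h
    have hmk : m ≤ k := by rw [hc]; exact Nat.le_mul_of_pos_right m hc0
    have hck : c ≤ k := by rw [hc]; exact Nat.le_mul_of_pos_left c hm0
    refine ⟨(c, m), mem_cPairs.2 ⟨⟨⟨hc0, hck.trans (hM.trans hMN)⟩, hm0, hmk.trans hM⟩, ?_⟩, rfl⟩
    change c * m = k
    rw [hc, mul_comm]
  · intro p _
    rfl

/-- PROOF. `b k = ∑ μ(m)` over the divisors `m` of `k` with `m ≤ M` and `k / m ≤ N`. For `1 ≤ k ≤ M` these are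
all divisors of `k`, so `b k = [k = 1]`. `(m n)^(-s) = m^(-s) n^(-s)`: `Complex.natCast_mul_natCast_cpow`. -/
theorem mollified (M N : ℕ) (hM : 1 ≤ M) (hMN : M ≤ N) :
    ∃ b : ℕ → ℝ, (∀ n, |b n| ≤ (n.divisors.card : ℝ)) ∧ ∀ s : ℂ,
      (∑ n ∈ Finset.Icc 1 N, (n : ℂ) ^ (-s)) *
        (∑ m ∈ Finset.Icc 1 M, ((ArithmeticFunction.moebius m : ℤ) : ℂ) * (m : ℂ) ^ (-s)) - 1 =
      ∑ n ∈ Finset.Ioc M (M * N), (b n : ℂ) * (n : ℂ) ^ (-s) := by
  refine ⟨fun k => ((∑ p ∈ cPairs M N k, ArithmeticFunction.moebius p.2 : ℤ) : ℝ), ?_, ?_⟩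
  · intro k
    have h1 : |∑ p ∈ cPairs M N k, ArithmeticFunction.moebius p.2| ≤ (k.divisors.card : ℤ) := by
      refine (Finset.abs_sum_le_sum_abs _ _).trans ?_
      refine (Finset.sum_le_sum (g := fun _ => (1 : ℤ)) fun p _ =>
        ArithmeticFunction.abs_moebius_le_one).trans ?_
      rw [Finset.sum_const, nsmul_eq_mul, mul_one]
      exact_mod_cast cPairs_card M N k
    have h2 : ((|∑ p ∈ cPairs M N k, ArithmeticFunction.moebius p.2| : ℤ) : ℝ) ≤
        ((k.divisors.card : ℤ) : ℝ) := by exact_mod_cast h1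
    rw [Int.cast_abs, Int.cast_natCast] at h2
    exact h2
  · intro s
    have h1 : (∑ n ∈ Finset.Icc 1 N, (n : ℂ) ^ (-s)) *
        (∑ m ∈ Finset.Icc 1 M, ((ArithmeticFunction.moebius m : ℤ) : ℂ) * (m : ℂ) ^ (-s)) =
        ∑ k ∈ Finset.Icc 1 (M * N), ((((∑ p ∈ cPairs M N k,
          ArithmeticFunction.moebius p.2 : ℤ) : ℝ)) : ℂ) * (k : ℂ) ^ (-s) := by
      rw [Finset.sum_mul_sum, ← Finset.sum_product']
      rw [← Finset.sum_fiberwise_of_maps_to (s := Finset.Icc 1 N ×ˢ Finset.Icc 1 M)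
        (t := Finset.Icc 1 (M * N)) (g := fun p => p.1 * p.2)]
      · refine Finset.sum_congr rfl fun k hk => ?_
        push_cast
        rw [Finset.sum_mul]
        refine Finset.sum_congr rfl fun p hp => ?_
        have h := mem_cPairs.1 (show p ∈ cPairs M N k from hp)
        rw [← h.2]
        push_cast
        rw [Complex.natCast_mul_natCast_cpow]
        ring
      · intro p hp
        rw [Finset.mem_product, Finset.mem_Icc, Finset.mem_Icc] at hp
        rw [Finset.mem_Icc]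
        refine ⟨Nat.mul_pos (by omega) (by omega), ?_⟩
        rw [mul_comm M N]
        exact Nat.mul_le_mul hp.1.2 hp.2.2
    have h2 : Finset.Icc 1 (M * N) = Finset.Icc 1 M ∪ Finset.Ioc M (M * N) := by
      ext k
      have h3 : M ≤ M * N := Nat.le_mul_of_pos_right M (by omega)
      rw [Finset.mem_union, Finset.mem_Icc, Finset.mem_Icc, Finset.mem_Ioc]
      omega
    have h3 : Disjoint (Finset.Icc 1 M) (Finset.Ioc M (M * N)) := by
      rw [Finset.disjoint_left]
      intro k hk hk'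
      rw [Finset.mem_Icc] at hk
      rw [Finset.mem_Ioc] at hk'
      omega
    rw [h1, h2, Finset.sum_union h3]
    have h4 : ∑ k ∈ Finset.Icc 1 M, ((((∑ p ∈ cPairs M N k,
          ArithmeticFunction.moebius p.2 : ℤ) : ℝ)) : ℂ) * (k : ℂ) ^ (-s) = 1 := by
      rw [Finset.sum_eq_single 1]
      · rw [cPairs_sum le_rfl hM hMN, if_pos rfl]
        simp
      · intro k hk hk1
        rw [Finset.mem_Icc] at hk
        rw [cPairs_sum hk.1 hk.2 hMN, if_neg hk1]
        simp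
      · intro h
        exact absurd (Finset.mem_Icc.2 ⟨le_rfl, hM⟩) h
    rw [h4]
    ring

end Pool.Agent.ZUni
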