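import Mathlib

/-!
# Definitions for the lower bounds of `ζ` in short intervals (MP_73417d_nt)
-/

set_option autoImplicit false

open MeasureTheory

namespace Pool.Agent.ZUni

/-- The integral of `|ζ(σ + it)|` over `[T, T + H]`. -/
noncomputable def IZ (σ T H : ℝ) : ℝ :=
  ∫ t in T..(T + H), ‖riemannZeta ((σ : ℂ) + (t : ℂ) * Complex.I)‖

/-- The mollifier `∑_{m ≤ X} μ(m) m^{-s}`. -/
noncomputable def moll (X : ℝ) (s : ℂ) : ℂ :=
  ∑ m ∈ Finset.Icc 1 ⌊X⌋₊, ((ArithmeticFunction.moebius m : ℤ) : ℂ) * (m : ℂ) ^ (-s)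

/-- `ζ(s) M_X(s) - 1`. -/
noncomputable def FF (X : ℝ) (s : ℂ) : ℂ := riemannZeta s * moll X s - 1

end Pool.Agent.ZUni
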