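import Pool.Agent.ZUni.MeanV
import Pool.Agent.ZUni.Coef
import Pool.Agent.SWz.ZetaGrow
import Pool.Agent.Disp.L1Tau

/-!
# MODULE MSQ. The mean square of the mollified zeta function
-/

set_option autoImplicit false

open MeasureTheory

namespace Pool.Agent.ZUni

private theorem msq_cont_cpow (n : ℕ) (hn : 1 ≤ n) (f : ℝ → ℂ) (hf : Continuous f) :
    Continuous fun t : ℝ => (n : ℂ) ^ (f t) :=
  hf.const_cpow (Or.inl (by exact_mod_cast (by omega : n ≠ 0)))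

private theorem msq_im (σ t : ℝ) : ((σ : ℂ) + (t : ℂ) * Complex.I).im = t := by simp

private theorem msq_re (σ t : ℝ) : ((σ : ℂ) + (t : ℂ) * Complex.I).re = σ := by simp

/-- sum of `m ^ (-σ)` -/
private theorem msq_sum (ε : ℝ) (hε : 0 < ε) (N : ℕ) (hN : 1 ≤ N) (σ : ℝ) (hs : 1 - ε ≤ σ) :
    ∑ n ∈ Finset.Icc 1 N, (n : ℝ) ^ (-σ) ≤ (1 + 1 / ε) * (N : ℝ) ^ (2 * ε) := by
  have h := Pool.Agent.SWz.ZGROW_sum ε hε N hN (σ : ℂ) (by simpa using hs)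
  have h1 : ∑ n ∈ Finset.Icc 1 N, (n : ℂ) ^ (-(σ : ℂ)) =
      ((∑ n ∈ Finset.Icc 1 N, (n : ℝ) ^ (-σ) : ℝ) : ℂ) := by
    push_cast
    refine Finset.sum_congr rfl fun n _ => ?_
    rw [Complex.ofReal_cpow (Nat.cast_nonneg n)]
    push_cast
    rfl
  rw [h1, Complex.norm_real, Real.norm_of_nonneg
    (Finset.sum_nonneg fun n _ => by positivity)] at h
  exact h

/-- bound for the mollifier -/
private theorem msq_moll (κ : ℝ) (hκ : 0 < κ) (X : ℝ) (hX : 4 ≤ X) (σ t : ℝ)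
    (hσ : 1 - 2 * κ ≤ σ) :
    ‖moll X ((σ : ℂ) + (t : ℂ) * Complex.I)‖ ≤ (1 + 1 / (2 * κ)) * X ^ (4 * κ) := by
  have hM : 1 ≤ ⌊X⌋₊ := (Nat.one_le_floor_iff X).2 (by linarith)
  have h1 : ‖moll X ((σ : ℂ) + (t : ℂ) * Complex.I)‖ ≤
      ∑ m ∈ Finset.Icc 1 ⌊X⌋₊, (m : ℝ) ^ (-σ) := by
    unfold moll
    refine (norm_sum_le _ _).trans (Finset.sum_le_sum fun m hm => ?_)
    rw [Finset.mem_Icc] at hm
    rw [norm_mul, Complex.norm_natCast_cpow_of_pos (by omega), Complex.neg_re, msq_re]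
    have h2 : ‖((ArithmeticFunction.moebius m : ℤ) : ℂ)‖ ≤ 1 := by
      rw [Complex.norm_intCast]
      exact_mod_cast ArithmeticFunction.abs_moebius_le_one
    calc _ ≤ 1 * (m : ℝ) ^ (-σ) := mul_le_mul_of_nonneg_right h2 (by positivity)
      _ = _ := one_mul _
  have h2 := msq_sum (2 * κ) (by positivity) ⌊X⌋₊ hM σ hσ
  have h3 : ((⌊X⌋₊ : ℕ) : ℝ) ^ (2 * (2 * κ)) ≤ X ^ (4 * κ) := by
    have h4 : 2 * (2 * κ) = 4 * κ := by ring
    rw [h4]
    exact Real.rpow_le_rpow (Nat.cast_nonneg _) (Nat.floor_le (by linarith)) (by positivity)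
  exact h1.trans (h2.trans (mul_le_mul_of_nonneg_left h3 (by positivity)))

/-- `ζ` minus the partial sum -/
private theorem msq_tail (κ : ℝ) (hκ : 0 < κ) (hκ' : κ ≤ 1 / 40) (X : ℝ) (hX : 4 ≤ X) (σ t : ℝ)
    (hσ : 1 - 2 * κ ≤ σ) (hσ3 : σ ≤ 3) (ht : X / 2 ≤ t) (ht' : t ≤ 3 * X) :
    ‖riemannZeta ((σ : ℂ) + (t : ℂ) * Complex.I) -
      ∑ n ∈ Finset.Icc 1 (⌊X⌋₊ ^ 3), (n : ℂ) ^ (-((σ : ℂ) + (t : ℂ) * Complex.I))‖ ≤
      106 * X ^ (-1 + 6 * κ) := by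
  set s : ℂ := (σ : ℂ) + (t : ℂ) * Complex.I with hs
  have hre : s.re = σ := msq_re σ t
  have him : s.im = t := msq_im σ t
  have hX0 : (0 : ℝ) < X := by linarith
  have hX1 : (1 : ℝ) ≤ X := by linarith
  set M : ℕ := ⌊X⌋₊ with hM
  have hMX : (M : ℝ) ≤ X := Nat.floor_le hX0.le
  have hXM : X < (M : ℝ) + 1 := Nat.lt_floor_add_one X
  have hM2 : X / 2 ≤ (M : ℝ) := by linarith
  have hM1 : 1 ≤ M := by
    have : (1 : ℝ) ≤ M := by linarith
    exact_mod_cast this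
  have hN1 : 1 ≤ M ^ 3 := Nat.one_le_pow _ _ hM1
  have hσ0 : 19 / 20 ≤ σ := by linarith
  have hne : s ≠ 1 := by
    intro h
    rw [h] at him
    simp at him
    linarith
  have h := Pool.Agent.SWz.zeta_cont s (by rw [hre]; linarith) hne (M ^ 3) hN1
  -- the two error terms
  have hN0 : (0 : ℝ) < ((M ^ 3 : ℕ) : ℝ) := by exact_mod_cast hN1
  have hN2X : ((M ^ 3 : ℕ) : ℝ) + 1 ≤ 2 * X ^ 3 := by
    push_cast
    have h1 : (M : ℝ) ^ 3 ≤ X ^ 3 := pow_le_pow_left₀ (Nat.cast_nonneg _) hMX 3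
    have h2 : (1 : ℝ) ≤ X ^ 3 := one_le_pow₀ hX1
    linarith
  have hA : ‖(((M ^ 3 : ℕ) : ℂ) + 1) ^ (1 - s) / (s - 1)‖ ≤ 4 * X ^ (-1 + 6 * κ) := by
    have e1 : (((M ^ 3 : ℕ) : ℂ) + 1) = ((((M ^ 3 : ℕ) : ℝ) + 1 : ℝ) : ℂ) := by push_cast; ring
    rw [norm_div, e1, Complex.norm_cpow_eq_rpow_re_of_pos (by positivity)]
    have h1 : X / 2 ≤ ‖s - 1‖ := by
      have h2 := Complex.abs_im_le_norm (s - 1)
      rw [Complex.sub_im, him, Complex.one_im, sub_zero, abs_of_pos (by linarith)] at h2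
      exact ht.trans h2
    have h2 : (((M ^ 3 : ℕ) : ℝ) + 1) ^ (1 - s).re ≤ 2 * X ^ (6 * κ) := by
      calc (((M ^ 3 : ℕ) : ℝ) + 1) ^ (1 - s).re ≤ (((M ^ 3 : ℕ) : ℝ) + 1) ^ (2 * κ) := by
            apply Real.rpow_le_rpow_of_exponent_le (by linarith)
            rw [Complex.sub_re, Complex.one_re, hre]
            linarith
        _ ≤ (2 * X ^ 3) ^ (2 * κ) := Real.rpow_le_rpow (by positivity) hN2X (by positivity)
        _ = 2 ^ (2 * κ) * X ^ (6 * κ) := by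
            rw [Real.mul_rpow (by norm_num) (by positivity), ← Real.rpow_natCast,
              ← Real.rpow_mul hX0.le]
            congr 2
            push_cast
            ring
        _ ≤ 2 * X ^ (6 * κ) := by
            apply mul_le_mul_of_nonneg_right _ (by positivity)
            calc (2 : ℝ) ^ (2 * κ) ≤ 2 ^ (1 : ℝ) :=
                  Real.rpow_le_rpow_of_exponent_le (by norm_num) (by linarith)
              _ = 2 := Real.rpow_one 2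
    calc (((M ^ 3 : ℕ) : ℝ) + 1) ^ (1 - s).re / ‖s - 1‖ ≤ 2 * X ^ (6 * κ) / (X / 2) :=
          div_le_div₀ (by positivity) h2 (by positivity) h1
      _ = 4 * X ^ (-1 + 6 * κ) := by
          rw [Real.rpow_add hX0, Real.rpow_neg_one]
          field_simp
          ring
  have hB : 3 * ‖s‖ * ((M ^ 3 : ℕ) : ℝ) ^ (-s.re) / s.re ≤ 102 * X ^ (-1 + 6 * κ) := by
    rw [hre]
    have h1 : ‖s‖ ≤ 4 * X := by
      have h2 := Complex.norm_le_abs_re_add_abs_im s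
      rw [hre, him, abs_of_pos (by linarith : (0 : ℝ) < σ),
        abs_of_pos (by linarith : (0 : ℝ) < t)] at h2
      linarith
    have h2 : ((M ^ 3 : ℕ) : ℝ) ^ (-σ) ≤ 8 * X ^ (-3 + 6 * κ) := by
      calc ((M ^ 3 : ℕ) : ℝ) ^ (-σ) ≤ ((M ^ 3 : ℕ) : ℝ) ^ (-(1 - 2 * κ)) := by
            apply Real.rpow_le_rpow_of_exponent_le (by exact_mod_cast hN1)
            linarith
        _ ≤ ((X / 2) ^ 3) ^ (-(1 - 2 * κ)) := by
            apply Real.rpow_le_rpow_of_nonpos (by positivity)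
            · push_cast
              exact pow_le_pow_left₀ (by positivity) hM2 3
            · linarith
        _ = X ^ (-3 + 6 * κ) * (1 / 2) ^ (-3 + 6 * κ) := by
            rw [← Real.rpow_natCast, ← Real.rpow_mul (by positivity), div_eq_mul_one_div,
              Real.mul_rpow hX0.le (by norm_num)]
            have e2 : ((3 : ℕ) : ℝ) * (-(1 - 2 * κ)) = -3 + 6 * κ := by push_cast; ring
            rw [e2]
        _ ≤ X ^ (-3 + 6 * κ) * 8 := by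
            apply mul_le_mul_of_nonneg_left _ (by positivity)
            have e3 : ((1 : ℝ) / 2) ^ (-3 + 6 * κ) ≤ (1 / 2) ^ (-3 : ℝ) :=
              Real.rpow_le_rpow_of_exponent_ge (by norm_num) (by norm_num) (by linarith)
            refine e3.trans (le_of_eq ?_)
            rw [Real.rpow_neg (by norm_num)]
            norm_num
        _ = 8 * X ^ (-3 + 6 * κ) := mul_comm _ _
    have h3 : X * X ^ (-3 + 6 * κ) ≤ X ^ (-1 + 6 * κ) := by
      have e4 : X * X ^ (-3 + 6 * κ) = X ^ (-2 + 6 * κ) := by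
        nth_rewrite 1 [← Real.rpow_one X]
        rw [← Real.rpow_add hX0]
        congr 1
        ring
      rw [e4]
      exact Real.rpow_le_rpow_of_exponent_le hX1 (by linarith)
    have h4 : 3 * ‖s‖ * ((M ^ 3 : ℕ) : ℝ) ^ (-σ) ≤ 3 * (4 * X) * (8 * X ^ (-3 + 6 * κ)) :=
      mul_le_mul (mul_le_mul_of_nonneg_left h1 (by norm_num)) h2 (by positivity) (by positivity)
    rw [div_le_iff₀ (by linarith)]
    have h5 : 3 * (4 * X) * (8 * X ^ (-3 + 6 * κ)) = 96 * (X * X ^ (-3 + 6 * κ)) := by ring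
    have h6 : (0 : ℝ) ≤ X ^ (-1 + 6 * κ) := by positivity
    have h7 : 102 * X ^ (-1 + 6 * κ) * (19 / 20) ≤ 102 * X ^ (-1 + 6 * κ) * σ :=
      mul_le_mul_of_nonneg_left hσ0 (by positivity)
    linarith
  have hfin : ‖riemannZeta s - ∑ n ∈ Finset.Icc 1 (M ^ 3), (n : ℂ) ^ (-s)‖ ≤
      3 * ‖s‖ * ((M ^ 3 : ℕ) : ℝ) ^ (-s.re) / s.re +
        ‖(((M ^ 3 : ℕ) : ℂ) + 1) ^ (1 - s) / (s - 1)‖ := by
    calc ‖riemannZeta s - ∑ n ∈ Finset.Icc 1 (M ^ 3), (n : ℂ) ^ (-s)‖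
        = ‖(riemannZeta s - ∑ n ∈ Finset.Icc 1 (M ^ 3), (n : ℂ) ^ (-s) -
            (((M ^ 3 : ℕ) : ℂ) + 1) ^ (1 - s) / (s - 1)) +
            (((M ^ 3 : ℕ) : ℂ) + 1) ^ (1 - s) / (s - 1)‖ := by rw [sub_add_cancel]
      _ ≤ _ := norm_add_le _ _
      _ ≤ _ := add_le_add_left h _
  linarith

/-- the mean square of the Dirichlet polynomial -/
private theorem msq_poly (κ : ℝ) (hκ : 0 < κ) (C0 : ℝ) (hC0 : 1 ≤ C0)
    (hτ : ∀ n : ℕ, 1 ≤ n → (n.divisors.card : ℝ) ≤ C0 * (n : ℝ) ^ (κ / 2)) (X : ℝ) (hX : 4 ≤ X)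
    (σ : ℝ) (hσ : 1 - 2 * κ ≤ σ) (b : ℕ → ℝ) (hb : ∀ n, |b n| ≤ (n.divisors.card : ℝ)) :
    ∫ t in (X / 2)..(3 * X), ‖∑ n ∈ Finset.Icc 1 (⌊X⌋₊ * ⌊X⌋₊ ^ 3),
        (if ⌊X⌋₊ < n then ((b n : ℂ) * ((n : ℝ) ^ (-σ) : ℝ)) else 0) *
          (n : ℂ) ^ (-((t : ℂ) * Complex.I))‖ ^ 2 ≤
      C0 ^ 2 * ((15 + 40 / κ) * (1 + 4 / κ)) * X ^ (22 * κ) := by
  have hX0 : (0 : ℝ) < X := by linarith
  set M : ℕ := ⌊X⌋₊ with hM
  have hMX : (M : ℝ) ≤ X := Nat.floor_le hX0.le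
  have hXM : X < (M : ℝ) + 1 := Nat.lt_floor_add_one X
  have hM2 : X / 2 ≤ (M : ℝ) := by linarith
  have hM0 : (0 : ℝ) < M := by linarith
  have hMr1 : (1 : ℝ) ≤ M := by linarith
  have hM1 : 1 ≤ M := by exact_mod_cast hMr1
  have hNM : M * M ^ 3 = M ^ 4 := by ring
  rw [hNM]
  have hN1 : 1 ≤ M ^ 4 := Nat.one_le_pow _ _ hM1
  refine (mean_value (M ^ 4) _ (X / 2) (3 * X) (by linarith)).trans ?_
  have hlog : Real.log ((M ^ 4 : ℕ) : ℝ) = 4 * Real.log M := by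
    push_cast
    rw [Real.log_pow]
    norm_num
  have hlogM : Real.log M ≤ (M : ℝ) ^ κ / κ := Real.log_le_rpow_div hM0.le hκ
  have hlogM0 : 0 ≤ Real.log M := Real.log_nonneg hMr1
  have hMκ1 : (1 : ℝ) ≤ (M : ℝ) ^ κ := Real.one_le_rpow hMr1 hκ.le
  -- termwise bound
  have hterm : ∀ n ∈ Finset.Icc 1 (M ^ 4),
      ‖(if M < n then ((b n : ℂ) * ((n : ℝ) ^ (-σ) : ℝ)) else 0)‖ ^ 2 *
        ((3 * X - X / 2) + 10 * n * (1 + Real.log ((M ^ 4 : ℕ) : ℝ))) ≤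
      (C0 ^ 2 * (15 + 40 * Real.log M) * (M : ℝ) ^ (20 * κ)) * (n : ℝ)⁻¹ := by
    intro n hn
    rw [Finset.mem_Icc] at hn
    have hn0 : (0 : ℝ) < n := by exact_mod_cast hn.1
    have hn1 : (1 : ℝ) ≤ n := by exact_mod_cast hn.1
    by_cases hMn : M < n
    · rw [if_pos hMn]
      have hXn : X ≤ 2 * n := by
        have h1 : (M : ℝ) ≤ n := by exact_mod_cast hMn.le
        linarith
      have h1 : ‖(b n : ℂ) * ((n : ℝ) ^ (-σ) : ℝ)‖ ^ 2 ≤ C0 ^ 2 * (n : ℝ) ^ (-2 + 5 * κ) := by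
        rw [norm_mul, Complex.norm_real, Complex.norm_real, Real.norm_eq_abs, Real.norm_eq_abs,
          abs_of_nonneg (by positivity : (0 : ℝ) ≤ (n : ℝ) ^ (-σ))]
        have h2 : |b n| * (n : ℝ) ^ (-σ) ≤ (C0 * (n : ℝ) ^ (κ / 2)) * (n : ℝ) ^ (-1 + 2 * κ) :=
          mul_le_mul ((hb n).trans (hτ n hn.1))
            (Real.rpow_le_rpow_of_exponent_le hn1 (by linarith)) (by positivity) (by positivity)
        have h3 : (C0 * (n : ℝ) ^ (κ / 2)) * (n : ℝ) ^ (-1 + 2 * κ) =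
            C0 * (n : ℝ) ^ (-1 + 5 * κ / 2) := by
          rw [mul_assoc, ← Real.rpow_add hn0]
          congr 2
          ring
        rw [h3] at h2
        calc (|b n| * (n : ℝ) ^ (-σ)) ^ 2 ≤ (C0 * (n : ℝ) ^ (-1 + 5 * κ / 2)) ^ 2 :=
              pow_le_pow_left₀ (by positivity) h2 2
          _ = C0 ^ 2 * (n : ℝ) ^ (-2 + 5 * κ) := by
              rw [mul_pow, ← Real.rpow_natCast, ← Real.rpow_natCast, ← Real.rpow_mul hn0.le]
              congr 2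
              push_cast
              ring
      have h4 : (3 * X - X / 2) + 10 * n * (1 + Real.log ((M ^ 4 : ℕ) : ℝ)) ≤
          (15 + 40 * Real.log M) * n := by
        rw [hlog]
        have h5 : (0 : ℝ) ≤ n * Real.log M := mul_nonneg hn0.le hlogM0
        nlinarith
      have h6 : (0 : ℝ) ≤ (3 * X - X / 2) + 10 * n * (1 + Real.log ((M ^ 4 : ℕ) : ℝ)) := by
        rw [hlog]
        have h5 : (0 : ℝ) ≤ n * (1 + 4 * Real.log M) := mul_nonneg hn0.le (by linarith)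
        nlinarith
      calc _ ≤ (C0 ^ 2 * (n : ℝ) ^ (-2 + 5 * κ)) * ((15 + 40 * Real.log M) * n) :=
            mul_le_mul h1 h4 h6 (by positivity)
        _ = (C0 ^ 2 * (15 + 40 * Real.log M)) * ((n : ℝ) ^ (5 * κ) * (n : ℝ)⁻¹) := by
            have h7 : (n : ℝ) ^ (-2 + 5 * κ) * n = (n : ℝ) ^ (5 * κ) * (n : ℝ)⁻¹ := by
              rw [← Real.rpow_neg_one (n : ℝ)]
              nth_rewrite 2 [← Real.rpow_one (n : ℝ)]
              rw [← Real.rpow_add hn0, ← Real.rpow_add hn0]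
              congr 1
              ring
            calc _ = (C0 ^ 2 * (15 + 40 * Real.log M)) * ((n : ℝ) ^ (-2 + 5 * κ) * n) := by ring
              _ = _ := by rw [h7]
        _ ≤ (C0 ^ 2 * (15 + 40 * Real.log M)) * ((M : ℝ) ^ (20 * κ) * (n : ℝ)⁻¹) := by
            apply mul_le_mul_of_nonneg_left _ (by positivity)
            apply mul_le_mul_of_nonneg_right _ (by positivity)
            calc (n : ℝ) ^ (5 * κ) ≤ ((M : ℝ) ^ 4) ^ (5 * κ) :=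
                  Real.rpow_le_rpow hn0.le (by exact_mod_cast hn.2) (by positivity)
              _ = (M : ℝ) ^ (20 * κ) := by
                  rw [← Real.rpow_natCast, ← Real.rpow_mul hM0.le]
                  congr 1
                  push_cast
                  ring
        _ = _ := by ring
    · rw [if_neg hMn]
      rw [norm_zero]
      have h1 : (0 : ℝ) ≤ (C0 ^ 2 * (15 + 40 * Real.log M) * (M : ℝ) ^ (20 * κ)) * (n : ℝ)⁻¹ := by
        positivity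
      simpa using h1
  refine (Finset.sum_le_sum hterm).trans ?_
  rw [← Finset.mul_sum]
  have hharm : ∑ n ∈ Finset.Icc 1 (M ^ 4), (n : ℝ)⁻¹ ≤ 1 + 4 * Real.log M := by
    have h := harmonic_le_one_add_log (M ^ 4)
    rw [harmonic_eq_sum_Icc] at h
    rw [← hlog]
    push_cast at h ⊢
    exact h
  have h15 : 15 + 40 * Real.log M ≤ (15 + 40 / κ) * (M : ℝ) ^ κ := by
    have h1 : 40 * Real.log M ≤ 40 / κ * (M : ℝ) ^ κ := by
      calc 40 * Real.log M ≤ 40 * ((M : ℝ) ^ κ / κ) := by linarith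
        _ = 40 / κ * (M : ℝ) ^ κ := by ring
    linarith
  have h14 : 1 + 4 * Real.log M ≤ (1 + 4 / κ) * (M : ℝ) ^ κ := by
    have h1 : 4 * Real.log M ≤ 4 / κ * (M : ℝ) ^ κ := by
      calc 4 * Real.log M ≤ 4 * ((M : ℝ) ^ κ / κ) := by linarith
        _ = 4 / κ * (M : ℝ) ^ κ := by ring
    linarith
  calc C0 ^ 2 * (15 + 40 * Real.log M) * (M : ℝ) ^ (20 * κ) *
        ∑ n ∈ Finset.Icc 1 (M ^ 4), (n : ℝ)⁻¹
      ≤ C0 ^ 2 * ((15 + 40 / κ) * (M : ℝ) ^ κ) * (M : ℝ) ^ (20 * κ) *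
          ((1 + 4 / κ) * (M : ℝ) ^ κ) := by
        apply mul_le_mul _ (hharm.trans h14) (Finset.sum_nonneg fun n _ => by positivity)
          (by positivity)
        apply mul_le_mul_of_nonneg_right _ (by positivity)
        exact mul_le_mul_of_nonneg_left h15 (by positivity)
    _ = C0 ^ 2 * ((15 + 40 / κ) * (1 + 4 / κ)) * (M : ℝ) ^ (22 * κ) := by
        have h1 : (M : ℝ) ^ (22 * κ) = (M : ℝ) ^ κ * (M : ℝ) ^ (20 * κ) * (M : ℝ) ^ κ := by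
          rw [← Real.rpow_add hM0, ← Real.rpow_add hM0]
          congr 1
          ring
        rw [h1]
        ring
    _ ≤ C0 ^ 2 * ((15 + 40 / κ) * (1 + 4 / κ)) * X ^ (22 * κ) := by
        apply mul_le_mul_of_nonneg_left _ (by positivity)
        exact Real.rpow_le_rpow hM0.le hMX (by positivity)

/-- PROOF. Let `M = ⌊X⌋₊`, `N = M³`. By `Pool.Agent.SWz.zeta_cont` (Pool/Agent/SWz/ZetaCont.lean) for `s = σ + it`,
`X/2 ≤ t ≤ 3X`, `Z = ∑_{n ≤ N} n^(-s)`: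
`‖ζ(s) - Z‖ ≤ ‖(N+1)^(1-s)/(s-1)‖ + 3 ‖s‖ N^(-σ)/σ ≤ C X^(-1+6κ)` (since `N ≥ (X/2)³`, `N + 1 ≤ 2 X³`,
`1 - σ ≤ 2κ`, `‖s‖ ≤ 4X`, `‖s - 1‖ ≥ X/2`), and `‖moll X s‖ ≤ C X^(4κ)` (as in `ZGROW_sum` with `ε = 2κ`), so
`‖(ζ(s) - Z) moll X s‖ ≤ C X^(-1+10κ)`: the mean square of this part over an interval of length `5X/2` is
`≤ C X^(-1+20κ) ≤ C`. By `mollified`, `Z moll X s - 1 = ∑_{M < n ≤ M⁴} b n n^(-s)` with
`|b n|² ≤ C n^κ` (divisor bound with exponent `κ/2`, Pool/Agent/Disp/L1Tau.lean line 61). By `mean_value` (coefficients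
`b n n^(-σ)` for `n > M`, `0` for `n ≤ M`) the mean square is at most
`∑_{M < n ≤ M⁴} C n^(κ-2σ) (3X + 10 n (1 + 4 log M))`, and `κ - 2σ ≤ -2 + 5κ`:
`X ∑_{n > M} n^(-2+5κ) ≤ C X M^(-1+5κ) ≤ C X^(5κ)` and
`(1 + 4 log M) ∑_{n ≤ M⁴} n^(-1+5κ) ≤ C (1 + 4 log M) M^(20κ) ≤ C X^(21κ)`. Total `≤ C X^(30κ)`. -/
theorem mean_square (κ : ℝ) (hκ : 0 < κ) (hκ' : κ ≤ 1 / 40) : ∃ C : ℝ, 0 < C ∧ ∀ X : ℝ, 4 ≤ X →
    ∀ σ : ℝ, 1 - 2 * κ ≤ σ → σ ≤ 3 →
      ∫ t in (X / 2)..(3 * X), ‖FF X ((σ : ℂ) + (t : ℂ) * Complex.I)‖ ^ 2 ≤ C * X ^ (30 * κ) := by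
  obtain ⟨C0, hC0, hτ⟩ := Pool.Agent.Disp.tau_eps (κ / 2) (by positivity)
  set C1 : ℝ := 106 * (1 + 1 / (2 * κ)) with hC1
  set C2 : ℝ := C0 ^ 2 * ((15 + 40 / κ) * (1 + 4 / κ)) with hC2
  have hC1p : 0 < C1 := by positivity
  have hC2p : 0 < C2 := by positivity
  refine ⟨5 * C1 ^ 2 + 2 * C2, by positivity, fun X hX σ hσ hσ3 => ?_⟩
  have hX0 : (0 : ℝ) < X := by linarith
  have hX1 : (1 : ℝ) ≤ X := by linarith
  have hMr1 : (1 : ℝ) ≤ (⌊X⌋₊ : ℝ) := by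
    have := Nat.lt_floor_add_one X
    linarith
  have hM1 : 1 ≤ ⌊X⌋₊ := by exact_mod_cast hMr1
  obtain ⟨b, hb, hbs⟩ := mollified ⌊X⌋₊ (⌊X⌋₊ ^ 3) hM1
    (by calc ⌊X⌋₊ = ⌊X⌋₊ ^ 1 := (pow_one _).symm
          _ ≤ ⌊X⌋₊ ^ 3 := Nat.pow_le_pow_right hM1 (by norm_num))
  set P : ℝ → ℂ := fun t => ∑ n ∈ Finset.Icc 1 (⌊X⌋₊ * ⌊X⌋₊ ^ 3),
        (if ⌊X⌋₊ < n then ((b n : ℂ) * ((n : ℝ) ^ (-σ) : ℝ)) else 0) *
          (n : ℂ) ^ (-((t : ℂ) * Complex.I)) with hP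
  have hPs : ∀ t : ℝ, (∑ n ∈ Finset.Icc 1 (⌊X⌋₊ ^ 3),
      (n : ℂ) ^ (-((σ : ℂ) + (t : ℂ) * Complex.I))) *
        moll X ((σ : ℂ) + (t : ℂ) * Complex.I) - 1 = P t := by
    intro t
    unfold moll
    rw [hbs, hP]
    simp only
    have hsub : Finset.Ioc ⌊X⌋₊ (⌊X⌋₊ * ⌊X⌋₊ ^ 3) ⊆ Finset.Icc 1 (⌊X⌋₊ * ⌊X⌋₊ ^ 3) := by
      intro n hn
      rw [Finset.mem_Ioc] at hn
      rw [Finset.mem_Icc]
      omega
    rw [← Finset.sum_subset hsub]
    · refine Finset.sum_congr rfl fun n hn => ?_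
      rw [Finset.mem_Ioc] at hn
      have hn0 : (n : ℂ) ≠ 0 := by exact_mod_cast (by omega : n ≠ 0)
      rw [if_pos hn.1, neg_add, Complex.cpow_add _ _ hn0, Complex.ofReal_cpow (Nat.cast_nonneg n)]
      push_cast
      ring
    · intro n hn hn'
      rw [Finset.mem_Icc] at hn
      rw [Finset.mem_Ioc] at hn'
      rw [if_neg (by omega), zero_mul]
  have hPc : Continuous P := by
    rw [hP]
    refine continuous_finsetSum _ fun n hn => ?_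
    rw [Finset.mem_Icc] at hn
    exact continuous_const.mul (msq_cont_cpow n hn.1 _ (by fun_prop))
  -- pointwise bound
  have hpt : ∀ t ∈ Set.Icc (X / 2) (3 * X), ‖FF X ((σ : ℂ) + (t : ℂ) * Complex.I)‖ ^ 2 ≤
      2 * C1 ^ 2 * X⁻¹ + 2 * ‖P t‖ ^ 2 := by
    intro t ht
    have h1 := msq_tail κ hκ hκ' X hX σ t hσ hσ3 ht.1 ht.2
    have h2 := msq_moll κ hκ X hX σ t hσ
    set s : ℂ := (σ : ℂ) + (t : ℂ) * Complex.I with hs
    set Z : ℂ := ∑ n ∈ Finset.Icc 1 (⌊X⌋₊ ^ 3), (n : ℂ) ^ (-s) with hZ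
    have h3 : FF X s = (riemannZeta s - Z) * moll X s + P t := by
      rw [← hPs t]
      unfold FF
      ring
    have h4 : ‖(riemannZeta s - Z) * moll X s‖ ≤ C1 * X ^ (-(1 / 2) : ℝ) := by
      rw [norm_mul]
      calc ‖riemannZeta s - Z‖ * ‖moll X s‖
          ≤ (106 * X ^ (-1 + 6 * κ)) * ((1 + 1 / (2 * κ)) * X ^ (4 * κ)) :=
            mul_le_mul h1 h2 (norm_nonneg _) (by positivity)
        _ = C1 * X ^ (-1 + 10 * κ) := by
            have h5 : X ^ (-1 + 10 * κ) = X ^ (-1 + 6 * κ) * X ^ (4 * κ) := by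
              rw [← Real.rpow_add hX0]
              congr 1
              ring
            rw [h5, hC1]
            ring
        _ ≤ C1 * X ^ (-(1 / 2) : ℝ) := by
            apply mul_le_mul_of_nonneg_left _ hC1p.le
            exact Real.rpow_le_rpow_of_exponent_le hX1 (by linarith)
    have h6 : ‖FF X s‖ ≤ C1 * X ^ (-(1 / 2) : ℝ) + ‖P t‖ := by
      rw [h3]
      exact (norm_add_le _ _).trans (add_le_add_left h4 _)
    have h7 : (C1 * X ^ (-(1 / 2) : ℝ)) ^ 2 = C1 ^ 2 * X⁻¹ := by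
      rw [mul_pow, ← Real.rpow_natCast, ← Real.rpow_natCast, ← Real.rpow_mul hX0.le,
        ← Real.rpow_neg_one]
      norm_num
    have h8 : ‖FF X s‖ ^ 2 ≤ (C1 * X ^ (-(1 / 2) : ℝ) + ‖P t‖) ^ 2 :=
      pow_le_pow_left₀ (norm_nonneg _) h6 2
    have h9 := add_sq_le (a := C1 * X ^ (-(1 / 2) : ℝ)) (b := ‖P t‖)
    rw [h7] at h9
    linarith
  have hcont : ContinuousOn (fun t : ℝ => ‖FF X ((σ : ℂ) + (t : ℂ) * Complex.I)‖ ^ 2)
      (Set.uIcc (X / 2) (3 * X)) := by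
    refine (ContinuousOn.norm ?_).pow 2
    rw [Set.uIcc_of_le (by linarith)]
    unfold FF
    refine ContinuousOn.sub (ContinuousOn.mul ?_ ?_) continuousOn_const
    · intro t ht
      have hne : (σ : ℂ) + (t : ℂ) * Complex.I ≠ 1 := by
        intro h
        have := congrArg Complex.im h
        rw [msq_im] at this
        simp at this
        have := ht.1
        linarith
      have h1 : ContinuousAt riemannZeta ((σ : ℂ) + (t : ℂ) * Complex.I) :=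
        (differentiableAt_riemannZeta hne).continuousAt
      have h2 : ContinuousAt (fun t : ℝ => (σ : ℂ) + (t : ℂ) * Complex.I) t := by fun_prop
      exact (ContinuousAt.comp (f := fun t : ℝ => (σ : ℂ) + (t : ℂ) * Complex.I) h1
        h2).continuousWithinAt
    · apply Continuous.continuousOn
      unfold moll
      refine continuous_finsetSum _ fun n hn => ?_
      rw [Finset.mem_Icc] at hn
      exact continuous_const.mul (msq_cont_cpow n hn.1 _ (by fun_prop))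
  have hint : ∫ t in (X / 2)..(3 * X), ‖FF X ((σ : ℂ) + (t : ℂ) * Complex.I)‖ ^ 2 ≤
      ∫ t in (X / 2)..(3 * X), (2 * C1 ^ 2 * X⁻¹ + 2 * ‖P t‖ ^ 2) := by
    refine intervalIntegral.integral_mono_on (by linarith) hcont.intervalIntegrable ?_ hpt
    exact (continuous_const.add (continuous_const.mul (hPc.norm.pow 2))).intervalIntegrable _ _
  refine hint.trans ?_
  have hsplit : ∫ t in (X / 2)..(3 * X), (2 * C1 ^ 2 * X⁻¹ + 2 * ‖P t‖ ^ 2) =
      (3 * X - X / 2) * (2 * C1 ^ 2 * X⁻¹) + 2 * ∫ t in (X / 2)..(3 * X), ‖P t‖ ^ 2 := by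
    have hc : Continuous fun t : ℝ => 2 * ‖P t‖ ^ 2 := by fun_prop
    have e := intervalIntegral.integral_add (μ := volume) (a := X / 2) (b := 3 * X)
      (f := fun _ : ℝ => 2 * C1 ^ 2 * X⁻¹) (g := fun t : ℝ => 2 * ‖P t‖ ^ 2)
      (continuous_const.intervalIntegrable _ _) (hc.intervalIntegrable _ _)
    rw [e, intervalIntegral.integral_const, intervalIntegral.integral_const_mul, smul_eq_mul]
  rw [hsplit]
  have h1 := msq_poly κ hκ C0 hC0 hτ X hX σ hσ b hb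
  have h2 : (3 * X - X / 2) * (2 * C1 ^ 2 * X⁻¹) = 5 * C1 ^ 2 := by
    field_simp
    ring
  rw [h2]
  have h3 : (1 : ℝ) ≤ X ^ (30 * κ) := Real.one_le_rpow hX1 (by positivity)
  have h4 : X ^ (22 * κ) ≤ X ^ (30 * κ) := Real.rpow_le_rpow_of_exponent_le hX1 (by linarith)
  have h5 : C2 * X ^ (22 * κ) ≤ C2 * X ^ (30 * κ) := mul_le_mul_of_nonneg_left h4 hC2p.le
  have h6 : 5 * C1 ^ 2 ≤ 5 * C1 ^ 2 * X ^ (30 * κ) := le_mul_of_one_le_right (by positivity) h3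
  have h7 : ∫ t in (X / 2)..(3 * X), ‖P t‖ ^ 2 ≤ C2 * X ^ (22 * κ) := h1
  linarith

end Pool.Agent.ZUni
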