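import Pool.Agent.ZUni.AreaM
import Pool.Agent.ZUni.MeanSq

/-!
# MODULE EXC. The exceptional set
-/

set_option autoImplicit false

open MeasureTheory Filter

namespace Pool.Agent.ZUni

private lemma ff_diff (X : ℝ) {s : ℂ} (hs : s ≠ 1) : DifferentiableAt ℂ (FF X) s := by
  have h1 : DifferentiableAt ℂ (moll X) s := by
    unfold moll
    refine DifferentiableAt.fun_sum fun m hm => ?_
    have hm0 : (m : ℂ) ≠ 0 := by
      have := (Finset.mem_Icc.1 hm).1
      exact_mod_cast (by omega : m ≠ 0)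
    exact ((differentiableAt_id.neg).const_cpow (Or.inl hm0)).const_mul _
  exact ((differentiableAt_riemannZeta hs).mul h1).sub_const 1

/-- The square of `‖FF X‖`, with the imaginary part replaced by its maximum with `1`. -/
private noncomputable def vv (X x y : ℝ) : ℝ :=
  ‖FF X ((x : ℂ) + ((max y 1 : ℝ) : ℂ) * Complex.I)‖ ^ 2

private lemma vv_nonneg (X x y : ℝ) : 0 ≤ vv X x y := by
  unfold vv
  positivity

private lemma vv_eq (X x : ℝ) {y : ℝ} (hy : 1 ≤ y) :
    vv X x y = ‖FF X ((x : ℂ) + (y : ℂ) * Complex.I)‖ ^ 2 := by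
  unfold vv
  rw [max_eq_left hy]

private lemma vv_cont (X : ℝ) : Continuous (fun p : ℝ × ℝ => vv X p.1 p.2) := by
  unfold vv
  apply Continuous.pow
  apply Continuous.norm
  rw [continuous_iff_continuousAt]
  intro p
  have h1 : ((p.1 : ℂ) + ((max p.2 1 : ℝ) : ℂ) * Complex.I) ≠ 1 := by
    intro h
    have h2 := congrArg Complex.im h
    simp only [Complex.add_im, Complex.ofReal_im, Complex.mul_im, Complex.ofReal_re,
      Complex.I_im, mul_one, Complex.I_re, mul_zero, add_zero, zero_add, Complex.one_im] at h2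
    have h3 : (1 : ℝ) ≤ max p.2 1 := le_max_right _ _
    linarith
  have h2 : ContinuousAt (fun p : ℝ × ℝ => (p.1 : ℂ) + ((max p.2 1 : ℝ) : ℂ) * Complex.I) p := by
    apply Continuous.continuousAt
    apply Continuous.add
    · exact Complex.continuous_ofReal.comp continuous_fst
    · apply Continuous.mul _ continuous_const
      exact Complex.continuous_ofReal.comp (continuous_snd.max continuous_const)
  exact ContinuousAt.comp_of_eq (ff_diff X h1).continuousAt h2 rfl

attribute [local irreducible] vv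

/-- The integral over the box. -/
private noncomputable def GG (κ X L T : ℝ) : ℝ :=
  ∫ x in (1 - 2 * κ)..3, ∫ w in (-(2 * L))..(2 * L), vv X x (T + w)

private lemma inner_cont (X a b : ℝ) :
    Continuous (fun p : ℝ × ℝ => ∫ w in a..b, vv X p.2 (p.1 + w)) := by
  have h1 : Continuous (fun q : (ℝ × ℝ) × ℝ => vv X q.1.2 (q.1.1 + q.2)) := by
    have h2 : Continuous (fun q : (ℝ × ℝ) × ℝ => (q.1.2, q.1.1 + q.2)) := by fun_prop
    exact (vv_cont X).comp h2
  exact intervalIntegral.continuous_parametric_intervalIntegral_of_continuous'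
    (f := fun (p : ℝ × ℝ) (w : ℝ) => vv X p.2 (p.1 + w)) h1 a b

private lemma gg_cont (κ X L : ℝ) : Continuous (GG κ X L) := by
  have h1 := inner_cont X (-(2 * L)) (2 * L)
  exact intervalIntegral.continuous_parametric_intervalIntegral_of_continuous'
    (f := fun (T x : ℝ) => ∫ w in (-(2 * L))..(2 * L), vv X x (T + w)) h1 (1 - 2 * κ) 3

private lemma gg_nonneg {κ X L T : ℝ} (hκ : 0 ≤ κ) (hL : 0 ≤ L) : 0 ≤ GG κ X L T := by
  unfold GG
  apply intervalIntegral.integral_nonneg (by linarith)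
  intro x _
  apply intervalIntegral.integral_nonneg (by linarith)
  intro w _
  exact vv_nonneg _ _ _

private lemma swap_cont {F : ℝ → ℝ → ℝ} (hF : Continuous (Function.uncurry F)) (a b c d : ℝ) :
    ∫ x in a..b, ∫ y in c..d, F x y = ∫ y in c..d, ∫ x in a..b, F x y := by
  apply intervalIntegral_intervalIntegral_swap
  have h1 : IntegrableOn (Function.uncurry F) (Set.uIcc a b ×ˢ Set.uIcc c d) :=
    hF.continuousOn.integrableOn_compact (isCompact_uIcc.prod isCompact_uIcc)
  exact h1.mono_set (Set.prod_mono Set.uIoc_subset_uIcc Set.uIoc_subset_uIcc)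

/-- The integral of `GG`. -/
private lemma gg_int {κ X L D : ℝ} (hκ0 : 0 ≤ κ) (hX : 2 ≤ X) (hL : 0 ≤ L)
    (hLX : 4 * L ≤ X)
    (hD : ∀ σ : ℝ, 1 - 2 * κ ≤ σ → σ ≤ 3 →
      ∫ t in (X / 2)..(3 * X), ‖FF X ((σ : ℂ) + (t : ℂ) * Complex.I)‖ ^ 2 ≤ D) :
    ∫ T in X..(2 * X), GG κ X L T ≤ (2 + 2 * κ) * (4 * L * D) := by
  have h1 := inner_cont X (-(2 * L)) (2 * L)
  have hswap1 : ∫ T in X..(2 * X), GG κ X L T =
      ∫ x in (1 - 2 * κ)..3, ∫ T in X..(2 * X), ∫ w in (-(2 * L))..(2 * L), vv X x (T + w) :=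
    swap_cont (F := fun T x => ∫ w in (-(2 * L))..(2 * L), vv X x (T + w)) h1 _ _ _ _
  rw [hswap1]
  have hx : ∀ x ∈ Set.Icc (1 - 2 * κ) 3,
      ∫ T in X..(2 * X), ∫ w in (-(2 * L))..(2 * L), vv X x (T + w) ≤ 4 * L * D := by
    intro x hx
    have hc : Continuous (fun q : ℝ × ℝ => vv X x (q.1 + q.2)) := by
      have h2 : Continuous (fun q : ℝ × ℝ => (x, q.1 + q.2)) := by fun_prop
      exact (vv_cont X).comp h2
    rw [swap_cont (F := fun T w => vv X x (T + w)) hc]
    have hcy : Continuous (fun y : ℝ => vv X x y) := by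
      have h2 : Continuous (fun y : ℝ => (x, y)) := by fun_prop
      exact (vv_cont X).comp h2
    have hw : ∀ w ∈ Set.Icc (-(2 * L)) (2 * L), ∫ T in X..(2 * X), vv X x (T + w) ≤ D := by
      intro w hw
      rw [intervalIntegral.integral_comp_add_right (fun y => vv X x y) w]
      refine le_trans ?_ (hD x hx.1 hx.2)
      have h3 : ∫ t in (X / 2)..(3 * X), ‖FF X ((x : ℂ) + (t : ℂ) * Complex.I)‖ ^ 2 =
          ∫ t in (X / 2)..(3 * X), vv X x t := by
        apply intervalIntegral.integral_congr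
        intro t ht
        rw [Set.uIcc_of_le (by linarith)] at ht
        exact (vv_eq X x (by linarith [ht.1])).symm
      rw [h3]
      apply intervalIntegral.integral_mono_interval
      · linarith [hw.1]
      · linarith
      · linarith [hw.2]
      · exact Filter.Eventually.of_forall fun t => vv_nonneg _ _ _
      · exact hcy.intervalIntegrable _ _
    have h4 : Continuous (fun w : ℝ => ∫ T in X..(2 * X), vv X x (T + w)) := by
      have h5 : Continuous (fun q : ℝ × ℝ => vv X x (q.2 + q.1)) := by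
        have h2 : Continuous (fun q : ℝ × ℝ => (x, q.2 + q.1)) := by fun_prop
        exact (vv_cont X).comp h2
      exact intervalIntegral.continuous_parametric_intervalIntegral_of_continuous'
        (f := fun (w T : ℝ) => vv X x (T + w)) h5 _ _
    calc ∫ w in (-(2 * L))..(2 * L), ∫ T in X..(2 * X), vv X x (T + w)
        ≤ ∫ w in (-(2 * L))..(2 * L), D := by
          apply intervalIntegral.integral_mono_on (by linarith) (h4.intervalIntegrable _ _)
            intervalIntegrable_const hw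
      _ = 4 * L * D := by
          rw [intervalIntegral.integral_const, smul_eq_mul]
          ring
  have h6 : Continuous (fun x : ℝ => ∫ T in X..(2 * X), ∫ w in (-(2 * L))..(2 * L),
      vv X x (T + w)) := by
    have h7 : Continuous (fun q : ℝ × ℝ => ∫ w in (-(2 * L))..(2 * L), vv X q.1 (q.2 + w)) := by
      have h8 : Continuous (fun q : ℝ × ℝ => (q.2, q.1)) := by fun_prop
      exact h1.comp h8
    exact intervalIntegral.continuous_parametric_intervalIntegral_of_continuous'
      (f := fun (x T : ℝ) => ∫ w in (-(2 * L))..(2 * L), vv X x (T + w)) h7 _ _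
  calc ∫ x in (1 - 2 * κ)..3, ∫ T in X..(2 * X), ∫ w in (-(2 * L))..(2 * L), vv X x (T + w)
      ≤ ∫ x in (1 - 2 * κ)..3, 4 * L * D := by
        apply intervalIntegral.integral_mono_on (by linarith) (h6.intervalIntegrable _ _)
          intervalIntegrable_const hx
    _ = (2 + 2 * κ) * (4 * L * D) := by
        rw [intervalIntegral.integral_const, smul_eq_mul]
        ring

/-- A zero in the box makes `GG` large. -/
private lemma gg_zero {κ X L T : ℝ} (hκ : 0 < κ) (hκ' : κ ≤ 1) (hX : 2 ≤ X) (hL : 1 ≤ L)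
    (hLX : 4 * L ≤ X) (hT : X ≤ T) {s : ℂ} (hs1 : 1 - κ ≤ s.re) (hs2 : s.re ≤ 1)
    (hs3 : |s.im - T| ≤ L) (hz : riemannZeta s = 0) : κ ^ 2 / 4 ≤ GG κ X L T := by
  have hs4 := abs_le.1 hs3
  have h1 : ‖FF X s‖ ^ 2 = 1 := by
    unfold FF
    rw [hz]
    simp
  have h2 := area_mean (f := FF X) (z := s) (r := κ) hκ (by
    intro w _ hw2
    apply ff_diff
    intro h
    rw [h] at hw2
    have h3 := abs_le.1 hw2
    rw [Complex.one_im] at h3
    linarith [h3.1, h3.2])
  rw [h1] at h2
  have hgg : GG κ X L T = ∫ x in (1 - 2 * κ)..3, ∫ y in (T - 2 * L)..(T + 2 * L), vv X x y := by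
    unfold GG
    apply intervalIntegral.integral_congr
    intro x _
    show ∫ w in (-(2 * L))..(2 * L), vv X x (T + w) = _
    rw [intervalIntegral.integral_comp_add_left (fun y => vv X x y) T]
    congr 1
  have hcy : ∀ x, Continuous (fun y : ℝ => vv X x y) := by
    intro x
    have h2 : Continuous (fun y : ℝ => (x, y)) := by fun_prop
    exact (vv_cont X).comp h2
  have hcx : ∀ a b : ℝ, Continuous (fun x : ℝ => ∫ y in a..b, vv X x y) := by
    intro a b
    exact intervalIntegral.continuous_parametric_intervalIntegral_of_continuous'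
      (f := fun (x y : ℝ) => vv X x y) (vv_cont X) _ _
  have h3 : ∫ x in (s.re - κ)..(s.re + κ), ∫ y in (s.im - κ)..(s.im + κ),
      ‖FF X ((x : ℂ) + (y : ℂ) * Complex.I)‖ ^ 2 ≤ GG κ X L T := by
    rw [hgg]
    calc ∫ x in (s.re - κ)..(s.re + κ), ∫ y in (s.im - κ)..(s.im + κ),
          ‖FF X ((x : ℂ) + (y : ℂ) * Complex.I)‖ ^ 2
        = ∫ x in (s.re - κ)..(s.re + κ), ∫ y in (s.im - κ)..(s.im + κ), vv X x y := by
          apply intervalIntegral.integral_congr
          intro x _
          apply intervalIntegral.integral_congr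
          intro y hy
          rw [Set.uIcc_of_le (by linarith)] at hy
          exact (vv_eq X x (by linarith [hy.1])).symm
      _ ≤ ∫ x in (s.re - κ)..(s.re + κ), ∫ y in (T - 2 * L)..(T + 2 * L), vv X x y := by
          apply intervalIntegral.integral_mono_on (by linarith)
            ((hcx _ _).intervalIntegrable _ _) ((hcx _ _).intervalIntegrable _ _)
          intro x _
          apply intervalIntegral.integral_mono_interval
          · linarith
          · linarith
          · linarith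
          · exact Filter.Eventually.of_forall fun t => vv_nonneg _ _ _
          · exact (hcy x).intervalIntegrable _ _
      _ ≤ ∫ x in (1 - 2 * κ)..3, ∫ y in (T - 2 * L)..(T + 2 * L), vv X x y := by
          apply intervalIntegral.integral_mono_interval
          · linarith
          · linarith
          · linarith
          · refine Filter.Eventually.of_forall fun x => ?_
            apply intervalIntegral.integral_nonneg (by linarith)
            intro y _
            exact vv_nonneg _ _ _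
          · exact (hcx _ _).intervalIntegrable _ _
  have h4 : (1 : ℝ) ≤ 4 / κ ^ 2 * GG κ X L T := by
    refine h2.trans ?_
    exact mul_le_mul_of_nonneg_left h3 (by positivity)
  rw [div_le_iff₀ (by norm_num)]
  have h5 : 4 / κ ^ 2 * GG κ X L T = 4 * GG κ X L T / κ ^ 2 := by ring
  rw [h5, le_div_iff₀ (by positivity)] at h4
  linarith

/-- PROOF. `L = X^κ`, `G T = ∫_{x=1-2κ}^{3} ∫_{y=T-2L}^{T+2L} ‖FF X (x+iy)‖²`, `E = {T ∈ [X,2X] : G T ≥ κ²/4}`. -/
theorem exceptional (κ : ℝ) (hκ : 0 < κ) (hκ' : κ ≤ 1 / 40) : ∃ X₀ : ℝ, ∀ X : ℝ, X₀ ≤ X →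
    ∃ E : Set ℝ, MeasurableSet E ∧ E ⊆ Set.Icc X (2 * X) ∧
      volume E ≤ ENNReal.ofReal (X ^ (32 * κ)) ∧
      ∀ T ∈ Set.Icc X (2 * X), T ∉ E → ∀ s : ℂ, 1 - κ ≤ s.re → |s.im - T| ≤ X ^ κ →
        riemannZeta s ≠ 0 := by
  obtain ⟨C, hC, hms⟩ := mean_square κ hκ hκ'
  have hev1 : ∀ᶠ X : ℝ in atTop, 48 * C / κ ^ 2 ≤ X ^ κ :=
    (tendsto_rpow_atTop hκ).eventually_ge_atTop _
  have hev2 : ∀ᶠ X : ℝ in atTop, 4 ≤ X ^ (1 - κ) :=
    (tendsto_rpow_atTop (by linarith : 0 < 1 - κ)).eventually_ge_atTop _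
  obtain ⟨X₀, hX₀⟩ := (hev1.and (hev2.and (eventually_ge_atTop (4 : ℝ)))).exists_forall_of_atTop
  refine ⟨X₀, fun X hX => ?_⟩
  obtain ⟨hX1, hX2, hX4⟩ := hX₀ X hX
  have hX0 : 0 < X := by linarith
  set L : ℝ := X ^ κ with hL
  have hL1 : 1 ≤ L := Real.one_le_rpow (by linarith) hκ.le
  have hLX : 4 * L ≤ X := by
    have h1 : X = X ^ (1 - κ) * X ^ κ := by
      rw [← Real.rpow_add hX0]
      simp
    calc 4 * L ≤ X ^ (1 - κ) * X ^ κ := mul_le_mul_of_nonneg_right hX2 (by positivity)
      _ = X := h1.symm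
  refine ⟨Set.Icc X (2 * X) ∩ {T | κ ^ 2 / 4 ≤ GG κ X L T}, ?_, Set.inter_subset_left, ?_, ?_⟩
  · exact measurableSet_Icc.inter (measurableSet_le measurable_const (gg_cont κ X L).measurable)
  · -- Markov
    have h1 := gg_int (κ := κ) (X := X) (L := L) (D := C * X ^ (30 * κ)) hκ.le (by linarith)
      (by linarith) hLX (hms X hX4)
    have h2 : Integrable (GG κ X L) (volume.restrict (Set.Icc X (2 * X))) :=
      (gg_cont κ X L).continuousOn.integrableOn_compact isCompact_Icc
    have h3 := mul_meas_ge_le_integral_of_nonneg (μ := volume.restrict (Set.Icc X (2 * X)))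
      (f := GG κ X L) (Filter.Eventually.of_forall fun T => gg_nonneg hκ.le (by linarith)) h2
      (κ ^ 2 / 4)
    have h4 : ∫ T, GG κ X L T ∂(volume.restrict (Set.Icc X (2 * X))) =
        ∫ T in X..(2 * X), GG κ X L T := by
      rw [intervalIntegral.integral_of_le (by linarith), integral_Icc_eq_integral_Ioc]
    rw [h4] at h3
    have h5 : (volume.restrict (Set.Icc X (2 * X))).real {T | κ ^ 2 / 4 ≤ GG κ X L T} =
        volume.real (Set.Icc X (2 * X) ∩ {T | κ ^ 2 / 4 ≤ GG κ X L T}) := by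
      rw [measureReal_restrict_apply (measurableSet_le measurable_const
        (gg_cont κ X L).measurable), Set.inter_comm]
    rw [h5] at h3
    have hfin : volume (Set.Icc X (2 * X) ∩ {T | κ ^ 2 / 4 ≤ GG κ X L T}) ≠ ⊤ :=
      ((measure_mono Set.inter_subset_left).trans_lt (by
        rw [Real.volume_Icc]
        exact ENNReal.ofReal_lt_top)).ne
    rw [← ENNReal.ofReal_toReal hfin]
    apply ENNReal.ofReal_le_ofReal
    show volume.real _ ≤ _
    have h6 : κ ^ 2 / 4 * volume.real (Set.Icc X (2 * X) ∩ {T | κ ^ 2 / 4 ≤ GG κ X L T}) ≤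
        (2 + 2 * κ) * (4 * L * (C * X ^ (30 * κ))) := h3.trans h1
    have h7 : (2 + 2 * κ) * (4 * L * (C * X ^ (30 * κ))) ≤ 12 * C * (L * X ^ (30 * κ)) := by
      have h8 : 0 ≤ C * (L * X ^ (30 * κ)) := by positivity
      nlinarith
    have h8 : X ^ (32 * κ) = L * (L * X ^ (30 * κ)) := by
      rw [hL, ← Real.rpow_add hX0, ← Real.rpow_add hX0]
      congr 1
      ring
    rw [h8]
    have h9 : 48 * C ≤ κ ^ 2 * L := by
      rw [div_le_iff₀ (by positivity)] at hX1
      linarith
    have h10 : 0 ≤ L * X ^ (30 * κ) := by positivity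
    have h11 : κ ^ 2 / 4 * volume.real (Set.Icc X (2 * X) ∩ {T | κ ^ 2 / 4 ≤ GG κ X L T}) ≤
        κ ^ 2 / 4 * (L * (L * X ^ (30 * κ))) := by
      calc _ ≤ 12 * C * (L * X ^ (30 * κ)) := h6.trans h7
        _ ≤ (κ ^ 2 * L / 4) * (L * X ^ (30 * κ)) := by
            apply mul_le_mul_of_nonneg_right _ h10
            linarith
        _ = _ := by ring
    exact le_of_mul_le_mul_left h11 (by positivity)
  · intro T hT hTE s hs1 hs2 hz
    rcases le_or_gt 1 s.re with h | h
    · exact riemannZeta_ne_zero_of_one_le_re h hz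
    · exact hTE ⟨hT, gg_zero hκ (by linarith) (by linarith) hL1 hLX hT.1 hs1 h.le hs2 hz⟩

end Pool.Agent.ZUni
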