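import Pool.Agent.ZUni.Defs
import Pool.Agent.SWz.ZetaGrow

/-!
# MODULE LONG. Long intervals
-/

set_option autoImplicit false

open MeasureTheory

namespace Pool.Agent.ZUni

private theorem LI_tail (s : ℂ) (hs : 2 ≤ s.re) : ‖riemannZeta s - 1‖ ≤ 645 / 1000 := by
  have hz : riemannZeta s = ∑' n : ℕ, 1 / ((n : ℂ) + 1) ^ s :=
    zeta_eq_tsum_one_div_nat_add_one_cpow (by linarith)
  have hnorm : ∀ n : ℕ, ‖1 / ((n : ℂ) + 1) ^ s‖ = 1 / ((n : ℝ) + 1) ^ s.re := by
    intro n
    rw [norm_div, norm_one]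
    have h1 : ((n : ℂ) + 1) = (((n : ℝ) + 1 : ℝ) : ℂ) := by push_cast; rfl
    rw [h1, Complex.norm_cpow_eq_rpow_re_of_pos (by positivity)]
  have h2 : ∀ n : ℕ, 1 / ((n : ℝ) + 1) ^ s.re ≤ 1 / ((n : ℝ) + 1) ^ (2 : ℕ) := by
    intro n
    have h1 : (1 : ℝ) ≤ (n : ℝ) + 1 := by
      have := Nat.cast_nonneg (α := ℝ) n
      linarith
    apply one_div_le_one_div_of_le (by positivity)
    rw [← Real.rpow_natCast]
    apply Real.rpow_le_rpow_of_exponent_le h1
    simpa using hs
  have hs2 : HasSum (fun n : ℕ => 1 / ((n : ℝ)) ^ (2 : ℕ)) (Real.pi ^ 2 / 6) := hasSum_zeta_two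
  have hs3 : HasSum (fun n : ℕ => 1 / ((n : ℝ) + 1) ^ (2 : ℕ)) (Real.pi ^ 2 / 6) := by
    have := (hasSum_nat_add_iff' (f := fun n : ℕ => 1 / ((n : ℝ)) ^ (2 : ℕ)) 1).mpr hs2
    simpa using this
  have hs4 : HasSum (fun n : ℕ => 1 / ((n : ℝ) + 1 + 1) ^ (2 : ℕ)) (Real.pi ^ 2 / 6 - 1) := by
    have := (hasSum_nat_add_iff' (f := fun n : ℕ => 1 / ((n : ℝ) + 1) ^ (2 : ℕ)) 1).mpr hs3
    simpa using this
  have hsum : Summable fun n : ℕ => 1 / ((n : ℂ) + 1) ^ s := by
    apply Summable.of_norm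
    refine Summable.of_nonneg_of_le (fun n => norm_nonneg _) (fun n => ?_) hs3.summable
    rw [hnorm]
    exact h2 n
  have hz2 : riemannZeta s - 1 = ∑' n : ℕ, 1 / (((n + 1 : ℕ) : ℂ) + 1) ^ s := by
    rw [hz, hsum.tsum_eq_zero_add]
    simp
  rw [hz2]
  have hb : ∀ n : ℕ, ‖1 / (((n + 1 : ℕ) : ℂ) + 1) ^ s‖ ≤ 1 / ((n : ℝ) + 1 + 1) ^ (2 : ℕ) := by
    intro n
    rw [hnorm]
    have := h2 (n + 1)
    push_cast at this ⊢
    exact this
  refine (tsum_of_norm_bounded hs4 hb).trans ?_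
  have h3 := Real.pi_lt_d4
  have h4 := Real.pi_pos
  nlinarith

private theorem LI_low (s : ℂ) (hs : 2 ≤ s.re) : 355 / 1000 ≤ ‖riemannZeta s‖ := by
  have h1 := LI_tail s hs
  have h2 : ‖(1 : ℂ)‖ ≤ ‖riemannZeta s‖ + ‖riemannZeta s - 1‖ := by
    have : (1 : ℂ) = riemannZeta s - (riemannZeta s - 1) := by ring
    calc ‖(1 : ℂ)‖ = ‖riemannZeta s - (riemannZeta s - 1)‖ := by rw [← this]
      _ ≤ _ := norm_sub_le _ _
  rw [norm_one] at h2
  linarith

private theorem LI_cont (σ T H : ℝ) (hT : 0 < T) (hH : 0 ≤ H) :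
    ContinuousOn (fun t : ℝ => riemannZeta ((σ : ℂ) + (t : ℂ) * Complex.I)) (Set.uIcc T (T + H)) := by
  intro t ht
  rw [Set.uIcc_of_le (by linarith)] at ht
  have h1 : ((σ : ℂ) + (t : ℂ) * Complex.I) ≠ 1 := by
    intro h
    have h2 := congrArg Complex.im h
    simp at h2
    linarith [ht.1]
  apply ContinuousAt.continuousWithinAt
  have h3 : ContinuousAt riemannZeta ((σ : ℂ) + (t : ℂ) * Complex.I) :=
    (differentiableAt_riemannZeta h1).continuousAt
  exact ContinuousAt.comp (f := fun t : ℝ => ((σ : ℂ) + (t : ℂ) * Complex.I)) h3 (by fun_prop)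

private theorem LI_int (T H : ℝ) (hT : 0 < T) (hH : 0 ≤ H) :
    355 / 1000 * H ≤ ‖∫ t in T..(T + H), riemannZeta ((2 : ℂ) + (t : ℂ) * Complex.I)‖ := by
  have hc := LI_cont 2 T H hT hH
  have hi : IntervalIntegrable (fun t : ℝ => riemannZeta (((2 : ℝ) : ℂ) + (t : ℂ) * Complex.I))
    volume T (T + H) := hc.intervalIntegrable
  have e2 : ((2 : ℝ) : ℂ) = 2 := by norm_num
  rw [e2] at hi
  have h1 : ∫ t in T..(T + H), (riemannZeta ((2 : ℂ) + (t : ℂ) * Complex.I) - 1) =
      (∫ t in T..(T + H), riemannZeta ((2 : ℂ) + (t : ℂ) * Complex.I)) - (H : ℂ) := by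
    rw [intervalIntegral.integral_sub hi (by simp)]
    simp
  have h2 : ‖∫ t in T..(T + H), (riemannZeta ((2 : ℂ) + (t : ℂ) * Complex.I) - 1)‖ ≤
      645 / 1000 * |T + H - T| := by
    apply intervalIntegral.norm_integral_le_of_norm_le_const
    intro t _
    apply LI_tail
    simp
  rw [h1, add_sub_cancel_left, abs_of_nonneg hH] at h2
  have h3 : ‖(H : ℂ)‖ ≤ ‖∫ t in T..(T + H), riemannZeta ((2 : ℂ) + (t : ℂ) * Complex.I)‖ +
      ‖(∫ t in T..(T + H), riemannZeta ((2 : ℂ) + (t : ℂ) * Complex.I)) - (H : ℂ)‖ := by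
    have : (H : ℂ) = (∫ t in T..(T + H), riemannZeta ((2 : ℂ) + (t : ℂ) * Complex.I)) -
      ((∫ t in T..(T + H), riemannZeta ((2 : ℂ) + (t : ℂ) * Complex.I)) - (H : ℂ)) := by ring
    calc ‖(H : ℂ)‖ = ‖(∫ t in T..(T + H), riemannZeta ((2 : ℂ) + (t : ℂ) * Complex.I)) -
      ((∫ t in T..(T + H), riemannZeta ((2 : ℂ) + (t : ℂ) * Complex.I)) - (H : ℂ))‖ := by
            rw [← this]
      _ ≤ _ := norm_sub_le _ _
  rw [Complex.norm_real, Real.norm_of_nonneg hH] at h3
  linarith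

/-- PROOF. `‖ζ(s) - 1‖ ≤ ∑_{n ≥ 2} n^(-2) = π²/6 - 1 < 0.645` for `Re s ≥ 2` (`zeta_eq_tsum_one_div_nat_cpow`,
`hasSum_zeta_two`). This gives `‖ζ(σ+it)‖ ≥ 0.355` for `σ ≥ 2`, and
`‖∫_T^(T+H) ζ(2+it) dt‖ ≥ 0.355 H`. For `1 - K/log log T ≤ σ ≤ 2`: Cauchy's theorem on the rectangle
`[σ, 2] × [T, T+H]` (`Complex.integral_boundary_rect_eq_zero_of_differentiableOn`), so `IZ σ T H ≥ ‖∫ ζ(σ+it)‖ ≥
0.355 H - ∫_σ^2 ‖ζ(x+iT)‖ dx - ∫_σ^2 ‖ζ(x+i(T+H))‖ dx`. By `Pool.Agent.SWz.zgrow` (Pool/Agent/SWz/ZetaGrow.lean) with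
`ε' = min (δ/8) (1/8)` (and `K/log log T ≤ ε'`, `T` large) the two integrals are at most
`C (T+2)^(2ε') + C (T+H+2)^(2ε')`; since `T ≤ H^(1/δ)`, this is `≤ C' H^(1/4) ≤ H/10` for large `T`. -/
theorem long_interval (δ K : ℝ) (hδ : 0 < δ) (hK : 0 < K) : ∃ T₀ : ℝ, ∀ T : ℝ, T₀ ≤ T →
    ∀ H : ℝ, T ^ δ ≤ H → ∀ σ : ℝ, 1 - K / Real.log (Real.log T) ≤ σ → H / 4 ≤ IZ σ T H := by
  set ε : ℝ := min (δ / 8) (1 / 8) with hε
  have hε0 : 0 < ε := lt_min (by positivity) (by norm_num)
  have hε1 : ε ≤ 1 / 8 := min_le_right _ _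
  have hε2 : ε ≤ δ / 8 := min_le_left _ _
  obtain ⟨C, hC⟩ := Pool.Agent.SWz.zgrow ε hε0 (by linarith)
  refine ⟨max (Real.exp (Real.exp (K / ε))) (((320 * |C|) ^ 2 + 1) ^ (1 / δ)), ?_⟩
  intro T hT H hTH σ hσ
  have hT1 : Real.exp (Real.exp (K / ε)) ≤ T := (le_max_left _ _).trans hT
  have hT2 : ((320 * |C|) ^ 2 + 1) ^ (1 / δ) ≤ T := (le_max_right _ _).trans hT
  have hTone : 1 ≤ T := by
    have : (1 : ℝ) ≤ Real.exp (Real.exp (K / ε)) := Real.one_le_exp (Real.exp_pos _).le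
    linarith
  have hT0 : 0 < T := by linarith
  have hll : K / ε ≤ Real.log (Real.log T) := by
    have h1 : Real.exp (K / ε) ≤ Real.log T := by
      rw [Real.le_log_iff_exp_le hT0]
      exact hT1
    rw [Real.le_log_iff_exp_le (lt_of_lt_of_le (Real.exp_pos _) h1)]
    exact h1
  have hKε : 0 < K / ε := by positivity
  have hσ1 : 1 - ε ≤ σ := by
    have h1 : K / Real.log (Real.log T) ≤ ε := by
      rw [div_le_iff₀ (by linarith)]
      rw [div_le_iff₀ hε0] at hll
      linarith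
    linarith
  have hB0 : (0 : ℝ) ≤ (320 * |C|) ^ 2 := by positivity
  have hTδ : (320 * |C|) ^ 2 + 1 ≤ T ^ δ := by
    have h1 := Real.rpow_le_rpow (by positivity) hT2 hδ.le
    rw [← Real.rpow_mul (by positivity), one_div, inv_mul_cancel₀ hδ.ne', Real.rpow_one] at h1
    exact h1
  have hH1 : 1 ≤ H := by linarith
  have hH0 : 0 < H := by linarith
  have hHB : (320 * |C|) ^ 2 ≤ H := by linarith
  rcases le_or_gt 2 σ with h2 | h2
  · -- the far region
    have hc := LI_cont σ T H hT0 hH0.le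
    have hi : IntervalIntegrable (fun t : ℝ => ‖riemannZeta ((σ : ℂ) + (t : ℂ) * Complex.I)‖)
      volume T (T + H) := hc.norm.intervalIntegrable
    have h3 : ∫ t in T..(T + H), (355 / 1000 : ℝ) ≤ IZ σ T H := by
      unfold IZ
      apply intervalIntegral.integral_mono_on (by linarith) (by simp) hi
      intro t _
      apply LI_low
      simpa using h2
    rw [intervalIntegral.integral_const, smul_eq_mul] at h3
    linarith
  · -- Cauchy
    have hrect := Complex.integral_boundary_rect_eq_zero_of_differentiableOn riemannZeta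
      (⟨σ, T⟩ : ℂ) (⟨2, T + H⟩ : ℂ) (by
        intro s hs
        have h3 : s.im ∈ Set.uIcc T (T + H) := hs.2
        rw [Set.uIcc_of_le (by linarith)] at h3
        apply DifferentiableAt.differentiableWithinAt
        apply differentiableAt_riemannZeta
        intro h
        rw [h] at h3
        simp at h3
        linarith [h3.1])
    simp only [] at hrect
    -- bound on the horizontal sides
    have hrow : ∀ y : ℝ, 1 ≤ y → y ≤ T + H →
        ‖∫ x in σ..(2 : ℝ), riemannZeta ((x : ℂ) + (y : ℂ) * Complex.I)‖ ≤ 16 * |C| * H ^ (1 / 4 : ℝ) := by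
      intro y hy1 hy2
      have hy0 : 0 < y := by linarith
      have hpow : (y + 2) ^ (2 * ε) ≤ 4 * H ^ (1 / 4 : ℝ) := by
        set M : ℝ := max 1 (1 / δ) with hM
        have hM1 : 1 ≤ M := le_max_left _ _
        have hMδ : 1 / δ ≤ M := le_max_right _ _
        have hTM : T ≤ H ^ M := by
          have h3 : T ≤ H ^ (1 / δ) := by
            have h4 := Real.rpow_le_rpow (by positivity) hTH (by positivity : (0 : ℝ) ≤ 1 / δ)
            rw [← Real.rpow_mul hT0.le, mul_one_div_cancel hδ.ne', Real.rpow_one] at h4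
            exact h4
          exact h3.trans (Real.rpow_le_rpow_of_exponent_le hH1 hMδ)
        have hHM : H ≤ H ^ M := by
          calc H = H ^ (1 : ℝ) := (Real.rpow_one H).symm
            _ ≤ _ := Real.rpow_le_rpow_of_exponent_le hH1 hM1
        have hy3 : y + 2 ≤ 4 * H ^ M := by linarith
        have hexp : M * (2 * ε) ≤ 1 / 4 := by
          rcases max_choice 1 (1 / δ) with h3 | h3
          · rw [hM, h3]
            linarith
          · rw [hM, h3]
            have h4 : 1 / δ * (2 * ε) ≤ 1 / δ * (2 * (δ / 8)) := by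
              apply mul_le_mul_of_nonneg_left (by linarith) (by positivity)
            have h5 : 1 / δ * (2 * (δ / 8)) = 1 / 4 := by
              field_simp
              norm_num
            linarith
        calc (y + 2) ^ (2 * ε) ≤ (4 * H ^ M) ^ (2 * ε) :=
              Real.rpow_le_rpow (by positivity) hy3 (by positivity)
          _ = 4 ^ (2 * ε) * H ^ (M * (2 * ε)) := by
              rw [Real.mul_rpow (by norm_num) (by positivity), ← Real.rpow_mul hH0.le]
          _ ≤ 4 * H ^ (1 / 4 : ℝ) := by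
              apply mul_le_mul
              · calc (4 : ℝ) ^ (2 * ε) ≤ 4 ^ (1 : ℝ) :=
                    Real.rpow_le_rpow_of_exponent_le (by norm_num) (by linarith)
                  _ = 4 := Real.rpow_one 4
              · exact Real.rpow_le_rpow_of_exponent_le hH1 hexp
              · positivity
              · norm_num
      have hb : ∀ x ∈ Set.uIoc σ (2 : ℝ), ‖riemannZeta ((x : ℂ) + (y : ℂ) * Complex.I)‖ ≤
          8 * |C| * H ^ (1 / 4 : ℝ) := by
        intro x hx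
        rw [Set.uIoc_of_le h2.le] at hx
        have h3 := hC ((x : ℂ) + (y : ℂ) * Complex.I) (by simp; linarith [hx.1]) (by simp; linarith [hx.2])
          (by simp; linarith)
        have e1 : ((x : ℂ) + (y : ℂ) * Complex.I).im = y := by simp
        rw [e1, abs_of_pos hy0] at h3
        refine h3.trans ?_
        have h4 : 1 + 1 / y ≤ 2 := by
          have : 1 / y ≤ 1 := by
            rw [div_le_one hy0]
            exact hy1
          linarith
        have h5 : 0 ≤ (y + 2) ^ (2 * ε) := by positivity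
        have h6 : C * (1 + 1 / y) ≤ |C| * 2 := by
          calc C * (1 + 1 / y) ≤ |C| * (1 + 1 / y) :=
                mul_le_mul_of_nonneg_right (le_abs_self C) (by positivity)
            _ ≤ |C| * 2 := mul_le_mul_of_nonneg_left h4 (abs_nonneg C)
        calc C * (1 + 1 / y) * (y + 2) ^ (2 * ε) ≤ |C| * 2 * (y + 2) ^ (2 * ε) :=
              mul_le_mul_of_nonneg_right h6 h5
          _ ≤ |C| * 2 * (4 * H ^ (1 / 4 : ℝ)) :=
              mul_le_mul_of_nonneg_left hpow (by positivity)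
          _ = _ := by ring
      refine (intervalIntegral.norm_integral_le_of_norm_le_const hb).trans ?_
      have h7 : |2 - σ| ≤ 2 := by
        rw [abs_of_nonneg (by linarith)]
        linarith
      calc 8 * |C| * H ^ (1 / 4 : ℝ) * |2 - σ| ≤ 8 * |C| * H ^ (1 / 4 : ℝ) * 2 :=
            mul_le_mul_of_nonneg_left h7 (by positivity)
        _ = _ := by ring
    have hr1 := hrow T hTone (by linarith)
    have hr2 := hrow (T + H) (by linarith) le_rfl
    have hquart : 32 * |C| * H ^ (1 / 4 : ℝ) ≤ H / 10 := by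
      have h3 : H ^ (1 / 4 : ℝ) ≤ Real.sqrt H := by
        rw [Real.sqrt_eq_rpow]
        exact Real.rpow_le_rpow_of_exponent_le hH1 (by norm_num)
      have h4 : 320 * |C| ≤ Real.sqrt H := Real.le_sqrt_of_sq_le hHB
      have h5 : Real.sqrt H * Real.sqrt H = H := Real.mul_self_sqrt hH0.le
      have h6 : 0 ≤ Real.sqrt H := Real.sqrt_nonneg H
      have h7 : 0 ≤ |C| := abs_nonneg C
      calc 32 * |C| * H ^ (1 / 4 : ℝ) ≤ 32 * |C| * Real.sqrt H :=
            mul_le_mul_of_nonneg_left h3 (by positivity)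
        _ = (320 * |C|) * Real.sqrt H / 10 := by ring
        _ ≤ Real.sqrt H * Real.sqrt H / 10 := by
            have := mul_le_mul_of_nonneg_right h4 h6
            linarith
        _ = H / 10 := by rw [h5]
    have hI := LI_int T H hT0 hH0.le
    have hIZ : ‖∫ t in T..(T + H), riemannZeta ((σ : ℂ) + (t : ℂ) * Complex.I)‖ ≤ IZ σ T H := by
      unfold IZ
      exact intervalIntegral.norm_integral_le_integral_norm (by linarith)
    set A1 : ℂ := ∫ x in σ..(2 : ℝ), riemannZeta ((x : ℂ) + (T : ℂ) * Complex.I) with hA1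
    set A2 : ℂ := ∫ x in σ..(2 : ℝ), riemannZeta ((x : ℂ) + ((T + H : ℝ) : ℂ) * Complex.I) with hA2
    set B1 : ℂ := ∫ t in T..(T + H), riemannZeta ((2 : ℂ) + (t : ℂ) * Complex.I) with hB1
    set B2 : ℂ := ∫ t in T..(T + H), riemannZeta ((σ : ℂ) + (t : ℂ) * Complex.I) with hB2
    have hrect2 : A1 - A2 + Complex.I * B1 - Complex.I * B2 = 0 := by
      have h3 := hrect
      simp only [smul_eq_mul, Complex.ofReal_ofNat] at h3
      exact h3
    have h8 : B1 = B2 + Complex.I * (A1 - A2) := by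
      have h9 : Complex.I * (A1 - A2 + Complex.I * B1 - Complex.I * B2) = 0 := by
        rw [hrect2, mul_zero]
      have h10 : Complex.I * Complex.I = -1 := Complex.I_mul_I
      linear_combination (-1 : ℂ) * h9 + (B1 - B2) * h10
    have h9 : ‖B1‖ ≤ ‖B2‖ + (‖A1‖ + ‖A2‖) := by
      rw [h8]
      refine (norm_add_le _ _).trans ?_
      rw [norm_mul, Complex.norm_I, one_mul]
      have := norm_sub_le A1 A2
      linarith
    linarith

end Pool.Agent.ZUni
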