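import Pool.Agent.ZUni.LocSm
import Pool.Agent.ZUni.Excep
import Pool.Agent.ZUni.LongI

/-!
# MODULE FIN. The theorem for almost all `T`
-/

set_option autoImplicit false

open MeasureTheory Filter

namespace Pool.Agent.ZUni

private lemma iz_integrable (σ a b : ℝ) (ha : 0 < a) (hab : a ≤ b) :
    IntervalIntegrable (fun t : ℝ => ‖riemannZeta ((σ : ℂ) + (t : ℂ) * Complex.I)‖)
      volume a b := by
  apply ContinuousOn.intervalIntegrable
  intro t ht
  rw [Set.uIcc_of_le hab] at ht
  have h1 : (σ : ℂ) + (t : ℂ) * Complex.I ≠ 1 := by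
    intro h
    have h2 := congrArg Complex.im h
    simp at h2
    linarith [ht.1]
  have h2 : ContinuousAt riemannZeta ((σ : ℂ) + (t : ℂ) * Complex.I) :=
    (differentiableAt_riemannZeta h1).continuousAt
  have h3 : ContinuousAt (fun t : ℝ => (σ : ℂ) + (t : ℂ) * Complex.I) t := by fun_prop
  exact (ContinuousAt.comp_of_eq h2 h3 rfl).norm.continuousWithinAt

private lemma iz_sum (σ T c : ℝ) (hT : 0 < T) (n : ℕ)
    (h : ∀ j : ℕ, j < n → c ≤ IZ σ (T + j) 1) : c * n ≤ IZ σ T n := by
  induction n with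
  | zero =>
    unfold IZ
    simp
  | succ n ih =>
    have h1 := ih fun j hj => h j (by omega)
    have h2 := h n (by omega)
    have h3 : IZ σ T ((n + 1 : ℕ) : ℝ) = IZ σ T n + IZ σ (T + n) 1 := by
      unfold IZ
      rw [intervalIntegral.integral_add_adjacent_intervals]
      · congr 1
        push_cast
        ring
      · exact iz_integrable σ T (T + n) hT (by linarith [Nat.cast_nonneg (α := ℝ) n])
      · exact iz_integrable σ (T + n) (T + n + 1) (by positivity) (by linarith)
    rw [h3]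
    push_cast
    linarith

private lemma iz_mono (σ T : ℝ) {H H' : ℝ} (hT : 0 < T) (hH : 0 ≤ H) (hHH : H ≤ H') :
    IZ σ T H ≤ IZ σ T H' := by
  unfold IZ
  apply intervalIntegral.integral_mono_interval le_rfl (by linarith) (by linarith)
  · exact Filter.Eventually.of_forall fun t => norm_nonneg _
  · exact iz_integrable σ T (T + H') hT (by linarith)

theorem almost_all : ∀ ε : ℝ, 0 < ε → ∀ K : ℝ, 0 < K → ∃ c : ℝ, 0 < c ∧ ∃ X₀ : ℝ, ∀ X : ℝ, X₀ ≤ X →
    ∃ E : Set ℝ, MeasurableSet E ∧ E ⊆ Set.Icc X (2 * X) ∧ volume E ≤ ENNReal.ofReal (X ^ ε) ∧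
      ∀ T ∈ Set.Icc X (2 * X), T ∉ E → ∀ H : ℝ, 0 < H → ∀ σ : ℝ,
        1 - K / Real.log (Real.log T) ≤ σ → c * min (H ^ 2) H ≤ IZ σ T H := by
  intro ε hε K hK
  set κ : ℝ := min (ε / 32) (1 / 40) with hκdef
  have hκ : 0 < κ := lt_min (by positivity) (by norm_num)
  have hκ40 : κ ≤ 1 / 40 := min_le_right _ _
  have hκε : 32 * κ ≤ ε := by
    have : κ ≤ ε / 32 := min_le_left _ _
    linarith
  obtain ⟨X₁, hexc⟩ := exceptional κ hκ hκ40
  obtain ⟨c₁, hc₁, T₁, hloc⟩ := local_small κ (2 * K) hκ (by linarith) (by linarith)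
  obtain ⟨T₂, hlong⟩ := long_interval (κ / 2) K (by linarith) hK
  refine ⟨min (c₁ / 2) (1 / 4), lt_min (by linarith) (by norm_num), ?_⟩
  -- conditions on `X`
  have hev1 : ∀ᶠ X : ℝ in atTop, max 1 (2 : ℝ) ≤ Real.log (Real.log X) :=
    (Real.tendsto_log_atTop.comp Real.tendsto_log_atTop).eventually_ge_atTop _
  have hev2 : ∀ᶠ X : ℝ in atTop, 2 * Real.log (Real.log (3 * X)) ≤ X ^ κ / 2 := by
    have h1 : ∀ᶠ X : ℝ in atTop, ‖Real.log X‖ ≤ 1 / 12 * ‖X ^ κ‖ :=
      (isLittleO_log_rpow_atTop hκ).bound (by norm_num)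
    filter_upwards [h1, eventually_ge_atTop (9 : ℝ)] with X hX1 hX9
    have hX0 : 0 < X := by linarith
    have hl0 : 0 < Real.log X := Real.log_pos (by linarith)
    rw [Real.norm_of_nonneg hl0.le, Real.norm_of_nonneg (by positivity)] at hX1
    have h2 : Real.log (3 * X) ≤ 2 * Real.log X := by
      rw [Real.log_mul (by norm_num) (by linarith)]
      have : Real.log 3 ≤ Real.log X := Real.log_le_log (by norm_num) (by linarith)
      linarith
    have h3 : 0 < Real.log (3 * X) := Real.log_pos (by linarith)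
    have h4 : Real.log (Real.log (3 * X)) ≤ Real.log (3 * X) := by
      have := Real.log_le_sub_one_of_pos h3
      linarith
    linarith
  have hev3 : ∀ᶠ X : ℝ in atTop, (4 : ℝ) ≤ X ^ (κ / 2) :=
    (tendsto_rpow_atTop (by linarith)).eventually_ge_atTop _
  obtain ⟨X₂, hX₂⟩ := (hev1.and (hev2.and (hev3.and
    (eventually_ge_atTop (max 10 (max X₁ (max T₁ T₂))))))).exists_forall_of_atTop
  refine ⟨X₂, fun X hX => ?_⟩
  obtain ⟨hll, hlog, hpow, hge⟩ := hX₂ X hX
  have hX10 : 10 ≤ X := (le_max_left _ _).trans hge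
  have hXX₁ : X₁ ≤ X := (le_max_left _ _).trans ((le_max_right _ _).trans hge)
  have hXT₁ : T₁ ≤ X := (le_max_left _ _).trans ((le_max_right _ _).trans
    ((le_max_right _ _).trans hge))
  have hXT₂ : T₂ ≤ X := (le_max_right _ _).trans ((le_max_right _ _).trans
    ((le_max_right _ _).trans hge))
  have hX0 : 0 < X := by linarith
  obtain ⟨E, hE1, hE2, hE3, hE4⟩ := hexc X hXX₁
  refine ⟨E, hE1, hE2, hE3.trans (ENNReal.ofReal_le_ofReal
    (Real.rpow_le_rpow_of_exponent_le (by linarith) hκε)), ?_⟩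
  intro T hT hTE H hH σ hσ
  have hzf := hE4 T hT hTE
  have hT0 : 0 < T := by linarith [hT.1]
  have hcc₁ : min (c₁ / 2) (1 / 4) ≤ c₁ / 2 := min_le_left _ _
  have hc4 : min (c₁ / 2) (1 / 4) ≤ (1 / 4 : ℝ) := min_le_right _ _
  -- the general short interval
  have hXκ : 0 < X ^ κ := by positivity
  have hshort : ∀ u : ℝ, 0 ≤ u → u + 1 ≤ X ^ κ / 2 + 1 → ∀ H' : ℝ, 0 < H' → H' ≤ 1 →
      u + H' ≤ X ^ κ / 2 ∨ u = 0 → c₁ * H' ^ 2 ≤ IZ σ (T + u) H' := by
    intro u hu hu1 H' hH' hH'1 hor
    have hκ1 : X ^ κ ≤ X := by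
      calc X ^ κ ≤ X ^ (1 : ℝ) := Real.rpow_le_rpow_of_exponent_le (by linarith) (by linarith)
        _ = X := Real.rpow_one X
    have hTu : T + u ≤ 3 * X := by linarith [hT.2]
    have hlogX : 0 < Real.log X := Real.log_pos (by linarith)
    have hlT : Real.log X ≤ Real.log T := Real.log_le_log hX0 hT.1
    have hlogT : 0 < Real.log T := by linarith
    have hllX : 2 ≤ Real.log (Real.log X) := (le_max_right _ _).trans hll
    have hllT : Real.log (Real.log X) ≤ Real.log (Real.log T) := Real.log_le_log hlogX hlT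
    have hlogX2 : 2 ≤ Real.log X := by
      have := Real.log_le_sub_one_of_pos hlogX
      linarith
    have hlTu : Real.log T ≤ Real.log (T + u) := Real.log_le_log hT0 (by linarith)
    have hllTu : Real.log (Real.log T) ≤ Real.log (Real.log (T + u)) :=
      Real.log_le_log hlogT hlTu
    have hup : Real.log (Real.log (T + u)) ≤ Real.log (Real.log (3 * X)) := by
      apply Real.log_le_log (by linarith)
      exact Real.log_le_log (by linarith) hTu
    have h2T : Real.log (Real.log (T + u)) ≤ 2 * Real.log (Real.log T) := by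
      have h1 : Real.log (T + u) ≤ Real.log (T * T) := by
        apply Real.log_le_log (by linarith)
        nlinarith [hT.1]
      rw [Real.log_mul (by linarith) (by linarith)] at h1
      have h2 : Real.log (T + u) ≤ Real.log T ^ 2 := by nlinarith
      have h3 : Real.log (Real.log (T + u)) ≤ Real.log (Real.log T ^ 2) :=
        Real.log_le_log (by linarith) h2
      rw [Real.log_pow] at h3
      push_cast at h3
      exact h3
    have hX1 : (16 : ℝ) ≤ X ^ κ := by
      have h1 : X ^ κ = X ^ (κ / 2) * X ^ (κ / 2) := by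
        rw [← Real.rpow_add hX0]
        congr 1
        ring
      rw [h1]
      nlinarith
    apply hloc (T + u) (by linarith [hT.1]) H' hH' hH'1
    · intro s hs1 hs2 hs3
      apply hzf s hs1
      rw [abs_le]
      constructor
      · linarith
      · rcases hor with h | h
        · linarith
        · linarith
    · have h1 : K / Real.log (Real.log T) ≤ 2 * K / Real.log (Real.log (T + u)) := by
        rw [div_le_div_iff₀ (by linarith) (by linarith)]
        nlinarith
      linarith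
  rcases le_or_gt H 1 with h1 | h1
  · -- `H ≤ 1`
    have h2 := hshort 0 le_rfl (by linarith) H hH h1 (Or.inr rfl)
    rw [add_zero] at h2
    refine le_trans ?_ h2
    have h3 : min (H ^ 2) H ≤ H ^ 2 := min_le_left _ _
    have h4 : 0 ≤ H ^ 2 := by positivity
    calc min (c₁ / 2) (1 / 4) * min (H ^ 2) H ≤ c₁ * min (H ^ 2) H := by
          apply mul_le_mul_of_nonneg_right (by linarith)
          exact le_min h4 hH.le
      _ ≤ c₁ * H ^ 2 := mul_le_mul_of_nonneg_left h3 hc₁.le
  · have hmin : min (H ^ 2) H = H := by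
      apply min_eq_right
      nlinarith
    rw [hmin]
    rcases le_or_gt H (X ^ κ / 2) with h2 | h2
    · -- medium intervals
      have hfl : (⌊H⌋₊ : ℝ) ≤ H := Nat.floor_le hH.le
      have hfl1 : 1 ≤ ⌊H⌋₊ := Nat.le_floor (by rw [Nat.cast_one]; exact h1.le)
      have hfl2 : H < ⌊H⌋₊ + 1 := Nat.lt_floor_add_one H
      have h3 : c₁ * (⌊H⌋₊ : ℝ) ≤ IZ σ T ⌊H⌋₊ := by
        apply iz_sum σ T c₁ hT0
        intro j hj
        have hj1 : ((j : ℝ) + 1) ≤ ⌊H⌋₊ := by exact_mod_cast hj
        have h4 := hshort j (Nat.cast_nonneg j) (by linarith) 1 one_pos le_rfl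
          (Or.inl (by linarith))
        simpa using h4
      have h5 := iz_mono σ T hT0 (Nat.cast_nonneg ⌊H⌋₊) hfl
      have h6 : H / 2 ≤ (⌊H⌋₊ : ℝ) := by
        have : (1 : ℝ) ≤ ⌊H⌋₊ := by exact_mod_cast hfl1
        linarith
      calc min (c₁ / 2) (1 / 4) * H ≤ c₁ / 2 * H := mul_le_mul_of_nonneg_right hcc₁ hH.le
        _ = c₁ * (H / 2) := by ring
        _ ≤ c₁ * (⌊H⌋₊ : ℝ) := mul_le_mul_of_nonneg_left h6 hc₁.le
        _ ≤ IZ σ T H := h3.trans h5
    · -- long intervals
      have h3 : T ^ (κ / 2) ≤ H := by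
        have h4 : T ^ (κ / 2) ≤ (2 * X) ^ (κ / 2) :=
          Real.rpow_le_rpow hT0.le hT.2 (by linarith)
        have h5 : (2 * X) ^ (κ / 2) = 2 ^ (κ / 2) * X ^ (κ / 2) :=
          Real.mul_rpow (by norm_num) hX0.le
        have h6 : (2 : ℝ) ^ (κ / 2) ≤ 2 := by
          calc (2 : ℝ) ^ (κ / 2) ≤ 2 ^ (1 : ℝ) :=
                Real.rpow_le_rpow_of_exponent_le (by norm_num) (by linarith)
            _ = 2 := Real.rpow_one 2
        have h7 : X ^ κ = X ^ (κ / 2) * X ^ (κ / 2) := by
          rw [← Real.rpow_add hX0]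
          congr 1
          ring
        have h8 : 0 < X ^ (κ / 2) := by positivity
        rw [h7] at h2
        nlinarith
      have h4 := hlong T (by linarith [hT.1]) H h3 σ hσ
      calc min (c₁ / 2) (1 / 4) * H ≤ 1 / 4 * H := mul_le_mul_of_nonneg_right hc4 hH.le
        _ = H / 4 := by ring
        _ ≤ IZ σ T H := h4

end Pool.Agent.ZUni
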