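import Pool.Agent.ZUni.BCar
import Pool.Agent.SWz.ZetaGrow
import Pool.Agent.SWz.LowTriv
import Pool.Agent.SWz.ZComp

/-!
# MODULE LEFB. Bounds of `ζ'/ζ`
-/

set_option autoImplicit false

namespace Pool.Agent.ZUni

/-- PROOF. `logDeriv_bound` with `z₀ = 3/2 + it`, `R = 1/2 + κ`, `r = 1/2 + κ/2`. In the ball
`1 - κ < Re z < 2 + κ ≤ 3`, `|Im z - t| < 1`, so `‖ζ(z)‖ ≤ C (t + 3)^(1/2)` by `Pool.Agent.SWz.zgrow` with `ε = κ`
(Pool/Agent/SWz/ZetaGrow.lean), and `‖ζ(3/2 + it)‖ ≥ 1/4` by `Pool.Agent.SWz.low_triv` with `q = 1`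
(Pool/Agent/SWz/LowTriv.lean; `DirichletCharacter.LFunction_modOne_eq`). -/
theorem left_bound (κ : ℝ) (hκ : 0 < κ) (hκ' : κ ≤ 1 / 4) : ∃ C : ℝ, 0 < C ∧ ∀ t : ℝ, 4 ≤ t →
    (∀ s : ℂ, 1 - κ ≤ s.re → |s.im - t| ≤ 3 → riemannZeta s ≠ 0) →
    ∀ σ : ℝ, 1 - κ / 2 ≤ σ → σ ≤ 2 →
      ‖deriv riemannZeta ((σ : ℂ) + (t : ℂ) * Complex.I) /
        riemannZeta ((σ : ℂ) + (t : ℂ) * Complex.I)‖ ≤ C * Real.log t := by
  obtain ⟨C0, hC0⟩ := Pool.Agent.SWz.zgrow κ hκ hκ'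
  set C1 := max C0 1 with hC1def
  have hC1 : 1 ≤ C1 := le_max_right _ _
  have hC01 : C0 ≤ C1 := le_max_left _ _
  have hl4 : 0 < Real.log 4 := Real.log_pos (by norm_num)
  have hl16 : 0 < Real.log (16 * C1) := Real.log_pos (by linarith)
  refine ⟨32 * (1 / 2 + κ) / κ ^ 2 * (Real.log (16 * C1) / Real.log 4 + 1), by positivity, ?_⟩
  intro t ht hnz σ h1 h2
  set z₀ : ℂ := ((3 / 2 : ℝ) : ℂ) + (t : ℂ) * Complex.I with hz₀
  have hre₀ : z₀.re = 3 / 2 := by simp [hz₀]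
  have him₀ : z₀.im = t := by simp [hz₀]
  have hball : ∀ z ∈ Metric.ball z₀ (1 / 2 + κ),
      1 - κ < z.re ∧ z.re < 2 + κ ∧ |z.im - t| < 1 / 2 + κ := by
    intro z hz
    rw [Metric.mem_ball, dist_eq_norm] at hz
    have h3 := Complex.abs_re_le_norm (z - z₀)
    have h4 := Complex.abs_im_le_norm (z - z₀)
    rw [Complex.sub_re, hre₀] at h3
    rw [Complex.sub_im, him₀] at h4
    have h5 := abs_le.1 (h3.trans hz.le)
    have h6 : |z.re - 3 / 2| < 1 / 2 + κ := h3.trans_lt hz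
    rw [abs_lt] at h6
    exact ⟨by linarith, by linarith, h4.trans_lt hz⟩
  have him : ∀ z ∈ Metric.ball z₀ (1 / 2 + κ), 3 < z.im ∧ z.im < t + 1 := by
    intro z hz
    obtain ⟨-, -, h5⟩ := hball z hz
    rw [abs_lt] at h5
    constructor <;> linarith
  have hA : 0 < Real.log (16 * C1 * t) := Real.log_pos (by nlinarith)
  have hf : DifferentiableOn ℂ riemannZeta (Metric.ball z₀ (1 / 2 + κ)) := by
    intro z hz
    refine (differentiableAt_riemannZeta ?_).differentiableWithinAt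
    rintro rfl
    have := (him 1 hz).1
    rw [Complex.one_im] at this
    linarith
  have h0 : ∀ z ∈ Metric.ball z₀ (1 / 2 + κ), riemannZeta z ≠ 0 := by
    intro z hz
    obtain ⟨h3, -, h5⟩ := hball z hz
    exact hnz z h3.le (by linarith)
  have hlow : 1 / 4 ≤ ‖riemannZeta z₀‖ := by
    have h3 := Pool.Agent.SWz.low_triv 1 (1 : DirichletCharacter ℂ 1) z₀ (by rw [hre₀]; norm_num)
      (by rw [hre₀]; norm_num)
    rw [DirichletCharacter.LFunction_modOne_eq, hre₀] at h3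
    linarith
  have hb : ∀ z ∈ Metric.ball z₀ (1 / 2 + κ),
      ‖riemannZeta z‖ ≤ Real.exp (Real.log (16 * C1 * t)) * ‖riemannZeta z₀‖ := by
    intro z hz
    obtain ⟨h3, h4, -⟩ := hball z hz
    obtain ⟨h5, h6⟩ := him z hz
    have h7 : |z.im| = z.im := abs_of_pos (by linarith)
    have h8 := hC0 z h3.le (by linarith) (by linarith)
    rw [h7] at h8
    have h9 : (z.im + 2) ^ (2 * κ) ≤ t + 3 := by
      calc (z.im + 2) ^ (2 * κ) ≤ (z.im + 2) ^ (1 : ℝ) :=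
            Real.rpow_le_rpow_of_exponent_le (by linarith) (by linarith)
        _ = z.im + 2 := Real.rpow_one _
        _ ≤ t + 3 := by linarith
    have h10 : 1 + 1 / z.im ≤ 2 := by
      have : 1 / z.im ≤ 1 := by
        rw [div_le_one (by linarith)]
        linarith
      linarith
    have h11 : 0 ≤ 1 + 1 / z.im := by
      have : 0 < z.im := by linarith
      positivity
    have h12 : 0 ≤ (z.im + 2) ^ (2 * κ) := Real.rpow_nonneg (by linarith) _
    rw [Real.exp_log (by nlinarith)]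
    calc ‖riemannZeta z‖ ≤ C0 * (1 + 1 / z.im) * (z.im + 2) ^ (2 * κ) := h8
      _ ≤ C1 * (1 + 1 / z.im) * (z.im + 2) ^ (2 * κ) := by gcongr
      _ ≤ C1 * 2 * (t + 3) := by gcongr
      _ ≤ 16 * C1 * t * (1 / 4) := by nlinarith
      _ ≤ 16 * C1 * t * ‖riemannZeta z₀‖ := by
        apply mul_le_mul_of_nonneg_left hlow
        have : 0 < C1 := by linarith
        positivity
  have hmem : (σ : ℂ) + (t : ℂ) * Complex.I ∈ Metric.closedBall z₀ (1 / 2 + κ / 2) := by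
    rw [Metric.mem_closedBall, dist_eq_norm]
    have e : (σ : ℂ) + (t : ℂ) * Complex.I - z₀ = ((σ - 3 / 2 : ℝ) : ℂ) := by
      rw [hz₀]
      push_cast
      ring
    rw [e, Complex.norm_real, Real.norm_eq_abs, abs_le]
    constructor <;> linarith
  have hfin := logDeriv_bound (by linarith) (by linarith) hA hf h0 hb _ hmem
  refine hfin.trans ?_
  have hlt : Real.log 4 ≤ Real.log t := Real.log_le_log (by norm_num) ht
  have hlog : Real.log (16 * C1 * t) ≤ (Real.log (16 * C1) / Real.log 4 + 1) * Real.log t := by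
    rw [Real.log_mul (by linarith) (by linarith), add_mul, one_mul]
    have : Real.log (16 * C1) ≤ Real.log (16 * C1) / Real.log 4 * Real.log t := by
      rw [div_mul_eq_mul_div, le_div_iff₀ hl4]
      exact mul_le_mul_of_nonneg_left hlt hl16.le
    linarith
  have e : (1 / 2 + κ - (1 / 2 + κ / 2)) = κ / 2 := by ring
  rw [e]
  calc 8 * Real.log (16 * C1 * t) * (1 / 2 + κ) / (κ / 2) ^ 2
      = 32 * (1 / 2 + κ) / κ ^ 2 * Real.log (16 * C1 * t) := by
        field_simp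
        ring
    _ ≤ 32 * (1 / 2 + κ) / κ ^ 2 * ((Real.log (16 * C1) / Real.log 4 + 1) * Real.log t) := by
        apply mul_le_mul_of_nonneg_left hlog
        positivity
    _ = _ := by ring

/-- PROOF. `-ζ'/ζ(s) = ∑ Λ(n) n^(-s)` (`ArithmeticFunction.LSeries_vonMangoldt_eq_deriv_riemannZeta_div`), so the
norm is at most `∑ Λ(n) n^(-σ)`, and this is at most `C/(σ-1)`, e.g. because it is `-ζ'(σ)/ζ(σ)` with
`ζ(σ) ≥ 1/(σ-1)` and `-ζ'(σ) = ∑ (log n) n^(-σ) ≤ C/(σ-1)²` (`log n ≤ 2 n^((σ-1)/2)/(σ-1)`), or by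
partial summation from Chebyshev's bound. -/
theorem right_bound : ∃ C : ℝ, 0 < C ∧ ∀ σ : ℝ, 1 < σ → σ ≤ 2 → ∀ t : ℝ,
    ‖deriv riemannZeta ((σ : ℂ) + (t : ℂ) * Complex.I) /
      riemannZeta ((σ : ℂ) + (t : ℂ) * Complex.I)‖ ≤ C / (σ - 1) := by
  obtain ⟨C0, hC0⟩ := Pool.Agent.SWz.zcomp 0
  refine ⟨|C0| + 2, by positivity, ?_⟩
  intro σ hσ hσ2 t
  set s : ℂ := (σ : ℂ) + (t : ℂ) * Complex.I with hs
  have hsre : s.re = σ := by simp [hs]
  have hσ1 : 0 < σ - 1 := by linarith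
  -- comparison with the real point
  set L : ℕ → ℂ := fun n => ((ArithmeticFunction.vonMangoldt n : ℝ) : ℂ) with hL
  have hterm : ∀ n, LSeries.term L (σ : ℂ) n = ((‖LSeries.term L s n‖ : ℝ) : ℂ) := by
    intro n
    rcases eq_or_ne n 0 with rfl | hn
    · simp
    · rw [LSeries.norm_term_eq, if_neg hn, LSeries.term_of_ne_zero hn, hsre, hL]
      simp only [Complex.norm_real, Real.norm_of_nonneg ArithmeticFunction.vonMangoldt_nonneg]
      push_cast
      rw [Complex.ofReal_cpow (Nat.cast_nonneg n)]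
      simp
  have hsum : LSeriesSummable L s :=
    ArithmeticFunction.LSeriesSummable_vonMangoldt (by rw [hsre]; exact hσ)
  have e1 : LSeries L s = -deriv riemannZeta s / riemannZeta s :=
    ArithmeticFunction.LSeries_vonMangoldt_eq_deriv_riemannZeta_div (by rw [hsre]; exact hσ)
  have e2 : LSeries L (σ : ℂ) = -deriv riemannZeta (σ : ℂ) / riemannZeta (σ : ℂ) :=
    ArithmeticFunction.LSeries_vonMangoldt_eq_deriv_riemannZeta_div (by simpa using hσ)
  have h1 : ‖LSeries L s‖ ≤ ‖LSeries L (σ : ℂ)‖ := by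
    unfold LSeries
    simp only [hterm]
    rw [← Complex.ofReal_tsum, Complex.norm_real]
    exact (norm_tsum_le_tsum_norm hsum.norm).trans (le_abs_self _)
  rw [e1, e2, neg_div, neg_div, norm_neg, norm_neg] at h1
  refine h1.trans ?_
  -- the real point
  have h2 := (hC0 (σ : ℂ) (by simpa using hσ) (by simpa using hσ2) (by simp)).2
  rw [iteratedDeriv_zero] at h2
  have h3 : ‖riemannZeta (σ : ℂ)‖ ≤ 1 + 1 / (σ - 1) := by
    obtain ⟨h4, h5⟩ := Pool.Agent.SWz.LOWTRIVAux.sum_rpow_le σ hσ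
    rw [zeta_eq_tsum_one_div_nat_add_one_cpow (by simpa using hσ)]
    have h6 : ∀ n : ℕ, ‖1 / ((n : ℂ) + 1) ^ (σ : ℂ)‖ = 1 / ((n : ℝ) + 1) ^ σ := by
      intro n
      have h7 : ((n : ℂ) + 1) = (((n : ℝ) + 1 : ℝ) : ℂ) := by push_cast; rfl
      rw [h7, norm_div, norm_one, Complex.norm_cpow_eq_rpow_re_of_pos (by positivity)]
      simp
    refine (norm_tsum_le_tsum_norm ?_).trans ?_
    · simpa only [h6] using h4
    · simpa only [h6] using h5
  have h4 : ‖deriv riemannZeta (σ : ℂ) / riemannZeta (σ : ℂ)‖ ≤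
      ‖deriv riemannZeta (σ : ℂ) / riemannZeta (σ : ℂ) + riemannZeta (σ : ℂ)‖ +
        ‖riemannZeta (σ : ℂ)‖ := by
    have := norm_sub_le (deriv riemannZeta (σ : ℂ) / riemannZeta (σ : ℂ) + riemannZeta (σ : ℂ))
      (riemannZeta (σ : ℂ))
    simpa using this
  have h5 := le_abs_self C0
  rw [le_div_iff₀ hσ1]
  have h6 : ‖deriv riemannZeta (σ : ℂ) / riemannZeta (σ : ℂ)‖ ≤ |C0| + (1 + 1 / (σ - 1)) := by
    linarith
  have h7 : (|C0| + (1 + 1 / (σ - 1))) * (σ - 1) = (|C0| + 1) * (σ - 1) + 1 := by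
    field_simp
    ring
  have h8 : ‖deriv riemannZeta (σ : ℂ) / riemannZeta (σ : ℂ)‖ * (σ - 1) ≤
      (|C0| + (1 + 1 / (σ - 1))) * (σ - 1) := mul_le_mul_of_nonneg_right h6 hσ1.le
  rw [h7] at h8
  have h9 : (|C0| + 1) * (σ - 1) ≤ (|C0| + 1) * 1 :=
    mul_le_mul_of_nonneg_left (by linarith) (by positivity)
  linarith

end Pool.Agent.ZUni
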