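import Pool.Agent.ZUni.LeftB

/-!
# MODULE LOCL. The logarithmic derivative of `ζ` near the line `Re s = 1` in a zero-free box
-/

set_option autoImplicit false

open Filter Topology

namespace Pool.Agent.ZUni

private lemma analytic_zeta {w : ℂ} (hw : w ≠ 1) : AnalyticAt ℂ riemannZeta w := by
  have h : DifferentiableOn ℂ riemannZeta {1}ᶜ := fun z hz =>
    (differentiableAt_riemannZeta hz).differentiableWithinAt
  exact h.analyticAt (isOpen_compl_singleton.mem_nhds hw)

/-- PROOF. Maximum principle for `Φ(w) = ζ'/ζ(w) exp ((w-s₀)² + (4/κ) ℓ (w-s₀))`, `s₀ = σ + it`,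
`ℓ = log log t`, on the rectangle `1 - κ/2 ≤ Re w ≤ 1 + 1/ℓ`, `|Im w - t| ≤ ℓ/2`. -/
theorem logderiv_local (κ K : ℝ) (hκ : 0 < κ) (hκ' : κ ≤ 1 / 4) (hK : 0 < K) :
    ∃ C : ℝ, 0 < C ∧ ∃ T₀ : ℝ, ∀ t : ℝ, T₀ ≤ t →
    (∀ s : ℂ, 1 - κ ≤ s.re → |s.im - t| ≤ Real.log (Real.log t) → riemannZeta s ≠ 0) →
    ∀ σ : ℝ, 1 - K / Real.log (Real.log t) ≤ σ → σ ≤ 1 + 1 / Real.log (Real.log t) →
      ‖deriv riemannZeta ((σ : ℂ) + (t : ℂ) * Complex.I) /
        riemannZeta ((σ : ℂ) + (t : ℂ) * Complex.I)‖ ≤ C * Real.log (Real.log t) := by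
  obtain ⟨C1, hC1, hL⟩ := left_bound κ hκ hκ'
  obtain ⟨C2, hC2, hR⟩ := right_bound
  set P : ℝ := 1 + 4 * (K + 1) / κ with hP
  set C : ℝ := (2 * C1 + C2) * Real.exp P with hC
  refine ⟨C, by positivity, ?_⟩
  have hev : ∀ᶠ t : ℝ in atTop, max 6 (max (2 * K / κ) (K + 1)) ≤ Real.log (Real.log t) :=
    (Real.tendsto_log_atTop.comp Real.tendsto_log_atTop).eventually_ge_atTop _
  obtain ⟨T₁, hT₁⟩ := (hev.and (eventually_ge_atTop (10 : ℝ))).exists_forall_of_atTop
  refine ⟨T₁, fun t ht hz σ hσ1 hσ2 => ?_⟩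
  obtain ⟨hl, ht10⟩ := hT₁ t ht
  set l : ℝ := Real.log (Real.log t) with hldef
  have hl6 : 6 ≤ l := (le_max_left _ _).trans hl
  have hlK : 2 * K / κ ≤ l := (le_max_left _ _).trans ((le_max_right _ _).trans hl)
  have hlK1 : K + 1 ≤ l := (le_max_right _ _).trans ((le_max_right _ _).trans hl)
  have hl0 : 0 < l := by linarith
  have hlogt : 0 < Real.log t := Real.log_pos (by linarith)
  have hexpl : Real.exp l = Real.log t := Real.exp_log hlogt
  have hlt : l ≤ t - 2 := by
    have h1 := Real.log_le_sub_one_of_pos hlogt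
    have h2 := Real.log_le_sub_one_of_pos (show (0 : ℝ) < t by linarith)
    linarith
  have hKl : K / l ≤ κ / 2 := by
    rw [div_le_iff₀ hl0]
    rw [div_le_iff₀ hκ] at hlK
    linarith
  have h1l : 1 / l ≤ 1 / 6 := one_div_le_one_div_of_le (by norm_num) hl6
  have h1l0 : 0 < 1 / l := by positivity
  have hK1l : (K + 1) / l ≤ 1 := by
    rw [div_le_one hl0]
    exact hlK1
  -- bounds in the closed rectangle
  have hne1 : ∀ w : ℂ, |w.im - t| ≤ l / 2 → w ≠ 1 := by
    intro w hw h
    rw [h] at hw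
    rw [Complex.one_im, zero_sub, abs_neg, abs_of_pos (by linarith)] at hw
    linarith
  have hzw : ∀ w : ℂ, 1 - κ / 2 ≤ w.re → |w.im - t| ≤ l / 2 → riemannZeta w ≠ 0 := by
    intro w h1 h2
    exact hz w (by linarith) (by linarith)
  have hall : ∀ w : ℂ, 1 - κ / 2 ≤ w.re → w.re ≤ 2 → |w.im - t| ≤ l / 2 →
      ‖deriv riemannZeta w / riemannZeta w‖ ≤ 2 * C1 * Real.exp l := by
    intro w h1 h2 h3
    have h4 := abs_le.1 h3
    have hy4 : 4 ≤ w.im := by linarith
    have h5 := hL w.im hy4 (by
      intro s hs1 hs2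
      refine hz s hs1 ?_
      have h6 : s.im - t = (s.im - w.im) + (w.im - t) := by ring
      rw [h6]
      exact (abs_add_le _ _).trans (by linarith)) w.re h1 h2
    rw [Complex.re_add_im] at h5
    refine h5.trans ?_
    have h7 : Real.log w.im ≤ 2 * Real.log t := by
      have h8 : Real.log w.im ≤ Real.log (t * t) := by
        apply Real.log_le_log (by linarith)
        nlinarith
      rw [Real.log_mul (by linarith) (by linarith)] at h8
      linarith
    rw [hexpl]
    nlinarith
  have hright : ∀ w : ℂ, w.re = 1 + 1 / l → ‖deriv riemannZeta w / riemannZeta w‖ ≤ C2 * l := by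
    intro w hw
    have h1 := hR w.re (by rw [hw]; linarith) (by rw [hw]; linarith) w.im
    rw [Complex.re_add_im] at h1
    refine h1.trans (le_of_eq ?_)
    rw [hw]
    field_simp
    ring
  -- the auxiliary function
  set s₀ : ℂ := (σ : ℂ) + (t : ℂ) * Complex.I with hs₀
  have hs₀re : s₀.re = σ := by simp [hs₀]
  have hs₀im : s₀.im = t := by simp [hs₀]
  let g : ℂ → ℂ := fun w => (w - s₀) ^ 2 + ((4 / κ * l : ℝ) : ℂ) * (w - s₀)
  let Φ : ℂ → ℂ := fun w => deriv riemannZeta w / riemannZeta w * Complex.exp (g w)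
  have hgre : ∀ w : ℂ, (g w).re = (w.re - σ) ^ 2 - (w.im - t) ^ 2 + 4 / κ * l * (w.re - σ) := by
    intro w
    show ((w - s₀) ^ 2 + ((4 / κ * l : ℝ) : ℂ) * (w - s₀)).re = _
    rw [Complex.add_re, Complex.re_ofReal_mul, sq, Complex.mul_re, Complex.sub_re, Complex.sub_im,
      hs₀re, hs₀im]
    ring
  have hΦ : ∀ w : ℂ, ‖Φ w‖ = ‖deriv riemannZeta w / riemannZeta w‖ * Real.exp (g w).re := by
    intro w
    show ‖deriv riemannZeta w / riemannZeta w * Complex.exp (g w)‖ = _
    rw [norm_mul, Complex.norm_exp]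
  -- the rectangle
  set U : Set ℂ := Set.Ioo (1 - κ / 2) (1 + 1 / l) ×ℂ Set.Ioo (t - l / 2) (t + l / 2) with hU
  have hab : 1 - κ / 2 ≠ 1 + 1 / l := by
    intro h
    linarith
  have hcd : t - l / 2 ≠ t + l / 2 := by
    intro h
    linarith
  have hcl : closure U = Set.Icc (1 - κ / 2) (1 + 1 / l) ×ℂ Set.Icc (t - l / 2) (t + l / 2) := by
    rw [hU, Complex.closure_reProdIm, closure_Ioo hab, closure_Ioo hcd]
  have hmem : ∀ w ∈ closure U, 1 - κ / 2 ≤ w.re ∧ w.re ≤ 1 + 1 / l ∧ |w.im - t| ≤ l / 2 := by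
    intro w hw
    rw [hcl, Complex.mem_reProdIm] at hw
    refine ⟨hw.1.1, hw.1.2, ?_⟩
    rw [abs_le]
    constructor
    · linarith [hw.2.1]
    · linarith [hw.2.2]
  have hsq : ∀ w ∈ closure U, (w.re - σ) ^ 2 ≤ 1 := by
    intro w hw
    obtain ⟨h1, h2, -⟩ := hmem w hw
    have h3 : w.re - σ ≤ 1 := by
      have h4 : w.re - σ ≤ (K + 1) / l := by
        have : (K + 1) / l = K / l + 1 / l := by ring
        rw [this]
        linarith
      linarith
    have h5 : -1 ≤ w.re - σ := by linarith
    nlinarith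
  have hlin : ∀ w ∈ closure U, 4 / κ * l * (w.re - σ) ≤ 4 * (K + 1) / κ := by
    intro w hw
    obtain ⟨h1, h2, -⟩ := hmem w hw
    have h4 : w.re - σ ≤ (K + 1) / l := by
      have : (K + 1) / l = K / l + 1 / l := by ring
      rw [this]
      linarith
    calc 4 / κ * l * (w.re - σ) ≤ 4 / κ * l * ((K + 1) / l) :=
          mul_le_mul_of_nonneg_left h4 (by positivity)
      _ = 4 * (K + 1) / κ := by
          field_simp
  have hdiff : DiffContOnCl ℂ Φ U := by
    apply DifferentiableOn.diffContOnCl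
    intro w hw
    obtain ⟨h1, h2, h3⟩ := hmem w hw
    have h4 := analytic_zeta (hne1 w h3)
    have h5 := hzw w h1 h3
    apply DifferentiableAt.differentiableWithinAt
    apply DifferentiableAt.mul
    · exact h4.deriv.differentiableAt.div h4.differentiableAt h5
    · fun_prop
  have hbd : Bornology.IsBounded U :=
    (Metric.isBounded_Ioo _ _).reProdIm (Metric.isBounded_Ioo _ _)
  have hfr : ∀ w ∈ frontier U, ‖Φ w‖ ≤ C * l := by
    intro w hw
    have hwc : w ∈ closure U := frontier_subset_closure hw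
    obtain ⟨h1, h2, h3⟩ := hmem w hwc
    have h4 := hsq w hwc
    have h5 := hlin w hwc
    have h6 := hall w h1 (by linarith) h3
    rw [hU, Complex.frontier_reProdIm, closure_Ioo hab, closure_Ioo hcd,
      frontier_Ioo (by linarith), frontier_Ioo (by linarith)] at hw
    have hexpP : 0 < Real.exp P := Real.exp_pos P
    have hsmall : (g w).re ≤ P - l → ‖Φ w‖ ≤ C * l := by
      intro hg
      rw [hΦ w]
      calc ‖deriv riemannZeta w / riemannZeta w‖ * Real.exp (g w).re
          ≤ (2 * C1 * Real.exp l) * Real.exp (P - l) := by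
            apply mul_le_mul h6 (Real.exp_le_exp.2 hg) (Real.exp_pos _).le (by positivity)
        _ = 2 * C1 * Real.exp P := by
            rw [mul_assoc, ← Real.exp_add]
            congr 2
            ring
        _ ≤ C * l := by
            rw [hC]
            have e1 : 0 < C2 * Real.exp P * l := by positivity
            have e2 : 2 * C1 * Real.exp P ≤ 2 * C1 * Real.exp P * l := by
              apply le_mul_of_one_le_right (by positivity)
              linarith
            nlinarith
    rcases hw with hw | hw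
    · -- horizontal sides
      rw [Complex.mem_reProdIm] at hw
      have him : (w.im - t) ^ 2 = l ^ 2 / 4 := by
        rcases hw.2 with h | h
        · rw [h]; ring
        · rw [Set.mem_singleton_iff.1 h]; ring
      apply hsmall
      rw [hgre, him]
      nlinarith
    · rw [Complex.mem_reProdIm] at hw
      rcases hw.1 with h | h
      · -- left side
        apply hsmall
        rw [hgre]
        have h7 : w.re - σ ≤ -(κ / 2) + K / l := by
          rw [h]
          linarith
        have h8 : 4 / κ * l * (w.re - σ) ≤ -(2 * l) + 4 * K / κ := by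
          calc 4 / κ * l * (w.re - σ) ≤ 4 / κ * l * (-(κ / 2) + K / l) :=
                mul_le_mul_of_nonneg_left h7 (by positivity)
            _ = -(2 * l) + 4 * K / κ := by
                field_simp
                ring
        have h9 : 4 * (K + 1) / κ = 4 * K / κ + 4 / κ := by ring
        have h10 : 0 < 4 / κ := by positivity
        rw [hP]
        nlinarith [sq_nonneg (w.im - t)]
      · -- right side
        have h7 := hright w (Set.mem_singleton_iff.1 h)
        rw [hΦ w]
        have h8 : (g w).re ≤ P := by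
          rw [hgre, hP]
          nlinarith [sq_nonneg (w.im - t)]
        calc ‖deriv riemannZeta w / riemannZeta w‖ * Real.exp (g w).re
            ≤ (C2 * l) * Real.exp P := by
              apply mul_le_mul h7 (Real.exp_le_exp.2 h8) (Real.exp_pos _).le (by positivity)
          _ ≤ C * l := by
              rw [hC]
              have e1 : 0 < C1 * Real.exp P * l := by positivity
              nlinarith
  have hs₀c : s₀ ∈ closure U := by
    rw [hcl, Complex.mem_reProdIm, hs₀re, hs₀im]
    refine ⟨⟨by linarith, hσ2⟩, ⟨by linarith, by linarith⟩⟩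
  have hfin := Complex.norm_le_of_forall_mem_frontier_norm_le hbd hdiff hfr hs₀c
  rw [hΦ s₀, hgre, hs₀re, hs₀im] at hfin
  simpa using hfin

end Pool.Agent.ZUni
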