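import Pool.Agent.ZUni.PrimeSum

/-!
# MODULE RAVG. The lower bound to the right of the line `Re s = 1`
-/

set_option autoImplicit false

open MeasureTheory

namespace Pool.Agent.ZUni

private theorem RAvg_norm (σ : ℝ) (t : ℝ) (p : Nat.Primes) :
    ‖((p : ℕ) : ℂ) ^ (-((σ : ℂ) + (t : ℂ) * Complex.I))‖ = ((p : ℕ) : ℝ) ^ (-σ) := by
  rw [Complex.norm_natCast_cpow_of_pos p.2.pos]
  simp

private theorem RAvg_re (σ : ℝ) (t : ℝ) (p : Nat.Primes) :
    (((p : ℕ) : ℂ) ^ (-((σ : ℂ) + (t : ℂ) * Complex.I))).re =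
      ((p : ℕ) : ℝ) ^ (-σ) * Real.cos (t * Real.log (p : ℕ)) := by
  have hp : (0 : ℝ) < ((p : ℕ) : ℝ) := by exact_mod_cast p.2.pos
  have hp' : ((p : ℕ) : ℂ) ≠ 0 := by exact_mod_cast p.2.ne_zero
  rw [Complex.cpow_def_of_ne_zero hp', ← Complex.natCast_log, Complex.exp_re]
  have e1 : ((Real.log (p : ℕ) : ℂ) * -((σ : ℂ) + (t : ℂ) * Complex.I)).re =
      Real.log (p : ℕ) * (-σ) := by
    rw [Complex.re_ofReal_mul]
    simp
  have e2 : ((Real.log (p : ℕ) : ℂ) * -((σ : ℂ) + (t : ℂ) * Complex.I)).im =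
      -(t * Real.log (p : ℕ)) := by
    rw [Complex.im_ofReal_mul]
    simp
    ring
  rw [e1, e2, Real.cos_neg, Real.rpow_def_of_pos hp]

private theorem RAvg_two {σ : ℝ} (hσ : 1 < σ) (p : Nat.Primes) :
    0 < ((p : ℕ) : ℝ) ^ (-σ) ∧ ((p : ℕ) : ℝ) ^ (-σ) ≤ 1 / ((p : ℕ) : ℝ) ∧
      1 / ((p : ℕ) : ℝ) ≤ 1 / 2 := by
  have hp : (2 : ℝ) ≤ ((p : ℕ) : ℝ) := by exact_mod_cast p.2.two_le
  have hp0 : (0 : ℝ) < ((p : ℕ) : ℝ) := by linarith
  refine ⟨Real.rpow_pos_of_pos hp0 _, ?_, ?_⟩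
  · rw [one_div, ← Real.rpow_neg_one]
    exact Real.rpow_le_rpow_of_exponent_le (by linarith) (by linarith)
  · exact one_div_le_one_div_of_le (by norm_num) hp

private theorem RAvg_sum {σ : ℝ} (hσ : 1 < σ) :
    Summable fun p : Nat.Primes => ((p : ℕ) : ℝ) ^ (-σ) :=
  Nat.Primes.summable_rpow.2 (by linarith)

/-- the sum of the squares -/
private theorem RAvg_sq {σ : ℝ} (hσ : 1 < σ) :
    (Summable fun p : Nat.Primes => (((p : ℕ) : ℝ) ^ (-σ)) ^ 2) ∧
      ∑' p : Nat.Primes, (((p : ℕ) : ℝ) ^ (-σ)) ^ 2 ≤ 1 := by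
  have h2 : HasSum (fun n : ℕ => (1 : ℝ) / (n : ℝ) ^ 2) (Real.pi ^ 2 / 6) := hasSum_zeta_two
  set f : ℕ → ℝ := fun n => 1 / (n : ℝ) ^ 2 - if n = 1 then 1 else 0 with hf
  have h3 : HasSum f (Real.pi ^ 2 / 6 - 1) := by
    have h4 : HasSum (fun n : ℕ => if n = 1 then (1 : ℝ) else 0) 1 := by
      have := hasSum_ite_eq (1 : ℕ) (1 : ℝ)
      simpa using this
    exact h2.sub h4
  have hfn : ∀ n, 0 ≤ f n := by
    intro n
    simp only [hf]
    split_ifs with h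
    · rw [h]; norm_num
    · rw [sub_zero]; positivity
  have hle : ∀ p : Nat.Primes, (((p : ℕ) : ℝ) ^ (-σ)) ^ 2 ≤ f (p : ℕ) := by
    intro p
    obtain ⟨h4, h5, -⟩ := RAvg_two hσ p
    simp only [hf]
    rw [if_neg p.2.one_lt.ne', sub_zero]
    calc (((p : ℕ) : ℝ) ^ (-σ)) ^ 2 ≤ (1 / ((p : ℕ) : ℝ)) ^ 2 := by gcongr
      _ = 1 / ((p : ℕ) : ℝ) ^ 2 := by rw [div_pow, one_pow]
  have hsf : Summable fun p : Nat.Primes => f (p : ℕ) :=
    h3.summable.comp_injective (Subtype.val_injective)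
  have hs : Summable fun p : Nat.Primes => (((p : ℕ) : ℝ) ^ (-σ)) ^ 2 :=
    Summable.of_nonneg_of_le (fun p => by positivity) hle hsf
  refine ⟨hs, ?_⟩
  have h6 : ∑' p : Nat.Primes, f (p : ℕ) ≤ ∑' n, f n :=
    Summable.tsum_subtype_le f {p : ℕ | p.Prime} (fun n => hfn n) h3.summable
  have hpi : Real.pi ^ 2 < 12 := by
    have h7 := Real.pi_lt_d2
    have h8 := Real.pi_pos
    nlinarith
  calc ∑' p : Nat.Primes, (((p : ℕ) : ℝ) ^ (-σ)) ^ 2 ≤ ∑' p : Nat.Primes, f (p : ℕ) :=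
        Summable.tsum_le_tsum hle hs hsf
    _ ≤ ∑' n, f n := h6
    _ = Real.pi ^ 2 / 6 - 1 := h3.tsum_eq
    _ ≤ 1 := by linarith

/-- PROOF. `riemannZeta_eulerProduct_exp_log`: `exp (∑' p, -log (1 - p^(-s))) = ζ(s)`, so
`log ‖ζ(s)‖ = ∑' p, Re (-log (1 - p^(-s)))`, and `Re (-log (1 - z)) ≥ Re z - ‖z‖²` for `‖z‖ ≤ 1/2`
(`Complex.norm_log_one_add_sub_self_le` or similar), `∑ p^(-2σ) ≤ ∑_{n ≥ 2} 1/n² ≤ 1`,
`Re p^(-s) = p^(-σ) cos (t log p)`. -/
theorem log_zeta_lower (σ : ℝ) (hσ : 1 < σ) (t : ℝ) :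
    (∑' p : Nat.Primes, ((p : ℕ) : ℝ) ^ (-σ) * Real.cos (t * Real.log (p : ℕ))) - 1 ≤
      Real.log ‖riemannZeta ((σ : ℂ) + (t : ℂ) * Complex.I)‖ := by
  set s : ℂ := (σ : ℂ) + (t : ℂ) * Complex.I with hs
  have hsre : s.re = σ := by simp [hs]
  have hexp := riemannZeta_eulerProduct_exp_log (s := s) (by rw [hsre]; exact hσ)
  -- the terms
  have hterm : ∀ p : Nat.Primes,
      ‖-Complex.log (1 - ((p : ℕ) : ℂ) ^ (-s)) - ((p : ℕ) : ℂ) ^ (-s)‖ ≤
        (((p : ℕ) : ℝ) ^ (-σ)) ^ 2 := by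
    intro p
    obtain ⟨h1, h2, h3⟩ := RAvg_two hσ p
    have hn : ‖-((p : ℕ) : ℂ) ^ (-s)‖ = ((p : ℕ) : ℝ) ^ (-σ) := by
      rw [norm_neg]
      exact RAvg_norm σ t p
    have h4 := Complex.norm_log_one_add_sub_self_le (z := -((p : ℕ) : ℂ) ^ (-s))
      (by rw [hn]; linarith)
    rw [hn] at h4
    have e : -Complex.log (1 - ((p : ℕ) : ℂ) ^ (-s)) - ((p : ℕ) : ℂ) ^ (-s) =
        -(Complex.log (1 + -((p : ℕ) : ℂ) ^ (-s)) - -((p : ℕ) : ℂ) ^ (-s)) := by
      rw [← sub_eq_add_neg]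
      ring
    rw [e, norm_neg]
    refine h4.trans ?_
    have h5 : (1 - ((p : ℕ) : ℝ) ^ (-σ))⁻¹ ≤ 2 := by
      rw [inv_le_comm₀ (by linarith) (by norm_num)]
      linarith
    have h6 : 0 ≤ (((p : ℕ) : ℝ) ^ (-σ)) ^ 2 := by positivity
    nlinarith
  obtain ⟨hsq, hsq1⟩ := RAvg_sq hσ
  have hsum1 : Summable fun p : Nat.Primes => ((p : ℕ) : ℂ) ^ (-s) := by
    refine Summable.of_norm ?_
    simpa only [hs, RAvg_norm] using RAvg_sum hσ
  have hsum2 : Summable fun p : Nat.Primes =>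
      -Complex.log (1 - ((p : ℕ) : ℂ) ^ (-s)) - ((p : ℕ) : ℂ) ^ (-s) :=
    Summable.of_norm_bounded hsq hterm
  have hsum3 : Summable fun p : Nat.Primes => -Complex.log (1 - ((p : ℕ) : ℂ) ^ (-s)) := by
    have := hsum2.add hsum1
    simpa using this
  have hlog : Real.log ‖riemannZeta s‖ =
      (∑' p : Nat.Primes, -Complex.log (1 - ((p : ℕ) : ℂ) ^ (-s))).re := by
    rw [← hexp, Complex.norm_exp, Real.log_exp]
  have hre : ∑' p : Nat.Primes, ((p : ℕ) : ℝ) ^ (-σ) * Real.cos (t * Real.log (p : ℕ)) =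
      (∑' p : Nat.Primes, ((p : ℕ) : ℂ) ^ (-s)).re := by
    rw [Complex.re_tsum hsum1]
    exact tsum_congr fun p => (RAvg_re σ t p).symm
  rw [hlog, hre]
  have hdiff : (∑' p : Nat.Primes, -Complex.log (1 - ((p : ℕ) : ℂ) ^ (-s))) -
      ∑' p : Nat.Primes, ((p : ℕ) : ℂ) ^ (-s) =
      ∑' p : Nat.Primes, (-Complex.log (1 - ((p : ℕ) : ℂ) ^ (-s)) - ((p : ℕ) : ℂ) ^ (-s)) :=
    (hsum3.tsum_sub hsum1).symm
  have h7 : ‖∑' p : Nat.Primes, (-Complex.log (1 - ((p : ℕ) : ℂ) ^ (-s)) -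
      ((p : ℕ) : ℂ) ^ (-s))‖ ≤ 1 :=
    (tsum_of_norm_bounded hsq.hasSum hterm).trans hsq1
  have h8 := (Complex.abs_re_le_norm _).trans h7
  rw [← hdiff, Complex.sub_re] at h8
  have h9 := (abs_le.1 h8).1
  linarith

private theorem RAvg_int {L T H a : ℝ} (ha : 0 ≤ a) (hL : 0 < L) (hH : 0 < H) :
    -(H * (a * min 1 (2 / (H * L)))) ≤ ∫ t in T..(T + H), a * Real.cos (t * L) := by
  have h1 : ∫ t in T..(T + H), a * Real.cos (t * L) =
      a * ((Real.sin ((T + H) * L) - Real.sin (T * L)) / L) := by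
    rw [intervalIntegral.integral_const_mul]
    congr 1
    rw [intervalIntegral.integral_comp_mul_right (fun x => Real.cos x) hL.ne', integral_cos,
      smul_eq_mul]
    field_simp
  have h2 : -H ≤ (Real.sin ((T + H) * L) - Real.sin (T * L)) / L := by
    rw [le_div_iff₀ hL]
    have h3 : |Real.sin ((T + H) * L) - Real.sin (T * L)| ≤ |(T + H) * L - T * L| := by
      exact Real.abs_sin_sub_sin_le _ _
    have h4 : |(T + H) * L - T * L| = H * L := by
      rw [show (T + H) * L - T * L = H * L by ring]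
      exact abs_of_pos (mul_pos hH hL)
    have := (abs_le.1 (h3.trans h4.le)).1
    linarith
  have h5 : -(2 / L) ≤ (Real.sin ((T + H) * L) - Real.sin (T * L)) / L := by
    rw [← neg_div]
    apply div_le_div_of_nonneg_right _ hL.le
    have := Real.neg_one_le_sin ((T + H) * L)
    have := Real.sin_le_one (T * L)
    linarith
  rw [h1]
  have h6 : -(H * min 1 (2 / (H * L))) ≤ (Real.sin ((T + H) * L) - Real.sin (T * L)) / L := by
    rcases le_total 1 (2 / (H * L)) with h | h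
    · rw [min_eq_left h, mul_one]
      exact h2
    · rw [min_eq_right h]
      have e : H * (2 / (H * L)) = 2 / L := by field_simp
      rw [e]
      exact h5
  calc -(H * (a * min 1 (2 / (H * L)))) = a * -(H * min 1 (2 / (H * L))) := by ring
    _ ≤ a * ((Real.sin ((T + H) * L) - Real.sin (T * L)) / L) := mul_le_mul_of_nonneg_left h6 ha

private theorem RAvg_minsum {σ : ℝ} (hσ : 1 < σ) {H : ℝ} (hH : 0 < H) :
    Summable fun p : Nat.Primes =>
      ((p : ℕ) : ℝ) ^ (-σ) * min 1 (2 / (H * Real.log (p : ℕ))) := by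
  refine Summable.of_nonneg_of_le (fun p => ?_) (fun p => ?_) (RAvg_sum hσ)
  · have h1 := (RAvg_two hσ p).1
    have h2 : 0 < Real.log (p : ℕ) := Real.log_pos (by exact_mod_cast p.2.one_lt)
    positivity
  · have h1 := (RAvg_two hσ p).1
    calc ((p : ℕ) : ℝ) ^ (-σ) * min 1 (2 / (H * Real.log (p : ℕ))) ≤ ((p : ℕ) : ℝ) ^ (-σ) * 1 :=
          mul_le_mul_of_nonneg_left (min_le_left _ _) h1.le
      _ = ((p : ℕ) : ℝ) ^ (-σ) := mul_one _

/-- PROOF. Exchange of sum and integral (`∑ p^(-σ)` converges; e.g.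
`intervalIntegral.hasSum_integral_of_dominated_convergence` or `integral_tsum`); each integral of the cosine
is `≥ -H` and `≥ -2/log p`, that is `≥ -H min 1 (2/(H log p))`. -/
theorem int_lower (σ : ℝ) (hσ : 1 < σ) (T H : ℝ) (hH : 0 < H) :
    -(H * ∑' p : Nat.Primes, ((p : ℕ) : ℝ) ^ (-σ) * min 1 (2 / (H * Real.log (p : ℕ)))) ≤
      ∫ t in T..(T + H), ∑' p : Nat.Primes, ((p : ℕ) : ℝ) ^ (-σ) * Real.cos (t * Real.log (p : ℕ)) := by
  have hnb : ∀ (p : Nat.Primes) (t : ℝ),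
      ‖((p : ℕ) : ℝ) ^ (-σ) * Real.cos (t * Real.log (p : ℕ))‖ ≤ ((p : ℕ) : ℝ) ^ (-σ) := by
    intro p t
    have h1 := (RAvg_two hσ p).1
    rw [norm_mul, Real.norm_of_nonneg h1.le]
    calc ((p : ℕ) : ℝ) ^ (-σ) * ‖Real.cos (t * Real.log (p : ℕ))‖ ≤ ((p : ℕ) : ℝ) ^ (-σ) * 1 :=
          mul_le_mul_of_nonneg_left (Real.abs_cos_le_one _) h1.le
      _ = ((p : ℕ) : ℝ) ^ (-σ) := mul_one _
  have hsum := intervalIntegral.hasSum_integral_of_dominated_convergence (μ := volume)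
    (a := T) (b := T + H)
    (F := fun (p : Nat.Primes) (t : ℝ) => ((p : ℕ) : ℝ) ^ (-σ) * Real.cos (t * Real.log (p : ℕ)))
    (f := fun t => ∑' p : Nat.Primes, ((p : ℕ) : ℝ) ^ (-σ) * Real.cos (t * Real.log (p : ℕ)))
    (fun (p : Nat.Primes) _ => ((p : ℕ) : ℝ) ^ (-σ))
    (fun p => Continuous.aestronglyMeasurable (by fun_prop))
    (fun p => Filter.Eventually.of_forall fun t _ => hnb p t)
    (Filter.Eventually.of_forall fun t _ => RAvg_sum hσ)
    intervalIntegrable_const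
    (Filter.Eventually.of_forall fun t _ =>
      (Summable.of_norm_bounded (RAvg_sum hσ) fun p => hnb p t).hasSum)
  rw [← hsum.tsum_eq, ← tsum_mul_left, ← tsum_neg]
  refine Summable.tsum_le_tsum (fun p => ?_) ((RAvg_minsum hσ hH).mul_left H).neg hsum.summable
  exact RAvg_int (RAvg_two hσ p).1.le (Real.log_pos (by exact_mod_cast p.2.one_lt)) hH

/-- PROOF. `∑' p, p^(-σ) min 1 (2/(H log p)) ≤ log (1/H) + C` by `prime_min_sum` (`p^(-σ) ≤ 1/p`,
`tsum_le_of_sum_le` with a map to finsets of natural numbers). So with `g t = log ‖ζ(σ+it)‖` (continuous,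
`riemannZeta_ne_zero_of_one_lt_re`), `∫ g ≥ H (-log (1/H) - C - 1) = H m`. From
`‖ζ‖ = exp g ≥ exp m (1 + g - m)` we get `IZ σ T H ≥ exp m (H + ∫ g - H m) ≥ H exp m = H² exp (-C-1)`. -/
theorem right_avg : ∃ c : ℝ, 0 < c ∧ ∀ σ : ℝ, 1 < σ → ∀ T H : ℝ, 0 < H → H ≤ 1 →
    c * H ^ 2 ≤ IZ σ T H := by
  obtain ⟨C, hC⟩ := prime_min_sum
  refine ⟨Real.exp (-C - 1), Real.exp_pos _, ?_⟩
  intro σ hσ T H hH hH1
  -- the sum over the primes
  have hS : ∑' p : Nat.Primes, ((p : ℕ) : ℝ) ^ (-σ) * min 1 (2 / (H * Real.log (p : ℕ))) ≤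
      Real.log (1 / H) + C := by
    refine (RAvg_minsum hσ hH).tsum_le_of_sum_le fun S => ?_
    have h1 := hC H hH hH1 (S.map ⟨fun p : Nat.Primes => (p : ℕ), Subtype.val_injective⟩) (by
      intro p hp
      rw [Finset.mem_map] at hp
      obtain ⟨q, -, rfl⟩ := hp
      exact q.2)
    rw [Finset.sum_map] at h1
    refine le_trans (Finset.sum_le_sum fun p _ => ?_) h1
    have h2 : 0 < Real.log (p : ℕ) := Real.log_pos (by exact_mod_cast p.2.one_lt)
    exact mul_le_mul_of_nonneg_right (RAvg_two hσ p).2.1 (by positivity)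
  have hI := int_lower σ hσ T H hH
  -- the two functions
  set P : ℝ → ℝ := fun t =>
    ∑' p : Nat.Primes, ((p : ℕ) : ℝ) ^ (-σ) * Real.cos (t * Real.log (p : ℕ)) with hP
  have hPc : Continuous P := by
    refine continuous_tsum (fun p => by fun_prop) (RAvg_sum hσ) fun p t => ?_
    have h1 := (RAvg_two hσ p).1
    rw [norm_mul, Real.norm_of_nonneg h1.le]
    calc ((p : ℕ) : ℝ) ^ (-σ) * ‖Real.cos (t * Real.log (p : ℕ))‖ ≤ ((p : ℕ) : ℝ) ^ (-σ) * 1 :=
          mul_le_mul_of_nonneg_left (Real.abs_cos_le_one _) h1.le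
      _ = ((p : ℕ) : ℝ) ^ (-σ) := mul_one _
  have hne : ∀ t : ℝ, riemannZeta ((σ : ℂ) + (t : ℂ) * Complex.I) ≠ 0 := fun t =>
    riemannZeta_ne_zero_of_one_lt_re (by simpa using hσ)
  have hzc : Continuous fun t : ℝ => ‖riemannZeta ((σ : ℂ) + (t : ℂ) * Complex.I)‖ := by
    refine continuous_norm.comp ?_
    rw [continuous_iff_continuousAt]
    intro t
    have h1 : (σ : ℂ) + (t : ℂ) * Complex.I ≠ 1 := by
      intro h
      have := congrArg Complex.re h
      simp at this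
      linarith
    exact ContinuousAt.comp (f := fun t : ℝ => (σ : ℂ) + (t : ℂ) * Complex.I)
      (differentiableAt_riemannZeta h1).continuousAt (by fun_prop)
  set m : ℝ := Real.log H - C - 1 with hm
  have hpt : ∀ t : ℝ, Real.exp m * (1 + (P t - 1 - m)) ≤
      ‖riemannZeta ((σ : ℂ) + (t : ℂ) * Complex.I)‖ := by
    intro t
    have h1 := log_zeta_lower σ hσ t
    have h2 : 0 < ‖riemannZeta ((σ : ℂ) + (t : ℂ) * Complex.I)‖ := norm_pos_iff.2 (hne t)
    calc Real.exp m * (1 + (P t - 1 - m)) ≤ Real.exp m * Real.exp (P t - 1 - m) := by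
          apply mul_le_mul_of_nonneg_left _ (Real.exp_pos _).le
          have := Real.add_one_le_exp (P t - 1 - m)
          linarith
      _ = Real.exp (P t - 1) := by
          rw [← Real.exp_add]
          congr 1
          ring
      _ ≤ Real.exp (Real.log ‖riemannZeta ((σ : ℂ) + (t : ℂ) * Complex.I)‖) :=
          Real.exp_le_exp.2 h1
      _ = ‖riemannZeta ((σ : ℂ) + (t : ℂ) * Complex.I)‖ := Real.exp_log h2
  have hPi : IntervalIntegrable P volume T (T + H) := hPc.intervalIntegrable _ _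
  have hint : ∫ t in T..(T + H), Real.exp m * (1 + (P t - 1 - m)) ≤ IZ σ T H := by
    unfold IZ
    refine intervalIntegral.integral_mono_on (by linarith) ?_ (hzc.intervalIntegrable _ _)
      fun t _ => hpt t
    exact Continuous.intervalIntegrable (by fun_prop) _ _
  have hval : ∫ t in T..(T + H), Real.exp m * (1 + (P t - 1 - m)) =
      Real.exp m * ((∫ t in T..(T + H), P t) - m * H) := by
    rw [intervalIntegral.integral_const_mul]
    congr 1
    have e : (fun t => 1 + (P t - 1 - m)) = fun t => P t - m := by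
      funext t
      ring
    rw [e, intervalIntegral.integral_sub hPi intervalIntegrable_const,
      intervalIntegral.integral_const]
    simp
    ring
  rw [hval] at hint
  refine le_trans ?_ hint
  have h3 : H ≤ (∫ t in T..(T + H), P t) - m * H := by
    have h4 : -(H * (Real.log (1 / H) + C)) ≤ ∫ t in T..(T + H), P t :=
      le_trans (neg_le_neg (mul_le_mul_of_nonneg_left hS hH.le)) hI
    rw [one_div, Real.log_inv] at h4
    rw [hm]
    nlinarith
  calc Real.exp (-C - 1) * H ^ 2 = Real.exp m * H := by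
        have : Real.exp m = Real.exp (-C - 1) * H := by
          rw [hm, show Real.log H - C - 1 = (-C - 1) + Real.log H by ring, Real.exp_add,
            Real.exp_log hH]
        rw [this]
        ring
    _ ≤ Real.exp m * ((∫ t in T..(T + H), P t) - m * H) :=
        mul_le_mul_of_nonneg_left h3 (Real.exp_pos _).le

end Pool.Agent.ZUni
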