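import Pool.Agent.ZUni.LocLog
import Pool.Agent.ZUni.RightAvg

/-!
# MODULE LOCS. The lower bound in short intervals without zeros nearby
-/

set_option autoImplicit false

open MeasureTheory Filter

namespace Pool.Agent.ZUni

theorem norm_ge_of_logDeriv {f : ℂ → ℂ} {a b t D : ℝ} (hab : a ≤ b)
    (hd : ∀ σ ∈ Set.Icc a b, DifferentiableAt ℂ f ((σ : ℂ) + (t : ℂ) * Complex.I))
    (h0 : ∀ σ ∈ Set.Icc a b, f ((σ : ℂ) + (t : ℂ) * Complex.I) ≠ 0)
    (hD : ∀ σ ∈ Set.Icc a b, ‖deriv f ((σ : ℂ) + (t : ℂ) * Complex.I) /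
      f ((σ : ℂ) + (t : ℂ) * Complex.I)‖ ≤ D) :
    Real.exp (-(D * (b - a))) * ‖f ((b : ℂ) + (t : ℂ) * Complex.I)‖ ≤
      ‖f ((a : ℂ) + (t : ℂ) * Complex.I)‖ := by
  set F : ℝ → ℂ := fun x => f ((x : ℂ) + (t : ℂ) * Complex.I) with hF
  have hFd : ∀ x ∈ Set.Icc a b, HasDerivAt F (deriv f ((x : ℂ) + (t : ℂ) * Complex.I)) x := by
    intro x hx
    have h1 : HasDerivAt (fun z : ℂ => f (z + (t : ℂ) * Complex.I))
        (deriv f ((x : ℂ) + (t : ℂ) * Complex.I)) (x : ℂ) := by
      have h2 := (hd x hx).hasDerivAt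
      have h3 : HasDerivAt (fun z : ℂ => z + (t : ℂ) * Complex.I) 1 (x : ℂ) :=
        (hasDerivAt_id _).add_const _
      simpa using! h2.comp (x : ℂ) h3
    exact h1.comp_ofReal
  have hFn : ∀ x ∈ Set.Icc a b, 0 < ‖F x‖ := fun x hx => norm_pos_iff.2 (h0 x hx)
  have hv : ∀ x ∈ Set.Icc a b, HasDerivWithinAt (fun y => Real.log (‖F y‖ ^ 2))
      (2 * inner ℝ (F x) (deriv f ((x : ℂ) + (t : ℂ) * Complex.I)) / ‖F x‖ ^ 2)
      (Set.Icc a b) x := by
    intro x hx
    have h1 := (hFd x hx).norm_sq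
    exact (h1.log (by have := hFn x hx; positivity)).hasDerivWithinAt
  have hbound : ∀ x ∈ Set.Icc a b,
      ‖2 * inner ℝ (F x) (deriv f ((x : ℂ) + (t : ℂ) * Complex.I)) / ‖F x‖ ^ 2‖ ≤ 2 * D := by
    intro x hx
    have h1 := hFn x hx
    have h2 := hD x hx
    rw [norm_div] at h2
    have h3 : ‖(inner ℝ (F x) (deriv f ((x : ℂ) + (t : ℂ) * Complex.I)) : ℝ)‖ ≤
        ‖F x‖ * ‖deriv f ((x : ℂ) + (t : ℂ) * Complex.I)‖ := norm_inner_le_norm _ _
    rw [norm_div, norm_mul, Real.norm_ofNat, norm_pow, norm_norm]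
    rw [div_le_iff₀ (by positivity)]
    have h4 : ‖deriv f ((x : ℂ) + (t : ℂ) * Complex.I)‖ ≤ D * ‖F x‖ := by
      rwa [div_le_iff₀ h1] at h2
    calc 2 * ‖(inner ℝ (F x) (deriv f ((x : ℂ) + (t : ℂ) * Complex.I)) : ℝ)‖
        ≤ 2 * (‖F x‖ * (D * ‖F x‖)) := by
          have := mul_le_mul_of_nonneg_left h4 h1.le
          linarith
      _ = 2 * D * ‖F x‖ ^ 2 := by ring
  have h1 := Convex.norm_image_sub_le_of_norm_hasDerivWithin_le hv hbound (convex_Icc a b)
    (Set.left_mem_Icc.2 hab) (Set.right_mem_Icc.2 hab)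
  have h2 : Real.log (‖F b‖ ^ 2) - Real.log (‖F a‖ ^ 2) ≤ 2 * D * (b - a) := by
    refine (le_abs_self _).trans ?_
    rw [Real.norm_eq_abs, Real.norm_eq_abs, abs_of_nonneg (by linarith : (0 : ℝ) ≤ b - a)] at h1
    exact h1
  have hFa := hFn a (Set.left_mem_Icc.2 hab)
  have hFb := hFn b (Set.right_mem_Icc.2 hab)
  rw [Real.log_pow, Real.log_pow] at h2
  push_cast at h2
  have h3 : -(D * (b - a)) + Real.log ‖F b‖ ≤ Real.log ‖F a‖ := by linarith
  have h4 := Real.exp_le_exp.2 h3
  rw [Real.exp_add, Real.exp_log hFb, Real.exp_log hFa] at h4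
  exact h4

private lemma cont_zeta_line (σ T H : ℝ) (hT : 0 < T) (hH : 0 ≤ H) :
    ContinuousOn (fun t : ℝ => ‖riemannZeta ((σ : ℂ) + (t : ℂ) * Complex.I)‖)
      (Set.uIcc T (T + H)) := by
  intro t ht
  rw [Set.uIcc_of_le (by linarith)] at ht
  have h1 : (σ : ℂ) + (t : ℂ) * Complex.I ≠ 1 := by
    intro h
    have h2 := congrArg Complex.im h
    simp at h2
    linarith [ht.1]
  have h2 : ContinuousAt riemannZeta ((σ : ℂ) + (t : ℂ) * Complex.I) :=
    (differentiableAt_riemannZeta h1).continuousAt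
  have h3 : ContinuousAt (fun t : ℝ => (σ : ℂ) + (t : ℂ) * Complex.I) t := by fun_prop
  exact (ContinuousAt.comp_of_eq h2 h3 rfl).norm.continuousWithinAt

theorem local_small (κ K : ℝ) (hκ : 0 < κ) (hκ' : κ ≤ 1 / 4) (hK : 0 < K) :
    ∃ c : ℝ, 0 < c ∧ ∃ T₀ : ℝ, ∀ T : ℝ, T₀ ≤ T → ∀ H : ℝ, 0 < H → H ≤ 1 →
    (∀ s : ℂ, 1 - κ ≤ s.re → T - 2 * Real.log (Real.log T) ≤ s.im →
      s.im ≤ T + H + 2 * Real.log (Real.log T) → riemannZeta s ≠ 0) →
    ∀ σ : ℝ, 1 - K / Real.log (Real.log T) ≤ σ → c * H ^ 2 ≤ IZ σ T H := by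
  obtain ⟨C, hC, T₁, hloc⟩ := logderiv_local κ (2 * K) hκ hκ' (by linarith)
  obtain ⟨c₁, hc₁, hright⟩ := right_avg
  have hexp1 : Real.exp (-(2 * C * (K + 1))) ≤ 1 := by
    rw [Real.exp_le_one_iff]
    have : 0 < 2 * C * (K + 1) := by positivity
    linarith
  refine ⟨Real.exp (-(2 * C * (K + 1))) * c₁, by positivity, ?_⟩
  have hev : ∀ᶠ t : ℝ in atTop, max 1 (K / κ) ≤ Real.log (Real.log t) :=
    (Real.tendsto_log_atTop.comp Real.tendsto_log_atTop).eventually_ge_atTop _
  obtain ⟨T₂, hT₂⟩ := (hev.and (eventually_ge_atTop (max 10 T₁))).exists_forall_of_atTop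
  refine ⟨T₂, fun T hT H hH hH1 hz σ hσ => ?_⟩
  obtain ⟨hl, hT10⟩ := hT₂ T hT
  have hT10' : 10 ≤ T := (le_max_left _ _).trans hT10
  have hTT₁ : T₁ ≤ T := (le_max_right _ _).trans hT10
  set l : ℝ := Real.log (Real.log T) with hldef
  have hl1 : 1 ≤ l := (le_max_left _ _).trans hl
  have hlK : K / κ ≤ l := (le_max_right _ _).trans hl
  have hl0 : 0 < l := by linarith
  have hKl : K / l ≤ κ := by
    rw [div_le_iff₀ hl0]
    rw [div_le_iff₀ hκ] at hlK
    linarith
  have hH2 : 0 < H ^ 2 := by positivity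
  rcases lt_or_ge 1 σ with hσ1 | hσ1
  · refine le_trans ?_ (hright σ hσ1 T H hH hH1)
    apply mul_le_mul_of_nonneg_right _ hH2.le
    calc Real.exp (-(2 * C * (K + 1))) * c₁ ≤ 1 * c₁ :=
          mul_le_mul_of_nonneg_right hexp1 hc₁.le
      _ = c₁ := one_mul _
  · -- `σ ≤ 1`
    set b : ℝ := 1 + 1 / (2 * l) with hb
    have hb1 : 1 < b := by
      have : 0 < 1 / (2 * l) := by positivity
      linarith
    have hσb : σ ≤ b := by linarith
    have hkey : ∀ t ∈ Set.Icc T (T + H), Real.exp (-(2 * C * (K + 1))) *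
        ‖riemannZeta ((b : ℂ) + (t : ℂ) * Complex.I)‖ ≤
          ‖riemannZeta ((σ : ℂ) + (t : ℂ) * Complex.I)‖ := by
      intro t ht
      have hlogT : 0 < Real.log T := Real.log_pos (by linarith)
      have hlogT2 : 2 ≤ Real.log T := by
        have h1 : Real.log (Real.log T) ≤ Real.log T - 1 := Real.log_le_sub_one_of_pos hlogT
        linarith
      have hlogt : Real.log T ≤ Real.log t := Real.log_le_log (by linarith) ht.1
      have hlt1 : l ≤ Real.log (Real.log t) := Real.log_le_log hlogT hlogt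
      have hlt2 : Real.log (Real.log t) ≤ 2 * l := by
        have h1 : Real.log t ≤ Real.log (T * T) := by
          apply Real.log_le_log (by linarith [ht.1])
          nlinarith [ht.2]
        rw [Real.log_mul (by linarith) (by linarith)] at h1
        have h2 : Real.log t ≤ Real.log T ^ 2 := by nlinarith
        have h3 : Real.log (Real.log t) ≤ Real.log (Real.log T ^ 2) :=
          Real.log_le_log (by linarith) h2
        rw [Real.log_pow] at h3
        push_cast at h3
        exact h3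
      have hlt0 : 0 < Real.log (Real.log t) := by linarith
      have hlogd := hloc t (hTT₁.trans ht.1) (by
        intro s hs1 hs2
        have hs3 := abs_le.1 hs2
        exact hz s hs1 (by linarith [ht.1]) (by linarith [ht.2]))
      have hlower : 1 - 2 * K / Real.log (Real.log t) ≤ 1 - K / l := by
        have h1 : K / l ≤ 2 * K / Real.log (Real.log t) := by
          rw [div_le_div_iff₀ hl0 hlt0]
          nlinarith
        linarith
      have hupper : b ≤ 1 + 1 / Real.log (Real.log t) := by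
        have h1 : 1 / (2 * l) ≤ 1 / Real.log (Real.log t) :=
          one_div_le_one_div_of_le hlt0 hlt2
        linarith
      have ht1 : ∀ x : ℝ, (x : ℂ) + (t : ℂ) * Complex.I ≠ 1 := by
        intro x h
        have h2 := congrArg Complex.im h
        simp at h2
        linarith [ht.1]
      have hmain := norm_ge_of_logDeriv (f := riemannZeta) (t := t)
        (D := C * Real.log (Real.log t)) hσb
        (fun x _ => differentiableAt_riemannZeta (ht1 x))
        (fun x hx => by
          apply hz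
          · simp only [Complex.add_re, Complex.ofReal_re, Complex.mul_re, Complex.I_re, mul_zero,
              Complex.ofReal_im, Complex.I_im, mul_one, sub_self, add_zero]
            linarith [hx.1]
          · simp only [Complex.add_im, Complex.ofReal_im, Complex.mul_im, Complex.ofReal_re,
              Complex.I_im, mul_one, Complex.I_re, mul_zero, add_zero, zero_add]
            linarith [ht.1]
          · simp only [Complex.add_im, Complex.ofReal_im, Complex.mul_im, Complex.ofReal_re,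
              Complex.I_im, mul_one, Complex.I_re, mul_zero, add_zero, zero_add]
            linarith [ht.2])
        (fun x hx => hlogd x (by linarith [hx.1]) (by linarith [hx.2]))
      refine le_trans ?_ hmain
      apply mul_le_mul_of_nonneg_right _ (norm_nonneg _)
      apply Real.exp_le_exp.2
      have h1 : b - σ ≤ (K + 1) / l := by
        have h2 : (K + 1) / l = K / l + 1 / l := by ring
        have h3 : 1 / (2 * l) ≤ 1 / l := one_div_le_one_div_of_le hl0 (by linarith)
        rw [h2]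
        linarith
      have h2 : C * Real.log (Real.log t) * (b - σ) ≤ C * (2 * l) * ((K + 1) / l) := by
        apply mul_le_mul (mul_le_mul_of_nonneg_left hlt2 hC.le) h1 (by linarith) (by positivity)
      have h3 : C * (2 * l) * ((K + 1) / l) = 2 * C * (K + 1) := by
        field_simp
      linarith
    have hint : Real.exp (-(2 * C * (K + 1))) * IZ b T H ≤ IZ σ T H := by
      unfold IZ
      rw [← intervalIntegral.integral_const_mul]
      apply intervalIntegral.integral_mono_on (by linarith)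
      · exact ((cont_zeta_line b T H (by linarith) hH.le).intervalIntegrable).const_mul _
      · exact (cont_zeta_line σ T H (by linarith) hH.le).intervalIntegrable
      · exact hkey
    have h1 := hright b hb1 T H hH hH1
    calc Real.exp (-(2 * C * (K + 1))) * c₁ * H ^ 2
        = Real.exp (-(2 * C * (K + 1))) * (c₁ * H ^ 2) := by ring
      _ ≤ Real.exp (-(2 * C * (K + 1))) * IZ b T H :=
          mul_le_mul_of_nonneg_left h1 (Real.exp_pos _).le
      _ ≤ IZ σ T H := hint

end Pool.Agent.ZUni
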