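import Pool.Agent.ZUni.Defs

/-!
# MODULE MEAV. Mean value theorem for Dirichlet polynomials (weak form)
-/

set_option autoImplicit false

open MeasureTheory

namespace Pool.Agent.ZUni

/-- harmonic sums -/
private theorem MeanV_harm (N : ℕ) : ∑ k ∈ Finset.Icc 1 N, (1 : ℝ) / k ≤ 1 + Real.log N := by
  have h1 := harmonic_le_one_add_log N
  rw [harmonic_eq_sum_Icc] at h1
  push_cast at h1
  simpa [one_div] using h1

/-- the kernel -/
private noncomputable def MeanV_w (m n : ℕ) : ℝ := if m = n then 0 else 1 / |(m : ℝ) - n|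

private theorem MeanV_w_nonneg (m n : ℕ) : 0 ≤ MeanV_w m n := by
  unfold MeanV_w
  split_ifs
  · exact le_rfl
  · positivity

private theorem MeanV_w_comm (m n : ℕ) : MeanV_w m n = MeanV_w n m := by
  unfold MeanV_w
  by_cases h : m = n
  · rw [if_pos h, if_pos h.symm]
  · rw [if_neg h, if_neg (Ne.symm h), abs_sub_comm]

private theorem MeanV_w_sum (N m : ℕ) (hm : m ∈ Finset.Icc 1 N) :
    ∑ n ∈ Finset.Icc 1 N, MeanV_w m n ≤ 2 * (1 + Real.log N) := by
  classical
  have hm' := Finset.mem_Icc.1 hm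
  have h1 : ∑ n ∈ Finset.Icc 1 N, MeanV_w m n =
      ∑ n ∈ (Finset.Icc 1 N).filter (fun n => n < m), MeanV_w m n +
      ∑ n ∈ (Finset.Icc 1 N).filter (fun n => ¬ n < m), MeanV_w m n :=
    (Finset.sum_filter_add_sum_filter_not _ _ _).symm
  have h2 : ∑ n ∈ (Finset.Icc 1 N).filter (fun n => n < m), MeanV_w m n ≤
      ∑ k ∈ Finset.Icc 1 N, (1 : ℝ) / k := by
    have e : ∑ n ∈ (Finset.Icc 1 N).filter (fun n => n < m), MeanV_w m n =
        ∑ k ∈ ((Finset.Icc 1 N).filter (fun n => n < m)).image (fun n => m - n), (1 : ℝ) / k := by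
      rw [Finset.sum_image]
      · refine Finset.sum_congr rfl fun n hn => ?_
        rw [Finset.mem_filter] at hn
        unfold MeanV_w
        rw [if_neg (by omega), Nat.cast_sub hn.2.le, abs_of_pos]
        have : (n : ℝ) < m := by exact_mod_cast hn.2
        linarith
      · intro x hx y hy hxy
        have hx' := (Finset.mem_filter.1 hx).2
        have hy' := (Finset.mem_filter.1 hy).2
        have hxy' : m - x = m - y := hxy
        omega
    rw [e]
    refine Finset.sum_le_sum_of_subset_of_nonneg ?_ (fun _ _ _ => by positivity)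
    intro k hk
    obtain ⟨n, hn, rfl⟩ := Finset.mem_image.1 hk
    rw [Finset.mem_filter, Finset.mem_Icc] at hn
    rw [Finset.mem_Icc]
    omega
  have h3 : ∑ n ∈ (Finset.Icc 1 N).filter (fun n => ¬ n < m), MeanV_w m n ≤
      ∑ k ∈ Finset.Icc 1 N, (1 : ℝ) / k := by
    have e0 : ∑ n ∈ (Finset.Icc 1 N).filter (fun n => ¬ n < m), MeanV_w m n =
        ∑ n ∈ (Finset.Icc 1 N).filter (fun n => m < n), MeanV_w m n := by
      symm
      refine Finset.sum_subset ?_ ?_
      · intro n hn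
        rw [Finset.mem_filter] at hn ⊢
        exact ⟨hn.1, by omega⟩
      · intro n hn hn'
        rw [Finset.mem_filter] at hn hn'
        have h4 : m = n := by
          by_contra h5
          exact hn' ⟨hn.1, by omega⟩
        unfold MeanV_w
        rw [if_pos h4]
    have e : ∑ n ∈ (Finset.Icc 1 N).filter (fun n => m < n), MeanV_w m n =
        ∑ k ∈ ((Finset.Icc 1 N).filter (fun n => m < n)).image (fun n => n - m), (1 : ℝ) / k := by
      rw [Finset.sum_image]
      · refine Finset.sum_congr rfl fun n hn => ?_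
        rw [Finset.mem_filter] at hn
        unfold MeanV_w
        have h4 : (m : ℝ) < n := by exact_mod_cast hn.2
        rw [if_neg (by omega), Nat.cast_sub hn.2.le, abs_of_neg (by linarith), neg_sub]
      · intro x hx y hy hxy
        have hx' := (Finset.mem_filter.1 hx).2
        have hy' := (Finset.mem_filter.1 hy).2
        have hxy' : x - m = y - m := hxy
        omega
    rw [e0, e]
    refine Finset.sum_le_sum_of_subset_of_nonneg ?_ (fun _ _ _ => by positivity)
    intro k hk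
    obtain ⟨n, hn, rfl⟩ := Finset.mem_image.1 hk
    rw [Finset.mem_filter, Finset.mem_Icc] at hn
    rw [Finset.mem_Icc]
    omega
  have h4 := MeanV_harm N
  linarith

/-- the elementary inequality for the off-diagonal terms -/
private theorem MeanV_off (N : ℕ) (c : ℕ → ℝ) (hc : ∀ n, 0 ≤ c n) :
    ∑ m ∈ Finset.Icc 1 N, ∑ n ∈ Finset.Icc 1 N,
      c m * c n * (2 * (max (m : ℝ) n) * MeanV_w m n) ≤
    6 * (1 + Real.log N) * ∑ n ∈ Finset.Icc 1 N, n * c n ^ 2 := by
  have hL : ∑ k ∈ Finset.Icc 1 N, (1 : ℝ) / k ≤ 1 + Real.log N := MeanV_harm N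
  have hS0 : 0 ≤ ∑ n ∈ Finset.Icc 1 N, (n : ℝ) * c n ^ 2 :=
    Finset.sum_nonneg fun n _ => by positivity
  -- termwise
  have h1 : ∀ m n : ℕ, c m * c n * (2 * (max (m : ℝ) n) * MeanV_w m n) ≤
      2 * (c m * c n) + (m * c m ^ 2 * MeanV_w m n + n * c n ^ 2 * MeanV_w n m) := by
    intro m n
    by_cases hmn : m = n
    · have h2 : MeanV_w m n = 0 := by unfold MeanV_w; rw [if_pos hmn]
      have h3 := hc m
      have h4 := hc n
      rw [MeanV_w_comm n m, h2]
      have : 0 ≤ c m * c n := mul_nonneg h3 h4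
      simp only [mul_zero, add_zero]
      linarith
    · rw [MeanV_w_comm n m]
      have hw : MeanV_w m n = 1 / |(m : ℝ) - n| := by unfold MeanV_w; rw [if_neg hmn]
      have hpos : 0 < |(m : ℝ) - n| := by
        rw [abs_pos, sub_ne_zero]
        exact_mod_cast hmn
      have hmax : max (m : ℝ) n = |(m : ℝ) - n| + min (m : ℝ) n := by
        have := max_sub_min_eq_abs' (m : ℝ) n
        linarith
      have h5 : 2 * (max (m : ℝ) n) * MeanV_w m n = 2 + 2 * min (m : ℝ) n * MeanV_w m n := by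
        rw [hmax, hw]
        field_simp
      rw [h5]
      have hmin : c m * c n * (2 * min (m : ℝ) n) ≤ m * c m ^ 2 + n * c n ^ 2 := by
        have hm0 : (0 : ℝ) ≤ m := Nat.cast_nonneg m
        have hn0 : (0 : ℝ) ≤ n := Nat.cast_nonneg n
        have a1 : 2 * (c m * c n) ≤ c m ^ 2 + c n ^ 2 := by nlinarith [sq_nonneg (c m - c n)]
        have a2 : 0 ≤ min (m : ℝ) n := le_min hm0 hn0
        calc c m * c n * (2 * min (m : ℝ) n) = 2 * (c m * c n) * min (m : ℝ) n := by ring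
          _ ≤ (c m ^ 2 + c n ^ 2) * min (m : ℝ) n := mul_le_mul_of_nonneg_right a1 a2
          _ = c m ^ 2 * min (m : ℝ) n + c n ^ 2 * min (m : ℝ) n := by ring
          _ ≤ c m ^ 2 * m + c n ^ 2 * n :=
              add_le_add (mul_le_mul_of_nonneg_left (min_le_left _ _) (sq_nonneg _))
                (mul_le_mul_of_nonneg_left (min_le_right _ _) (sq_nonneg _))
          _ = _ := by ring
      have hw0 := MeanV_w_nonneg m n
      calc c m * c n * (2 + 2 * min (m : ℝ) n * MeanV_w m n)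
          = 2 * (c m * c n) + (c m * c n * (2 * min (m : ℝ) n)) * MeanV_w m n := by ring
        _ ≤ 2 * (c m * c n) + (m * c m ^ 2 + n * c n ^ 2) * MeanV_w m n := by
            have := mul_le_mul_of_nonneg_right hmin hw0
            linarith
        _ = _ := by ring
  have h2 : ∑ m ∈ Finset.Icc 1 N, ∑ n ∈ Finset.Icc 1 N,
      c m * c n * (2 * (max (m : ℝ) n) * MeanV_w m n) ≤
      ∑ m ∈ Finset.Icc 1 N, ∑ n ∈ Finset.Icc 1 N,
        (2 * (c m * c n) + (m * c m ^ 2 * MeanV_w m n + n * c n ^ 2 * MeanV_w n m)) :=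
    Finset.sum_le_sum fun m _ => Finset.sum_le_sum fun n _ => h1 m n
  have h3 : ∑ m ∈ Finset.Icc 1 N, ∑ n ∈ Finset.Icc 1 N,
        (2 * (c m * c n) + (m * c m ^ 2 * MeanV_w m n + n * c n ^ 2 * MeanV_w n m)) =
      2 * (∑ n ∈ Finset.Icc 1 N, c n) ^ 2 +
      2 * ∑ m ∈ Finset.Icc 1 N, m * c m ^ 2 * ∑ n ∈ Finset.Icc 1 N, MeanV_w m n := by
    have e1 : ∑ m ∈ Finset.Icc 1 N, ∑ n ∈ Finset.Icc 1 N, 2 * (c m * c n) =
        2 * (∑ n ∈ Finset.Icc 1 N, c n) ^ 2 := by
      rw [sq, Finset.sum_mul_sum, Finset.mul_sum]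
      refine Finset.sum_congr rfl fun m _ => ?_
      rw [Finset.mul_sum]
    have e2 : ∑ m ∈ Finset.Icc 1 N, ∑ n ∈ Finset.Icc 1 N, m * c m ^ 2 * MeanV_w m n =
        ∑ m ∈ Finset.Icc 1 N, m * c m ^ 2 * ∑ n ∈ Finset.Icc 1 N, MeanV_w m n := by
      refine Finset.sum_congr rfl fun m _ => ?_
      rw [Finset.mul_sum]
    have e3 : ∑ m ∈ Finset.Icc 1 N, ∑ n ∈ Finset.Icc 1 N, (n : ℝ) * c n ^ 2 * MeanV_w n m =
        ∑ m ∈ Finset.Icc 1 N, m * c m ^ 2 * ∑ n ∈ Finset.Icc 1 N, MeanV_w m n := by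
      rw [Finset.sum_comm]
      exact e2
    simp only [Finset.sum_add_distrib]
    rw [e1, e2, e3]
    ring
  have h4 : (∑ n ∈ Finset.Icc 1 N, c n) ^ 2 ≤
      (1 + Real.log N) * ∑ n ∈ Finset.Icc 1 N, (n : ℝ) * c n ^ 2 := by
    have h5 := Finset.sum_sq_le_sum_mul_sum_of_sq_eq_mul (Finset.Icc 1 N) (r := c)
      (f := fun k => (1 : ℝ) / k) (g := fun n => (n : ℝ) * c n ^ 2)
      (fun k _ => by positivity) (fun k _ => by positivity) (fun k hk => by
        have : (k : ℝ) ≠ 0 := by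
          have := (Finset.mem_Icc.1 hk).1
          positivity
        field_simp)
    exact h5.trans (mul_le_mul_of_nonneg_right hL hS0)
  have h6 : ∑ m ∈ Finset.Icc 1 N, m * c m ^ 2 * ∑ n ∈ Finset.Icc 1 N, MeanV_w m n ≤
      2 * (1 + Real.log N) * ∑ n ∈ Finset.Icc 1 N, (n : ℝ) * c n ^ 2 := by
    rw [Finset.mul_sum]
    refine Finset.sum_le_sum fun m hm => ?_
    have h7 := MeanV_w_sum N m hm
    have h8 : 0 ≤ (m : ℝ) * c m ^ 2 := by positivity
    calc m * c m ^ 2 * ∑ n ∈ Finset.Icc 1 N, MeanV_w m n ≤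
          m * c m ^ 2 * (2 * (1 + Real.log N)) := mul_le_mul_of_nonneg_left h7 h8
      _ = _ := by ring
  rw [h3] at h2
  linarith

/-- the oscillating integral -/
private theorem MeanV_int (A B : ℝ) (m n : ℕ) (hm : 1 ≤ m) (hn : 1 ≤ n) (hmn : m ≠ n) :
    ‖∫ t in A..B, Complex.exp (((Real.log n - Real.log m : ℝ) : ℂ) * Complex.I * t)‖ ≤
      2 * max (m : ℝ) n * MeanV_w m n := by
  have hm0 : (0 : ℝ) < m := by positivity
  have hn0 : (0 : ℝ) < n := by positivity
  have hlog : Real.log n - Real.log m ≠ 0 := by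
    intro h
    have h1 : Real.log n = Real.log m := by linarith
    have h2 := Real.log_injOn_pos (Set.mem_Ioi.2 hn0) (Set.mem_Ioi.2 hm0) h1
    exact hmn (by exact_mod_cast h2.symm)
  have hc : ((Real.log n - Real.log m : ℝ) : ℂ) * Complex.I ≠ 0 :=
    mul_ne_zero (by exact_mod_cast hlog) Complex.I_ne_zero
  rw [integral_exp_mul_complex hc, norm_div]
  have hnum : ‖Complex.exp (((Real.log n - Real.log m : ℝ) : ℂ) * Complex.I * (B : ℂ)) -
      Complex.exp (((Real.log n - Real.log m : ℝ) : ℂ) * Complex.I * (A : ℂ))‖ ≤ 2 := by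
    refine (norm_sub_le _ _).trans ?_
    have h1 : ∀ x : ℝ,
        ‖Complex.exp (((Real.log n - Real.log m : ℝ) : ℂ) * Complex.I * (x : ℂ))‖ = 1 := by
      intro x
      have h2 : ((Real.log n - Real.log m : ℝ) : ℂ) * Complex.I * (x : ℂ) =
          (((Real.log n - Real.log m) * x : ℝ) : ℂ) * Complex.I := by push_cast; ring
      rw [h2, Complex.norm_exp_ofReal_mul_I]
    rw [h1, h1]
    norm_num
  have hden : ‖((Real.log n - Real.log m : ℝ) : ℂ) * Complex.I‖ = |Real.log n - Real.log m| := by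
    rw [norm_mul, Complex.norm_I, mul_one, Complex.norm_real, Real.norm_eq_abs]
  rw [hden]
  have hw : MeanV_w m n = 1 / |(m : ℝ) - n| := by unfold MeanV_w; rw [if_neg hmn]
  have hpos : 0 < |(m : ℝ) - n| := by
    rw [abs_pos, sub_ne_zero]
    exact_mod_cast hmn
  have hmax : 0 < max (m : ℝ) n := lt_max_of_lt_left hm0
  -- lower bound of the logarithm
  have key : ∀ x y : ℝ, 0 < x → x < y → (y - x) / y ≤ Real.log y - Real.log x := by
    intro x y hx hxy
    have hy : 0 < y := hx.trans hxy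
    have h1 := Real.log_le_sub_one_of_pos (div_pos hx hy)
    rw [Real.log_div hx.ne' hy.ne'] at h1
    have h2 : (y - x) / y = 1 - x / y := by field_simp
    rw [h2]
    linarith
  have hlow : |(m : ℝ) - n| / max (m : ℝ) n ≤ |Real.log n - Real.log m| := by
    rcases lt_or_gt_of_ne (show (m : ℝ) ≠ n by exact_mod_cast hmn) with h | h
    · have h1 := key m n hm0 h
      rw [max_eq_right h.le, abs_of_neg (by linarith), neg_sub]
      exact h1.trans (le_abs_self _)
    · have h1 := key n m hn0 h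
      rw [max_eq_left h.le, abs_of_pos (by linarith), abs_sub_comm]
      exact h1.trans (le_abs_self _)
  rw [hw]
  have hq : 0 < |(m : ℝ) - n| / max (m : ℝ) n := div_pos hpos hmax
  calc ‖_‖ / |Real.log n - Real.log m| ≤ 2 / (|(m : ℝ) - n| / max (m : ℝ) n) :=
        div_le_div₀ (by norm_num) hnum hq hlow
    _ = _ := by field_simp

/-- PROOF. Expand the square. The diagonal terms give `(B - A) ∑ ‖a n‖²`. For `m ≠ n` the integral of
`(n/m)^(it)` over `[A, B]` has absolute value `≤ 2/|log (n/m)| ≤ 2 max m n / |n - m|`. So the remaining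
terms are at most `4 ∑_{m<n} |a m| |a n| n/(n-m)`. For `n ≤ 2m` use
`|a m a n| ≤ (|a m|² + |a n|²)/2` (and `n ≤ 2m` in the first part) and `∑_{k ≤ N} 1/k ≤ 1 + log N`: total
`≤ 6 ∑ n (1 + log N) |a n|²`. For `n > 2m` use `n/(n-m) ≤ 2`: total `≤ 4 (∑ |a n|)² ≤
4 (∑ 1/n) (∑ n |a n|²)`. -/
theorem mean_value (N : ℕ) (a : ℕ → ℂ) (A B : ℝ) (hAB : A ≤ B) :
    ∫ t in A..B, ‖∑ n ∈ Finset.Icc 1 N, a n * (n : ℂ) ^ (-((t : ℂ) * Complex.I))‖ ^ 2 ≤
      ∑ n ∈ Finset.Icc 1 N, ‖a n‖ ^ 2 * ((B - A) + 10 * n * (1 + Real.log N)) := by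
  have hterm : ∀ (t : ℝ) (n : ℕ), n ∈ Finset.Icc 1 N →
      (n : ℂ) ^ (-((t : ℂ) * Complex.I)) = Complex.exp (-((Real.log n : ℝ) : ℂ) * Complex.I * t) := by
    intro t n hn
    have hn1 := (Finset.mem_Icc.1 hn).1
    have hn0 : (n : ℂ) ≠ 0 := by
      have : n ≠ 0 := by omega
      exact_mod_cast this
    rw [Complex.cpow_def_of_ne_zero hn0, Complex.ofReal_log (Nat.cast_nonneg n),
      Complex.ofReal_natCast]
    congr 1
    ring
  have hsq : ∀ t : ℝ,
      ((‖∑ n ∈ Finset.Icc 1 N, a n * (n : ℂ) ^ (-((t : ℂ) * Complex.I))‖ ^ 2 : ℝ) : ℂ) =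
      ∑ m ∈ Finset.Icc 1 N, ∑ n ∈ Finset.Icc 1 N, a m * (starRingEnd ℂ) (a n) *
        Complex.exp (((Real.log n - Real.log m : ℝ) : ℂ) * Complex.I * t) := by
    intro t
    have h1 : ∑ n ∈ Finset.Icc 1 N, a n * (n : ℂ) ^ (-((t : ℂ) * Complex.I)) =
        ∑ n ∈ Finset.Icc 1 N, a n * Complex.exp (-((Real.log n : ℝ) : ℂ) * Complex.I * t) :=
      Finset.sum_congr rfl fun n hn => by rw [hterm t n hn]
    rw [h1, Complex.ofReal_pow, ← Complex.mul_conj', map_sum, Finset.sum_mul_sum]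
    refine Finset.sum_congr rfl fun m _ => Finset.sum_congr rfl fun n _ => ?_
    have h2 : (starRingEnd ℂ) (a n * Complex.exp (-((Real.log n : ℝ) : ℂ) * Complex.I * t)) =
        (starRingEnd ℂ) (a n) * Complex.exp (((Real.log n : ℝ) : ℂ) * Complex.I * t) := by
      rw [map_mul, ← Complex.exp_conj]
      simp only [map_mul, map_neg, Complex.conj_ofReal, Complex.conj_I]
      congr 2
      ring
    have h3 : Complex.exp (((Real.log n - Real.log m : ℝ) : ℂ) * Complex.I * t) =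
        Complex.exp (-((Real.log m : ℝ) : ℂ) * Complex.I * t) *
          Complex.exp (((Real.log n : ℝ) : ℂ) * Complex.I * t) := by
      rw [← Complex.exp_add]
      congr 1
      push_cast
      ring
    rw [h2, h3]
    ring
  have hcont : ∀ m n : ℕ, Continuous fun t : ℝ => a m * (starRingEnd ℂ) (a n) *
        Complex.exp (((Real.log n - Real.log m : ℝ) : ℂ) * Complex.I * t) := by
    intro m n
    fun_prop
  have hint : ((∫ t in A..B,
      ‖∑ n ∈ Finset.Icc 1 N, a n * (n : ℂ) ^ (-((t : ℂ) * Complex.I))‖ ^ 2 : ℝ) : ℂ) =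
      ∑ m ∈ Finset.Icc 1 N, ∑ n ∈ Finset.Icc 1 N, a m * (starRingEnd ℂ) (a n) *
        ∫ t in A..B, Complex.exp (((Real.log n - Real.log m : ℝ) : ℂ) * Complex.I * t) := by
    rw [← intervalIntegral.integral_ofReal]
    simp_rw [hsq]
    rw [intervalIntegral.integral_finsetSum]
    · refine Finset.sum_congr rfl fun m _ => ?_
      rw [intervalIntegral.integral_finsetSum]
      · refine Finset.sum_congr rfl fun n _ => ?_
        rw [intervalIntegral.integral_const_mul]
      · intro n _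
        exact (hcont m n).intervalIntegrable _ _
    · intro m _
      exact (continuous_finsetSum _ fun n _ => hcont m n).intervalIntegrable _ _
  have hle : ∫ t in A..B,
      ‖∑ n ∈ Finset.Icc 1 N, a n * (n : ℂ) ^ (-((t : ℂ) * Complex.I))‖ ^ 2 ≤
      ∑ m ∈ Finset.Icc 1 N, ∑ n ∈ Finset.Icc 1 N, (‖a m‖ * ‖a n‖ *
        ((if m = n then B - A else 0) + 2 * max (m : ℝ) n * MeanV_w m n)) := by
    refine (le_abs_self _).trans ?_
    rw [← Real.norm_eq_abs, ← Complex.norm_real, hint]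
    refine (norm_sum_le _ _).trans (Finset.sum_le_sum fun m hm => ?_)
    refine (norm_sum_le _ _).trans (Finset.sum_le_sum fun n hn => ?_)
    rw [norm_mul, norm_mul, RCLike.norm_conj]
    refine mul_le_mul_of_nonneg_left ?_ (by positivity)
    by_cases hmn : m = n
    · subst hmn
      rw [if_pos rfl]
      have h1 : ∀ t : ℝ,
          Complex.exp (((Real.log m - Real.log m : ℝ) : ℂ) * Complex.I * t) = 1 := by
        intro t
        simp
      simp_rw [h1]
      rw [intervalIntegral.integral_const]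
      have h2 : MeanV_w m m = 0 := by unfold MeanV_w; rw [if_pos rfl]
      rw [h2, mul_zero, add_zero, norm_smul, norm_one, mul_one, Real.norm_of_nonneg (by linarith)]
    · rw [if_neg hmn, zero_add]
      exact MeanV_int A B m n (Finset.mem_Icc.1 hm).1 (Finset.mem_Icc.1 hn).1 hmn
  refine hle.trans ?_
  have hsplit : ∑ m ∈ Finset.Icc 1 N, ∑ n ∈ Finset.Icc 1 N, (‖a m‖ * ‖a n‖ *
        ((if m = n then B - A else 0) + 2 * max (m : ℝ) n * MeanV_w m n)) =
      ∑ n ∈ Finset.Icc 1 N, ‖a n‖ ^ 2 * (B - A) +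
      ∑ m ∈ Finset.Icc 1 N, ∑ n ∈ Finset.Icc 1 N,
        ‖a m‖ * ‖a n‖ * (2 * max (m : ℝ) n * MeanV_w m n) := by
    rw [← Finset.sum_add_distrib]
    refine Finset.sum_congr rfl fun m hm => ?_
    have h1 : ∀ n, ‖a m‖ * ‖a n‖ * ((if m = n then B - A else 0) +
        2 * max (m : ℝ) n * MeanV_w m n) =
        (if m = n then ‖a m‖ * ‖a n‖ * (B - A) else 0) +
        ‖a m‖ * ‖a n‖ * (2 * max (m : ℝ) n * MeanV_w m n) := by
      intro n
      split_ifs <;> ring
    simp_rw [h1]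
    rw [Finset.sum_add_distrib, Finset.sum_ite_eq, if_pos hm]
    ring
  rw [hsplit]
  have hoff := MeanV_off N (fun n => ‖a n‖) (fun n => norm_nonneg _)
  have hlog : 0 ≤ 1 + Real.log N := by
    have := Real.log_natCast_nonneg N
    linarith
  have hS0 : 0 ≤ ∑ n ∈ Finset.Icc 1 N, (n : ℝ) * ‖a n‖ ^ 2 :=
    Finset.sum_nonneg fun n _ => by positivity
  have hfin : ∑ n ∈ Finset.Icc 1 N, ‖a n‖ ^ 2 * ((B - A) + 10 * n * (1 + Real.log N)) =
      ∑ n ∈ Finset.Icc 1 N, ‖a n‖ ^ 2 * (B - A) +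
      10 * (1 + Real.log N) * ∑ n ∈ Finset.Icc 1 N, (n : ℝ) * ‖a n‖ ^ 2 := by
    rw [Finset.mul_sum, ← Finset.sum_add_distrib]
    refine Finset.sum_congr rfl fun n _ => ?_
    ring
  rw [hfin]
  have h9 : 0 ≤ (1 + Real.log N) * ∑ n ∈ Finset.Icc 1 N, (n : ℝ) * ‖a n‖ ^ 2 :=
    mul_nonneg hlog hS0
  linarith

end Pool.Agent.ZUni
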