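import Pool.Agent.ZUni.Defs
import Pool.Agent.MT.Mert
import Pool.Agent.MP_67227b_nt.Pp.PpMert

/-!
# MODULE PRIM. A sum over primes
-/

set_option autoImplicit false

namespace Pool.Agent.ZUni

private theorem PS_small : ∃ C : ℝ, ∀ H : ℝ, 0 < H → H ≤ 1 → ∀ S : Finset ℕ, (∀ p ∈ S, p.Prime) →
    (∀ p ∈ S, (p : ℝ) ≤ Real.exp (1 / H)) →
    ∑ p ∈ S, (1 / (p : ℝ)) ≤ Real.log (1 / H) + C := by
  obtain ⟨C1, hC1, h1⟩ := Pool.Agent.MT.mertens_prod
  refine ⟨Real.log (2 * C1), ?_⟩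
  intro H hH hH1 S hS hle
  set y : ℝ := Real.exp (1 / H) with hy
  have hH' : 1 ≤ 1 / H := by
    rw [le_div_iff₀ hH]
    linarith
  have hy2 : 2 ≤ y := by
    have h2 : Real.exp 1 ≤ y := Real.exp_le_exp.mpr hH'
    have h3 := Real.exp_one_gt_d9
    linarith
  have hy0 : 0 < y := by linarith
  set N : ℕ := ⌊y⌋₊ + 1 with hN
  have hN2 : 2 ≤ N := by
    have h3 : 1 ≤ ⌊y⌋₊ := by
      rw [Nat.one_le_floor_iff]
      linarith
    omega
  have hNy : (N : ℝ) ≤ y ^ 2 := by
    have h3 : (⌊y⌋₊ : ℝ) ≤ y := Nat.floor_le hy0.le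
    rw [hN]
    push_cast
    nlinarith
  have hsub : S ⊆ (Finset.range N).filter Nat.Prime := by
    intro p hp
    rw [Finset.mem_filter, Finset.mem_range]
    refine ⟨?_, hS p hp⟩
    have h3 : p ≤ ⌊y⌋₊ := Nat.le_floor (hle p hp)
    omega
  have hterm : ∀ p ∈ (Finset.range N).filter Nat.Prime,
      1 / (p : ℝ) ≤ Real.log ((1 - 1 / (p : ℝ))⁻¹) := by
    intro p hp
    have hpp := (Finset.mem_filter.mp hp).2
    have hp2 : (2 : ℝ) ≤ p := by exact_mod_cast hpp.two_le
    have h4 : 1 / (p : ℝ) ≤ 1 / 2 := one_div_le_one_div_of_le (by norm_num) hp2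
    have h5 : 0 < 1 - 1 / (p : ℝ) := by linarith
    rw [Real.log_inv]
    have h6 := Real.log_le_sub_one_of_pos h5
    linarith
  have hpos : ∀ p ∈ (Finset.range N).filter Nat.Prime, (1 - 1 / (p : ℝ))⁻¹ ≠ 0 := by
    intro p hp
    have hpp := (Finset.mem_filter.mp hp).2
    have hp2 : (2 : ℝ) ≤ p := by exact_mod_cast hpp.two_le
    have h4 : 1 / (p : ℝ) ≤ 1 / 2 := one_div_le_one_div_of_le (by norm_num) hp2
    have h5 : 0 < 1 - 1 / (p : ℝ) := by linarith
    exact (inv_pos.mpr h5).ne'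
  have hprodpos : 0 < ∏ p ∈ (Finset.range N).filter Nat.Prime, (1 - 1 / (p : ℝ))⁻¹ := by
    apply Finset.prod_pos
    intro p hp
    have hpp := (Finset.mem_filter.mp hp).2
    have hp2 : (2 : ℝ) ≤ p := by exact_mod_cast hpp.two_le
    have h4 : 1 / (p : ℝ) ≤ 1 / 2 := one_div_le_one_div_of_le (by norm_num) hp2
    have h5 : 0 < 1 - 1 / (p : ℝ) := by linarith
    exact inv_pos.mpr h5
  calc ∑ p ∈ S, (1 / (p : ℝ)) ≤ ∑ p ∈ (Finset.range N).filter Nat.Prime, (1 / (p : ℝ)) :=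
        Finset.sum_le_sum_of_subset_of_nonneg hsub (fun p _ _ => by positivity)
    _ ≤ ∑ p ∈ (Finset.range N).filter Nat.Prime, Real.log ((1 - 1 / (p : ℝ))⁻¹) :=
        Finset.sum_le_sum hterm
    _ = Real.log (∏ p ∈ (Finset.range N).filter Nat.Prime, (1 - 1 / (p : ℝ))⁻¹) :=
        (Real.log_prod hpos).symm
    _ ≤ Real.log (C1 * Real.log N) := Real.log_le_log hprodpos (h1 N hN2)
    _ ≤ Real.log (C1 * (2 / H)) := by
        have h7 : Real.log N ≤ 2 / H := by
          calc Real.log N ≤ Real.log (y ^ 2) :=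
                Real.log_le_log (by exact_mod_cast (by omega : 0 < N)) hNy
            _ = 2 / H := by
                rw [Real.log_pow, hy, Real.log_exp]
                push_cast
                ring
        have h8 : 0 < Real.log N := Real.log_pos (by exact_mod_cast (by omega : 1 < N))
        exact Real.log_le_log (by positivity) (mul_le_mul_of_nonneg_left h7 hC1.le)
    _ = Real.log (1 / H) + Real.log (2 * C1) := by
        rw [← Real.log_mul (by positivity) (by positivity)]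
        congr 1
        ring

/-- one dyadic block -/
private theorem PS_block : ∃ C : ℝ, 0 < C ∧ ∀ H : ℝ, 0 < H → H ≤ 1 → ∀ k : ℕ, ∀ S : Finset ℕ,
    (∀ p ∈ S, p.Prime) → (∀ p ∈ S, (2 : ℝ) ^ k < H * Real.log p) →
    (∀ p ∈ S, H * Real.log p ≤ (2 : ℝ) ^ (k + 1)) →
    ∑ p ∈ S, (1 / (p : ℝ)) * (2 / (H * Real.log p)) ≤ C * (1 / 2) ^ k := by
  obtain ⟨C2, hC2, h2⟩ := Pool.Agent.MP_67227b_nt.Pp.sum_prime_div
  refine ⟨2 + 2 * C2, by positivity, ?_⟩
  intro H hH hH1 k S hS hlo hhi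
  have hH' : 1 ≤ 1 / H := by
    rw [le_div_iff₀ hH]
    linarith
  have h2k : (1 : ℝ) ≤ 2 ^ k := one_le_pow₀ (by norm_num)
  set x : ℝ := Real.exp (2 ^ k / H) with hx
  set z : ℝ := Real.exp (2 ^ (k + 1) / H) with hz
  have hx1 : 1 ≤ x := Real.one_le_exp (by positivity)
  have hxz : x ≤ z := by
    apply Real.exp_le_exp.mpr
    apply div_le_div_of_nonneg_right _ hH.le
    rw [pow_succ]
    linarith
  have hsub : S ⊆ (Finset.Ioc ⌊x⌋₊ ⌊z⌋₊).filter Nat.Prime := by
    intro p hp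
    have hp0 : (0 : ℝ) < p := by exact_mod_cast (hS p hp).pos
    rw [Finset.mem_filter, Finset.mem_Ioc]
    refine ⟨⟨?_, ?_⟩, hS p hp⟩
    · rw [Nat.floor_lt (by positivity)]
      have h3 : 2 ^ k / H < Real.log p := by
        rw [div_lt_iff₀ hH]
        have := hlo p hp
        linarith
      calc x < Real.exp (Real.log p) := Real.exp_lt_exp.mpr h3
        _ = p := Real.exp_log hp0
    · apply Nat.le_floor
      have h3 : Real.log p ≤ 2 ^ (k + 1) / H := by
        rw [le_div_iff₀ hH]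
        have := hhi p hp
        linarith
      calc (p : ℝ) = Real.exp (Real.log p) := (Real.exp_log hp0).symm
        _ ≤ z := Real.exp_le_exp.mpr h3
  have h4 := (abs_le.mp (h2 x z hx1 hxz)).2
  have hlogx : Real.log x = 2 ^ k / H := Real.log_exp _
  have hlogz : Real.log z = 2 ^ (k + 1) / H := Real.log_exp _
  have h5 : ∑ p ∈ (Finset.Ioc ⌊x⌋₊ ⌊z⌋₊).filter Nat.Prime, Real.log p / p ≤ 2 ^ k / H + C2 := by
    rw [hlogx, hlogz, pow_succ] at h4
    have h6 : (2 : ℝ) ^ k * 2 / H - 2 ^ k / H = 2 ^ k / H := by ring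
    linarith
  have hterm : ∀ p ∈ S, (1 / (p : ℝ)) * (2 / (H * Real.log p)) ≤
      (2 * H / (2 ^ k) ^ 2) * (Real.log p / p) := by
    intro p hp
    have hp0 : (0 : ℝ) < p := by exact_mod_cast (hS p hp).pos
    have hl := hlo p hp
    have hl0 : 0 < H * Real.log p := by linarith
    have hlog : 0 < Real.log p := by
      by_contra h
      have : H * Real.log p ≤ 0 := mul_nonpos_of_nonneg_of_nonpos hH.le (not_lt.mp h)
      linarith
    have h6 : (2 ^ k) ^ 2 ≤ (H * Real.log p) ^ 2 := by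
      apply pow_le_pow_left₀ (by positivity) hl.le
    have h7 : (1 / (p : ℝ)) * (2 / (H * Real.log p)) =
        (2 * H / (H * Real.log p) ^ 2) * (Real.log p / p) := by
      field_simp
    rw [h7]
    apply mul_le_mul_of_nonneg_right _ (by positivity)
    apply div_le_div_of_nonneg_left (by positivity) (by positivity) h6
  calc ∑ p ∈ S, (1 / (p : ℝ)) * (2 / (H * Real.log p))
      ≤ ∑ p ∈ S, (2 * H / (2 ^ k) ^ 2) * (Real.log p / p) := Finset.sum_le_sum hterm
    _ = (2 * H / (2 ^ k) ^ 2) * ∑ p ∈ S, Real.log p / p := (Finset.mul_sum _ _ _).symm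
    _ ≤ (2 * H / (2 ^ k) ^ 2) * (2 ^ k / H + C2) := by
        apply mul_le_mul_of_nonneg_left _ (by positivity)
        refine le_trans ?_ h5
        apply Finset.sum_le_sum_of_subset_of_nonneg hsub
        intro p hp _
        have hpp := (Finset.mem_filter.mp hp).2
        have : (1 : ℝ) ≤ p := by exact_mod_cast hpp.one_le
        have := Real.log_nonneg this
        positivity
    _ = 2 / 2 ^ k + 2 * H * C2 / (2 ^ k) ^ 2 := by
        field_simp
    _ ≤ 2 / 2 ^ k + 2 * C2 / 2 ^ k := by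
        have h8 : 2 * H * C2 / (2 ^ k) ^ 2 ≤ 2 * C2 / 2 ^ k := by
          rw [div_le_div_iff₀ (by positivity) (by positivity)]
          have h9 : H * 1 ≤ 1 * 2 ^ k := by
            apply mul_le_mul hH1 h2k (by norm_num) (by norm_num)
          have h10 : (0 : ℝ) ≤ 2 * C2 * 2 ^ k := by positivity
          nlinarith
        linarith
    _ = (2 + 2 * C2) * (1 / 2) ^ k := by
        rw [one_div, inv_pow]
        ring

/-- PROOF. Let `y = exp (1/H) ≥ e`. For `p ≤ y` estimate the minimum by `1`;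
`∑_{p ≤ y} 1/p ≤ ∑ -log (1-1/p) ≤ log (C log (y+1))` by `mertens_prod` (Pool/Agent/MT/Mert.lean), and this is
`≤ log (1/H) + C'`. For `p > y` estimate the minimum by `2/(H log p)` and sort the primes into the
intervals `(y^(2^k), y^(2^(k+1))]`, `k ≥ 0`: there `1/(H log p) ≤ 2^(-k)` and
`∑ 1/p ≤ (log y^(2^k))⁻¹ ∑ (log p)/p ≤ (log y^(2^k) + C) / log y^(2^k) ≤ 1 + C` by `sum_prime_div`
(Pool/Agent/MP_67227b_nt/Pp/PpMert.lean); the total is at most `2 ∑_k 2^(-k) (1+C) = 4 (1 + C)`. -/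
theorem prime_min_sum : ∃ C : ℝ, ∀ H : ℝ, 0 < H → H ≤ 1 → ∀ S : Finset ℕ, (∀ p ∈ S, p.Prime) →
    ∑ p ∈ S, (1 / (p : ℝ)) * min 1 (2 / (H * Real.log p)) ≤ Real.log (1 / H) + C := by
  obtain ⟨C1, h1⟩ := PS_small
  obtain ⟨C2, hC2, h2⟩ := PS_block
  refine ⟨C1 + 2 * C2, ?_⟩
  intro H hH hH1 S hS
  classical
  rw [← Finset.sum_filter_add_sum_filter_not S (fun p : ℕ => (p : ℝ) ≤ Real.exp (1 / H))]
  have hA : ∑ p ∈ S.filter (fun p : ℕ => (p : ℝ) ≤ Real.exp (1 / H)),
      (1 / (p : ℝ)) * min 1 (2 / (H * Real.log p)) ≤ Real.log (1 / H) + C1 := by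
    refine le_trans ?_ (h1 H hH hH1 (S.filter (fun p : ℕ => (p : ℝ) ≤ Real.exp (1 / H)))
      (fun p hp => hS p (Finset.mem_filter.mp hp).1) (fun p hp => (Finset.mem_filter.mp hp).2))
    apply Finset.sum_le_sum
    intro p _
    have h3 : (0 : ℝ) ≤ 1 / (p : ℝ) := by positivity
    calc 1 / (p : ℝ) * min 1 (2 / (H * Real.log p)) ≤ 1 / (p : ℝ) * 1 :=
          mul_le_mul_of_nonneg_left (min_le_left _ _) h3
      _ = _ := mul_one _
  set R := S.filter (fun p : ℕ => ¬ (p : ℝ) ≤ Real.exp (1 / H)) with hR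
  have hRS : ∀ p ∈ R, p ∈ S ∧ 1 < H * Real.log p := by
    intro p hp
    rw [hR, Finset.mem_filter] at hp
    refine ⟨hp.1, ?_⟩
    have h3 := not_le.mp hp.2
    have hp0 : (0 : ℝ) < p := by exact_mod_cast (hS p hp.1).pos
    have h4 : 1 / H < Real.log p := by
      rw [Real.lt_log_iff_exp_lt hp0]
      exact h3
    rw [div_lt_iff₀ hH] at h4
    linarith
  -- the index of the block
  have hex : ∀ p ∈ R, ∃ k : ℕ, (2 : ℝ) ^ k < H * Real.log p ∧ H * Real.log p ≤ (2 : ℝ) ^ (k + 1) := by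
    intro p hp
    have h3 := (hRS p hp).2
    have h4 : ∃ n : ℕ, H * Real.log p ≤ (2 : ℝ) ^ n := by
      obtain ⟨n, hn⟩ := pow_unbounded_of_one_lt (H * Real.log p) (by norm_num : (1 : ℝ) < 2)
      exact ⟨n, hn.le⟩
    set m := Nat.find h4 with hm
    have hm1 : H * Real.log p ≤ (2 : ℝ) ^ m := Nat.find_spec h4
    have hm0 : m ≠ 0 := by
      intro h0
      rw [h0, pow_zero] at hm1
      linarith
    obtain ⟨k, hk⟩ := Nat.exists_eq_succ_of_ne_zero hm0
    refine ⟨k, ?_, ?_⟩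
    · by_contra h5
      have h6 : m ≤ k := Nat.find_min' h4 (not_lt.mp h5)
      omega
    · rw [← Nat.succ_eq_add_one, ← hk]
      exact hm1
  choose! κ hκ1 hκ2 using hex
  obtain ⟨K, hK⟩ : ∃ K : ℕ, ∀ p ∈ R, κ p < K := by
    refine ⟨R.sup κ + 1, fun p hp => ?_⟩
    have := Finset.le_sup (f := κ) hp
    omega
  have hB : ∑ p ∈ R, (1 / (p : ℝ)) * min 1 (2 / (H * Real.log p)) ≤ 2 * C2 := by
    calc ∑ p ∈ R, (1 / (p : ℝ)) * min 1 (2 / (H * Real.log p))
        ≤ ∑ p ∈ R, (1 / (p : ℝ)) * (2 / (H * Real.log p)) := by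
          apply Finset.sum_le_sum
          intro p _
          exact mul_le_mul_of_nonneg_left (min_le_right _ _) (by positivity)
      _ = ∑ k ∈ Finset.range K, ∑ p ∈ R.filter (fun p => κ p = k),
            (1 / (p : ℝ)) * (2 / (H * Real.log p)) := by
          rw [Finset.sum_fiberwise_of_maps_to]
          intro p hp
          exact Finset.mem_range.mpr (hK p hp)
      _ ≤ ∑ k ∈ Finset.range K, C2 * (1 / 2) ^ k := by
          apply Finset.sum_le_sum
          intro k _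
          apply h2 H hH hH1 k
          · intro p hp
            exact hS p (hRS p (Finset.mem_filter.mp hp).1).1
          · intro p hp
            have h3 := Finset.mem_filter.mp hp
            have h4 := hκ1 p h3.1
            rw [h3.2] at h4
            exact h4
          · intro p hp
            have h3 := Finset.mem_filter.mp hp
            have h4 := hκ2 p h3.1
            rw [h3.2] at h4
            exact h4
      _ = C2 * ∑ k ∈ Finset.range K, (1 / 2 : ℝ) ^ k := (Finset.mul_sum _ _ _).symm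
      _ ≤ C2 * 2 := by
          apply mul_le_mul_of_nonneg_left _ hC2.le
          have h3 := sum_geometric_two_le K
          simpa using h3
      _ = 2 * C2 := by ring
  linarith

end Pool.Agent.ZUni
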